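import Mathlib

/-!
# Residual sets of disk packings have Hausdorff dimension at least 5/4: definitions

See `BLUEPRINT.md` for the mathematics.
-/

open MeasureTheory Set Metric Real
open scoped ENNReal NNReal

namespace DiskDim

/-- The unit vector in direction `θ`. -/
noncomputable def e (θ : ℝ) : ℂ := ⟨Real.cos θ, Real.sin θ⟩

/-- Lebesgue measure on the directions `(-π, π]` (total mass `2π`). -/
noncomputable def ang : Measure ℝ := volume.restrict (Ioc (-π) π)

/-- The closed arc of directions `θ` with `sin² ((θ - φ)/2) ≤ X`. -/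
def arc (φ X : ℝ) : Set ℝ := {θ | Real.sin ((θ - φ) / 2) ^ 2 ≤ X}

/-- The open arc of directions `θ` with `sin² ((θ - φ)/2) < X`. -/
def arcO (φ X : ℝ) : Set ℝ := {θ | Real.sin ((θ - φ) / 2) ^ 2 < X}

/-- A packing of the closed disk of radius `R` about `0` by disks `ball (c i) (r i)`,
in metric form. -/
structure Pack (ι : Type) where
  c : ι → ℂ
  r : ι → ℝ
  R : ℝ
  rpos : ∀ i, 0 < r i
  sub : ∀ i, ‖c i‖ + r i ≤ R
  dj : ∀ i j, i ≠ j → r i + r j ≤ dist (c i) (c j)

variable {ι : Type}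

/-- The point at distance `ρ` from the centre of disk `i` in direction `θ`. -/
noncomputable def Pack.pt (P : Pack ι) (i : ι) (ρ θ : ℝ) : ℂ := P.c i + (ρ : ℂ) * e θ

/-- The residual set. -/
def Pack.res (P : Pack ι) : Set ℂ := closedBall 0 P.R \ ⋃ i, ball (P.c i) (P.r i)

/-- Sharing parameter of a large disk. -/
noncomputable def lam (r : ℝ) : ℝ := (r - 2) / r

/-- Weight of a small blocker `1 < ρ ≤ 5/2`: one minus the density `(5 - 2ρ)/(3ρ²)`. -/
noncomputable def wt (ρ : ℝ) : ℝ := (3 * ρ + 5) * (ρ - 1) / (3 * ρ ^ 2)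

open Classical in
/-- Blocking weight: `1` for large disks, `wt` for small ones. -/
noncomputable def bw (ρ : ℝ) : ℝ := if 5 / 2 < ρ then 1 else wt ρ

open Classical in
/-- Directions of disk `i` blocked at level `s` by disk `j`. -/
noncomputable def blk (P : Pack ι) (i j : ι) (s : ℝ) : Set ℝ :=
  if 5 / 2 < P.r j then
    {θ | dist (P.pt i (P.r i + lam (P.r i) * s) θ) (P.c j) ≤ P.r j + lam (P.r j) * s}
  else {θ | dist (P.pt i (P.r i + lam (P.r i) * s) θ) (P.c j) < P.r j}

/-- Directions of disk `i` blocked at level `s` by the exterior of the big disk. -/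
def blkExt (P : Pack ι) (i : ι) (s : ℝ) : Set ℝ :=
  {θ | P.R < ‖P.pt i (P.r i + lam (P.r i) * s) θ‖}

/-- The shadow of disk `j` on the circle of radius `r i + 2` about `c i`. -/
def own (P : Pack ι) (i j : ι) : Set ℝ := {θ | dist (P.pt i (P.r i + 2) θ) (P.c j) < P.r j}

/-- The shadow of the exterior of the big disk. -/
def ownExt (P : Pack ι) (i : ι) : Set ℝ := {θ | P.R < ‖P.pt i (P.r i + 2) θ‖}

/-- The profile bounding the blocked fraction at level `s`. -/
noncomputable def prof (r s : ℝ) : ℝ := √((r ^ 2 + r - 2) * s / (r ^ 2 + (r - 2) * s))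

/-- The cell of the large disk `i`, over the directions outside `M`. -/
def cell (P : Pack ι) (M : Set ℝ) (i : ι) : Set ℂ :=
  {x | ∃ s θ : ℝ, 0 < s ∧ s < 1 ∧ θ ∈ Ioc (-π) π ∧ θ ∉ M ∧
    x = P.pt i (P.r i + lam (P.r i) * s) θ ∧ ‖x‖ ≤ P.R ∧
    ∀ j, j ≠ i → 5 / 2 < P.r j → P.r j + lam (P.r j) * s < dist x (P.c j)}

/-- Disk `i` is killed by the family `K` of balls: some ball of `K` at least as large as the
disk meets its boundary circle. -/
def dead (P : Pack ι) (K : Finset (ℂ × ℝ)) (i : ι) : Prop :=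
  ∃ k ∈ K, P.r i ≤ k.2 ∧ ∃ θ, P.pt i (P.r i) θ ∈ ball k.1 k.2

/-- Directions whose boundary point is in no ball of `K`. -/
def aliveSet (P : Pack ι) (K : Finset (ℂ × ℝ)) (i : ι) : Set ℝ :=
  {θ | ∀ k ∈ K, P.pt i (P.r i) θ ∉ ball k.1 k.2}

open Classical in
/-- Measure of the alive directions of disk `i`. -/
noncomputable def mass (P : Pack ι) (K : Finset (ℂ × ℝ)) (i : ι) : ℝ :=
  if dead P K i then 0 else (ang (aliveSet P K i)).toReal

/-- Directions whose boundary point is within `6` of some ball of `K`. -/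
def Mset (P : Pack ι) (K : Finset (ℂ × ℝ)) (i : ι) : Set ℝ :=
  {θ | ∃ k ∈ K, P.pt i (P.r i) θ ∈ ball k.1 (k.2 + 6)}

/-- Area per radian of the part of a disk of radius `r` within `ε` of its boundary. -/
noncomputable def hh (r ε : ℝ) : ℝ := (r ^ 2 - (max (r - ε) 0) ^ 2) / 2

/-- The alive area at scale `ε`. -/
noncomputable def QQ (P : Pack ι) (K : Finset (ℂ × ℝ)) (ε : ℝ) : ℝ := ∑' i, mass P K i * hh (P.r i) ε

/-- The potential `ε^{-3/4} Q`. -/
noncomputable def PP (P : Pack ι) (K : Finset (ℂ × ℝ)) (ε : ℝ) : ℝ := ε ^ (-(3 / 4) : ℝ) * QQ P K ε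

end DiskDim
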