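import Mathlib
import Pool.Agent.DiskDim.Defs

/-! # DD/Arc: measures of arcs -/

open MeasureTheory Set Metric Real
open scoped ENNReal NNReal

namespace DiskDim

theorem ang_univ : ang univ = ENNReal.ofReal (2 * π) := by
  unfold ang
  rw [Measure.restrict_apply MeasurableSet.univ, univ_inter, Real.volume_Ioc]
  congr 1; ring

namespace ArcAux

theorem periodic (S : Set ℝ) (hS : MeasurableSet S) (hp : ∀ θ, θ + 2 * π ∈ S ↔ θ ∈ S) (φ : ℝ) :
    ang S = volume (S ∩ Ioc (φ - π) (φ + π)) := by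
  have hT : (0 : ℝ) < 2 * π := by positivity
  have h1 := isAddFundamentalDomain_Ioc hT (-π) (volume : Measure ℝ)
  have h2 := isAddFundamentalDomain_Ioc hT (φ - π) (volume : Measure ℝ)
  have hz : ∀ n : ℤ, ∀ θ, θ + n * (2 * π) ∈ S ↔ θ ∈ S := by
    intro n
    induction n using Int.induction_on with
    | zero => intro θ; simp
    | succ n ih =>
      intro θ
      have e : θ + ((n : ℤ) + 1 : ℤ) * (2 * π) = (θ + (n : ℤ) * (2 * π)) + 2 * π := by
        push_cast; ring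
      rw [e, hp, ih]
    | pred n ih =>
      intro θ
      have e : θ + (-(n : ℤ) : ℤ) * (2 * π) = (θ + (-(n : ℤ) - 1 : ℤ) * (2 * π)) + 2 * π := by
        push_cast; ring
      rw [← hp, ← e, ih]
  have h3 := h1.measure_set_eq h2 hS (by
    intro g
    obtain ⟨g, n, rfl⟩ := g
    ext θ
    simp only [mem_preimage]
    have : ((⟨(fun m : ℤ => m • (2 * π)) n, ⟨n, rfl⟩⟩ : AddSubgroup.zmultiples (2 * π)) +ᵥ θ) =
        θ + n * (2 * π) := by
      change n • (2 * π) + θ = _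
      rw [zsmul_eq_mul]; ring
    rw [this]
    exact hz n θ)
  unfold ang
  rw [Measure.restrict_apply hS]
  have e1 : -π + 2 * π = π := by ring
  have e2 : φ - π + 2 * π = φ + π := by ring
  rw [e1, e2] at h3
  exact h3

theorem sin_sq_periodic (φ θ : ℝ) :
    Real.sin ((θ + 2 * π - φ) / 2) ^ 2 = Real.sin ((θ - φ) / 2) ^ 2 := by
  have : (θ + 2 * π - φ) / 2 = (θ - φ) / 2 + π := by ring
  rw [this, Real.sin_add_pi, neg_sq]

theorem sandwich {φ α : ℝ} {A : Set ℝ} (h1 : Ioo (φ - 2 * α) (φ + 2 * α) ⊆ A)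
    (h2 : A ⊆ Icc (φ - 2 * α) (φ + 2 * α)) : volume A = ENNReal.ofReal (4 * α) := by
  apply le_antisymm
  · refine (measure_mono h2).trans (le_of_eq ?_)
    rw [Real.volume_Icc]; congr 1; ring
  · refine le_trans (le_of_eq ?_) (measure_mono h1)
    rw [Real.volume_Ioo]; congr 1; ring

theorem abs_le_of_sin {X ψ : ℝ} (h1 : |ψ| ≤ π / 2) (h : Real.sin ψ ^ 2 ≤ X) :
    |ψ| ≤ arcsin (√X) := by
  have h2 : Real.sin |ψ| ≤ √X := by
    apply Real.le_sqrt_of_sq_le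
    rcases abs_choice ψ with h3 | h3 <;> rw [h3]
    · exact h
    · rw [Real.sin_neg, neg_sq]; exact h
  have h3 := Real.monotone_arcsin h2
  rwa [Real.arcsin_sin (by linarith [abs_nonneg ψ, Real.pi_pos]) h1] at h3

theorem sin_sq_le {X ψ : ℝ} (h0 : 0 ≤ X) (hX : X ≤ 1) (h : |ψ| ≤ arcsin (√X)) :
    Real.sin ψ ^ 2 ≤ X := by
  have h1 : Real.sin |ψ| ≤ Real.sin (arcsin (√X)) :=
    Real.sin_le_sin_of_le_of_le_pi_div_two (by linarith [abs_nonneg ψ, Real.pi_pos])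
      (Real.arcsin_le_pi_div_two _) h
  rw [Real.sin_arcsin (by linarith [Real.sqrt_nonneg X]) (Real.sqrt_le_one.2 hX)] at h1
  have h2 : 0 ≤ Real.sin |ψ| := Real.sin_nonneg_of_nonneg_of_le_pi (abs_nonneg _)
    (by linarith [Real.arcsin_le_pi_div_two (√X), Real.pi_pos])
  have h3 : Real.sin |ψ| ^ 2 = Real.sin ψ ^ 2 := by
    rcases abs_choice ψ with h4 | h4 <;> rw [h4]
    rw [Real.sin_neg, neg_sq]
  rw [← h3, ← Real.sq_sqrt h0]
  exact pow_le_pow_left₀ h2 h1 2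

theorem sin_sq_lt {X ψ : ℝ} (h0 : 0 ≤ X) (hX : X ≤ 1) (h : |ψ| < arcsin (√X)) :
    Real.sin ψ ^ 2 < X := by
  have h1 : Real.sin |ψ| < Real.sin (arcsin (√X)) :=
    Real.sin_lt_sin_of_lt_of_le_pi_div_two (by linarith [abs_nonneg ψ, Real.pi_pos])
      (Real.arcsin_le_pi_div_two _) h
  rw [Real.sin_arcsin (by linarith [Real.sqrt_nonneg X]) (Real.sqrt_le_one.2 hX)] at h1
  have h2 : 0 ≤ Real.sin |ψ| := Real.sin_nonneg_of_nonneg_of_le_pi (abs_nonneg _)
    (by linarith [Real.arcsin_le_pi_div_two (√X), Real.pi_pos])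
  have h3 : Real.sin |ψ| ^ 2 = Real.sin ψ ^ 2 := by
    rcases abs_choice ψ with h4 | h4 <;> rw [h4]
    rw [Real.sin_neg, neg_sq]
  rw [← h3, ← Real.sq_sqrt h0]
  exact pow_lt_pow_left₀ h1 h2 two_ne_zero

theorem upper {φ X : ℝ} : {θ | Real.sin ((θ - φ) / 2) ^ 2 ≤ X} ∩ Ioc (φ - π) (φ + π) ⊆
    Icc (φ - 2 * arcsin (√X)) (φ + 2 * arcsin (√X)) := by
  rintro θ ⟨h1, h2, h3⟩
  have h4 : |(θ - φ) / 2| ≤ π / 2 := by rw [abs_le]; constructor <;> linarith
  have h5 := abs_le.1 (abs_le_of_sin h4 h1)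
  exact ⟨by linarith [h5.1], by linarith [h5.2]⟩

end ArcAux

open ArcAux

theorem ang_arc (φ : ℝ) {X : ℝ} (h0 : 0 ≤ X) (h1 : X ≤ 1) :
    ang (arc φ X) = ENNReal.ofReal (4 * arcsin (√X)) := by
  have hm : MeasurableSet (arc φ X) := measurableSet_le (by fun_prop) (by fun_prop)
  rw [periodic (arc φ X) hm (fun θ => by simp only [arc, Set.mem_ofPred_eq, sin_sq_periodic]) φ]
  have hα := Real.arcsin_le_pi_div_two (√X)
  refine sandwich ?_ upper
  rintro θ ⟨h2, h3⟩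
  have h4 : |(θ - φ) / 2| ≤ arcsin (√X) := by rw [abs_le]; constructor <;> linarith
  exact ⟨sin_sq_le h0 h1 h4, by linarith, by linarith⟩

theorem ang_arcO (φ : ℝ) {X : ℝ} (h0 : 0 ≤ X) (h1 : X ≤ 1) :
    ang (arcO φ X) = ENNReal.ofReal (4 * arcsin (√X)) := by
  have hm : MeasurableSet (arcO φ X) := measurableSet_lt (by fun_prop) (by fun_prop)
  rw [periodic (arcO φ X) hm (fun θ => by simp only [arcO, Set.mem_ofPred_eq, sin_sq_periodic]) φ]
  have hα := Real.arcsin_le_pi_div_two (√X)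
  refine sandwich ?_ (Subset.trans (inter_subset_inter_left _
    (show arcO φ X ⊆ {θ | Real.sin ((θ - φ) / 2) ^ 2 ≤ X} from by
      intro θ h
      simp only [arcO, Set.mem_ofPred_eq] at h ⊢
      exact h.le)) upper)
  rintro θ ⟨h2, h3⟩
  have h4 : |(θ - φ) / 2| < arcsin (√X) := by rw [abs_lt]; constructor <;> linarith
  exact ⟨sin_sq_lt h0 h1 h4, by linarith, by linarith⟩

end DiskDim
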