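import Mathlib
import Pool.Agent.DiskDim.Defs

/-! # DD/Geo: elementary geometry -/

open MeasureTheory Set Metric Real
open scoped ENNReal NNReal

namespace DiskDim

set_option linter.unusedVariables false

variable {ι : Type}

theorem norm_e (θ : ℝ) : ‖e θ‖ = 1 := by
  have h : ‖e θ‖ ^ 2 = 1 := by
    rw [Complex.sq_norm, Complex.normSq_apply]
    simp only [e]
    nlinarith [Real.cos_sq_add_sin_sq θ]
  have h0 := norm_nonneg (e θ)
  nlinarith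

theorem e_eq (θ : ℝ) : e θ = (Real.cos θ : ℂ) + (Real.sin θ : ℂ) * Complex.I := by
  exact Complex.mk_eq_add_mul_I _ _

theorem continuous_e : Continuous e := by
  have : e = fun θ : ℝ => (Real.cos θ : ℂ) + (Real.sin θ : ℂ) * Complex.I := funext e_eq
  rw [this]
  fun_prop

/-- law of cosines -/
theorem dist_sq (x : ℂ) (a d θ φ : ℝ) :
    dist (x + (a : ℂ) * e θ) (x + (d : ℂ) * e φ) ^ 2 =
      (a - d) ^ 2 + 4 * a * d * Real.sin ((θ - φ) / 2) ^ 2 := by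
  rw [dist_add_left, dist_eq_norm, Complex.sq_norm, Complex.normSq_apply]
  have hre : ((a : ℂ) * e θ - (d : ℂ) * e φ).re = a * Real.cos θ - d * Real.cos φ := by
    simp [e]
  have him : ((a : ℂ) * e θ - (d : ℂ) * e φ).im = a * Real.sin θ - d * Real.sin φ := by
    simp [e]
  rw [hre, him]
  have h1 : Real.sin ((θ - φ) / 2) ^ 2 = (1 - Real.cos (θ - φ)) / 2 := by
    have := Real.cos_sq' ((θ - φ) / 2)
    have h2 := Real.cos_sq ((θ - φ) / 2)
    rw [mul_div_cancel₀ _ (two_ne_zero)] at h2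
    linarith
  rw [h1, Real.cos_sub]
  have hθ := Real.cos_sq_add_sin_sq θ
  have hφ := Real.cos_sq_add_sin_sq φ
  linear_combination a ^ 2 * hθ + d ^ 2 * hφ

theorem exists_dir (x y : ℂ) : ∃ φ : ℝ, y = x + ((dist x y : ℝ) : ℂ) * e φ := by
  refine ⟨Complex.arg (y - x), ?_⟩
  rw [dist_comm, dist_eq_norm]
  apply Complex.ext
  · simp [e, Complex.norm_mul_cos_arg]
  · simp [e, Complex.norm_mul_sin_arg]

theorem dist_pt_center (P : Pack ι) (i : ι) {ρ : ℝ} (hρ : 0 ≤ ρ) (θ : ℝ) :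
    dist (P.pt i ρ θ) (P.c i) = ρ := by
  unfold Pack.pt
  rw [dist_eq_norm, add_sub_cancel_left, norm_mul, norm_e, mul_one, Complex.norm_real,
    Real.norm_of_nonneg hρ]

theorem arcsin_ratio {X Y f : ℝ} (hX : 0 ≤ X) (hY0 : 0 ≤ Y) (hY : Y ≤ 1) (hf0 : 0 ≤ f)
    (hf1 : f ≤ 1) (h : X ≤ f ^ 2 * Y) : arcsin (√X) ≤ f * arcsin (√Y) := by
  have hsY : √Y ≤ 1 := Real.sqrt_le_one.2 hY
  set y := arcsin (√Y) with hy
  have hy0 : 0 ≤ y := Real.arcsin_nonneg.2 (Real.sqrt_nonneg _)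
  have hy1 : y ≤ π / 2 := Real.arcsin_le_pi_div_two _
  have hsin : Real.sin y = √Y := Real.sin_arcsin (by linarith [Real.sqrt_nonneg Y]) hsY
  have hconc : f * Real.sin y ≤ Real.sin (f * y) := by
    have hc := strictConcaveOn_sin_Icc.concaveOn.2 (x := y) (y := 0)
      ⟨hy0, by linarith [Real.pi_pos]⟩ ⟨le_rfl, Real.pi_pos.le⟩ hf0 (sub_nonneg.2 hf1) (by ring)
    simpa using hc
  have h1 : √X ≤ f * √Y := by
    rw [← Real.sqrt_sq hf0, ← Real.sqrt_mul (sq_nonneg f)]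
    exact Real.sqrt_le_sqrt h
  have h2 : √X ≤ Real.sin (f * y) := by
    rw [← hsin] at h1
    exact h1.trans hconc
  have h3 : arcsin (√X) ≤ arcsin (Real.sin (f * y)) := Real.monotone_arcsin h2
  rw [Real.arcsin_sin (by nlinarith [Real.pi_pos]) (by nlinarith)] at h3
  exact h3

theorem arcsin_ratio_w {X Y f w c2 : ℝ} (hX : 0 ≤ X) (hX1 : X ≤ 1 / 25) (hY0 : 0 ≤ Y)
    (hY : Y ≤ 1) (hf0 : 0 ≤ f) (hw : 0 ≤ w) (hc : 0 ≤ c2) (hwc : w ^ 2 * c2 ≤ 9 / 10)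
    (h : X ≤ f ^ 2 * c2 * Y) : w * arcsin (√X) ≤ f * arcsin (√Y) := by
  have hsY : √Y ≤ 1 := Real.sqrt_le_one.2 hY
  have hsin : Real.sin (arcsin (√Y)) = √Y :=
    Real.sin_arcsin (by linarith [Real.sqrt_nonneg Y]) hsY
  have hy : √Y ≤ arcsin (√Y) := by
    conv_lhs => rw [← hsin]
    exact Real.sin_le (Real.arcsin_nonneg.2 (Real.sqrt_nonneg _))
  -- upper bound of `arcsin √X`
  have hsX : √X < 1 := by
    rw [Real.sqrt_lt' one_pos]; linarith
  have h1 : arcsin (√X) ≤ √X / √(1 - X) := by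
    have h0 : 0 ≤ arcsin (√X) := Real.arcsin_nonneg.2 (Real.sqrt_nonneg _)
    have hlt : arcsin (√X) < π / 2 := Real.arcsin_lt_pi_div_two.2 hsX
    have := Real.le_tan h0 hlt
    rw [Real.tan_arcsin, Real.sq_sqrt hX] at this
    exact this
  have h1X : 0 < 1 - X := by linarith
  have h2 : w * (√X / √(1 - X)) ≤ f * √Y := by
    have e1 : w * (√X / √(1 - X)) = √(w ^ 2 * (X / (1 - X))) := by
      rw [Real.sqrt_mul (sq_nonneg w), Real.sqrt_sq hw, Real.sqrt_div hX]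
    have e2 : f * √Y = √(f ^ 2 * Y) := by
      rw [Real.sqrt_mul (sq_nonneg f), Real.sqrt_sq hf0]
    rw [e1, e2]
    apply Real.sqrt_le_sqrt
    rw [← mul_div_assoc, div_le_iff₀ h1X]
    have h3 : w ^ 2 * X ≤ w ^ 2 * (f ^ 2 * c2 * Y) := mul_le_mul_of_nonneg_left h (sq_nonneg w)
    have h4 : w ^ 2 * (f ^ 2 * c2 * Y) = (w ^ 2 * c2) * (f ^ 2 * Y) := by ring
    have h5 : 0 ≤ f ^ 2 * Y := by positivity
    have h6 : (w ^ 2 * c2) * (f ^ 2 * Y) ≤ 9 / 10 * (f ^ 2 * Y) :=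
      mul_le_mul_of_nonneg_right hwc h5
    nlinarith
  calc w * arcsin (√X) ≤ w * (√X / √(1 - X)) := mul_le_mul_of_nonneg_left h1 hw
    _ ≤ f * √Y := h2
    _ ≤ f * arcsin (√Y) := mul_le_mul_of_nonneg_left hy hf0

theorem prof_nonneg (r s : ℝ) : 0 ≤ prof r s := Real.sqrt_nonneg _

theorem prof_sq {r s : ℝ} (hr : 5 / 2 < r) (hs : 0 ≤ s) :
    prof r s ^ 2 = (r ^ 2 + r - 2) * s / (r ^ 2 + (r - 2) * s) := by
  unfold prof
  rw [Real.sq_sqrt]
  have h1 : 0 ≤ r ^ 2 + r - 2 := by nlinarith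
  have h2 : 0 ≤ (r - 2) * s := mul_nonneg (by linarith) hs
  positivity

theorem prof_le_one {r s : ℝ} (hr : 5 / 2 < r) (hs : 0 ≤ s) (hs1 : s ≤ 1) : prof r s ≤ 1 := by
  unfold prof
  have h2 : 0 ≤ (r - 2) * s := mul_nonneg (by linarith) hs
  rw [Real.sqrt_le_one, div_le_one (by positivity)]
  nlinarith

end DiskDim
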