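import Mathlib
import Pool.Agent.DiskDim.Defs
import Pool.Agent.DiskDim.Geo

/-! # DD/Basic: packing basics -/

open MeasureTheory Set Metric Real
open scoped ENNReal NNReal

namespace DiskDim

variable {ι : Type}

theorem ang_univ_basic : ang univ = ENNReal.ofReal (2 * π) := by
  unfold ang
  rw [Measure.restrict_apply_univ, Real.volume_Ioc]
  congr 1; ring

theorem ang_toReal_le (S : Set ℝ) : (ang S).toReal ≤ 2 * π := by
  have h : ang S ≤ ENNReal.ofReal (2 * π) := by
    rw [← ang_univ_basic]; exact measure_mono (subset_univ S)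
  have := ENNReal.toReal_mono ENNReal.ofReal_ne_top h
  rwa [ENNReal.toReal_ofReal (by positivity)] at this

theorem ball_sub (P : Pack ι) (i : ι) : ball (P.c i) (P.r i) ⊆ closedBall 0 P.R := by
  intro x hx
  rw [mem_ball, Complex.dist_eq] at hx
  rw [mem_closedBall, dist_zero_right]
  have h := norm_add_le (x - P.c i) (P.c i)
  rw [sub_add_cancel] at h
  have := P.sub i
  linarith

theorem ball_disj (P : Pack ι) :
    Pairwise (fun i j => Disjoint (ball (P.c i) (P.r i)) (ball (P.c j) (P.r j))) := by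
  intro i j hij
  exact ball_disjoint_ball (P.dj i j hij)

theorem volume_ball_complex (c : ℂ) {r : ℝ} (hr : 0 ≤ r) :
    volume (ball c r) = ENNReal.ofReal (π * r ^ 2) := by
  rw [Complex.volume_ball, ENNReal.ofReal_mul Real.pi_pos.le, mul_comm, ENNReal.ofReal_pow hr]
  congr 1
  rw [← ENNReal.ofReal_coe_nnreal]; rfl

theorem tsum_volume_le [Countable ι] (P : Pack ι) :
    ∑' i, volume (ball (P.c i) (P.r i)) ≤ volume (closedBall (0 : ℂ) P.R) := by
  rw [← measure_iUnion (ball_disj P) (fun i => measurableSet_ball)]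
  exact measure_mono (iUnion_subset fun i => ball_sub P i)

theorem summable_sq [Countable ι] (P : Pack ι) : Summable (fun i => P.r i ^ 2) := by
  have h1 : ∑' i, volume (ball (P.c i) (P.r i)) ≠ ⊤ :=
    (lt_of_le_of_lt (tsum_volume_le P) measure_closedBall_lt_top).ne
  have h2 : Summable fun i => (volume (ball (P.c i) (P.r i))).toReal := ENNReal.summable_toReal h1
  have h3 : (fun i => (volume (ball (P.c i) (P.r i))).toReal) = fun i => π * P.r i ^ 2 := by
    funext i
    rw [volume_ball_complex _ (P.rpos i).le, ENNReal.toReal_ofReal (by positivity)]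
  rw [h3] at h2
  exact (summable_mul_left_iff Real.pi_ne_zero).1 h2

theorem finite_big [Countable ι] (P : Pack ι) {ε : ℝ} (hε : 0 < ε) : {i | ε < P.r i}.Finite := by
  have h := (summable_sq P).tendsto_cofinite_zero
  have h2 : ∀ᶠ i in Filter.cofinite, P.r i ^ 2 < ε ^ 2 :=
    h.eventually (gt_mem_nhds (by positivity))
  refine (Filter.eventually_cofinite.1 h2).subset ?_
  intro i hi
  simp only [mem_setOf_eq, not_lt] at hi ⊢
  nlinarith [P.rpos i]

theorem norm_pt_le (P : Pack ι) (i : ι) {ρ : ℝ} (hρ : 0 ≤ ρ) (θ : ℝ) :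
    ‖P.pt i ρ θ‖ ≤ ‖P.c i‖ + ρ := by
  have h := dist_pt_center P i hρ θ
  rw [Complex.dist_eq] at h
  have h2 := norm_add_le (P.pt i ρ θ - P.c i) (P.c i)
  rw [sub_add_cancel] at h2
  linarith

theorem pt_mem_res (P : Pack ι) (i : ι) (θ : ℝ) : P.pt i (P.r i) θ ∈ P.res := by
  refine ⟨?_, ?_⟩
  · rw [mem_closedBall, dist_zero_right]
    exact (norm_pt_le P i (P.rpos i).le θ).trans (P.sub i)
  · rw [mem_iUnion]
    rintro ⟨j, hj⟩
    rw [mem_ball] at hj
    have hd := dist_pt_center P i (P.rpos i).le θ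
    by_cases hij : i = j
    · subst hij; linarith
    · have := P.dj i j hij
      have h2 := dist_triangle_left (P.c i) (P.c j) (P.pt i (P.r i) θ)
      linarith

theorem isCompact_res (P : Pack ι) : IsCompact P.res := by
  have hc : IsClosed P.res := isClosed_closedBall.sdiff (isOpen_iUnion fun i => isOpen_ball)
  exact (isCompact_closedBall (0 : ℂ) P.R).of_isClosed_subset hc sdiff_subset

theorem mass_nonneg (P : Pack ι) (K : Finset (ℂ × ℝ)) (i : ι) : 0 ≤ mass P K i := by
  unfold mass
  split_ifs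
  · exact le_rfl
  · exact ENNReal.toReal_nonneg

theorem mass_le (P : Pack ι) (K : Finset (ℂ × ℝ)) (i : ι) : mass P K i ≤ 2 * π := by
  unfold mass
  split_ifs
  · positivity
  · exact ang_toReal_le _

theorem mass_of_not_dead {P : Pack ι} {K : Finset (ℂ × ℝ)} {i : ι} (h : ¬ dead P K i) :
    mass P K i = (ang (aliveSet P K i)).toReal := by
  unfold mass; rw [if_neg h]

theorem mass_of_dead {P : Pack ι} {K : Finset (ℂ × ℝ)} {i : ι} (h : dead P K i) :
    mass P K i = 0 := by
  unfold mass; rw [if_pos h]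

theorem mass_empty (P : Pack ι) (i : ι) : mass P ∅ i = 2 * π := by
  have h : ¬ dead P ∅ i := by
    rintro ⟨k, hk, _⟩; simp at hk
  rw [mass_of_not_dead h]
  have : aliveSet P ∅ i = univ := by
    ext θ; simp [aliveSet]
  rw [this, ang_univ_basic, ENNReal.toReal_ofReal (by positivity)]

theorem mass_eq_zero_of_cover (P : Pack ι) (K : Finset (ℂ × ℝ))
    (h : P.res ⊆ ⋃ k ∈ K, ball k.1 k.2) (i : ι) : mass P K i = 0 := by
  by_cases hd : dead P K i
  · exact mass_of_dead hd
  · rw [mass_of_not_dead hd]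
    have : aliveSet P K i = ∅ := by
      ext θ
      simp only [mem_empty_iff_false, iff_false]
      intro hθ
      have := h (pt_mem_res P i θ)
      simp only [mem_iUnion, exists_prop] at this
      obtain ⟨k, hk, hk2⟩ := this
      exact hθ k hk hk2
    rw [this]; simp

theorem hh_nonneg {r ε : ℝ} (hr : 0 ≤ r) (hε : 0 ≤ ε) : 0 ≤ hh r ε := by
  unfold hh
  have h1 : 0 ≤ max (r - ε) 0 := le_max_right _ _
  have h2 : max (r - ε) 0 ≤ r := max_le (by linarith) hr
  nlinarith

theorem hh_le {r ε : ℝ} : hh r ε ≤ r ^ 2 / 2 := by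
  unfold hh
  nlinarith [sq_nonneg (max (r - ε) 0)]

theorem summable_QQ [Countable ι] (P : Pack ι) (K : Finset (ℂ × ℝ)) {ε : ℝ} (hε : 0 ≤ ε) :
    Summable (fun i => mass P K i * hh (P.r i) ε) := by
  refine Summable.of_nonneg_of_le (fun i => mul_nonneg (mass_nonneg P K i)
    (hh_nonneg (P.rpos i).le hε)) (fun i => ?_) ((summable_sq P).mul_left π)
  calc mass P K i * hh (P.r i) ε ≤ (2 * π) * (P.r i ^ 2 / 2) := by
        apply mul_le_mul (mass_le P K i) hh_le (hh_nonneg (P.rpos i).le hε) (by positivity)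
    _ = π * P.r i ^ 2 := by ring

end DiskDim
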