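import Mathlib
import Pool.Agent.DiskDim.Defs
import Pool.Agent.DiskDim.Geo

/-! # DD/Polar: polar coordinates -/

open MeasureTheory Set Metric Real
open scoped ENNReal NNReal

namespace DiskDim

variable {ι : Type}

/-- polar coordinates about `c` -/
theorem lintegral_polar (c : ℂ) (g : ℂ → ℝ≥0∞) (hg : Measurable g) :
    ∫⁻ x, g x = ∫⁻ ρ in Ioi (0 : ℝ), ENNReal.ofReal ρ * ∫⁻ θ, g (c + (ρ : ℂ) * e θ) ∂ang := by
  have h1 : ∫⁻ x, g x = ∫⁻ x, g (c + x) := (lintegral_add_left_eq_self g c).symm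
  rw [h1, ← Complex.lintegral_comp_polarCoord_symm]
  have hm : Measurable (fun p : ℝ × ℝ => ENNReal.ofReal p.1 * g (c + (p.1 : ℂ) * e p.2)) := by
    refine (ENNReal.measurable_ofReal.comp measurable_fst).mul (hg.comp ?_)
    have : Continuous (fun p : ℝ × ℝ => c + (p.1 : ℂ) * e p.2) :=
      continuous_const.add ((Complex.continuous_ofReal.comp continuous_fst).mul
        (continuous_e.comp continuous_snd))
    exact this.measurable
  have h2 : (∫⁻ p in polarCoord.target,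
      ENNReal.ofReal p.1 • g (c + Complex.polarCoord.symm p)) =
      ∫⁻ p in polarCoord.target, ENNReal.ofReal p.1 * g (c + (p.1 : ℂ) * e p.2) := by
    refine lintegral_congr fun p => ?_
    rw [smul_eq_mul, Complex.polarCoord_symm_apply, e_eq]
  rw [h2]
  have h3 : polarCoord.target = Ioi (0 : ℝ) ×ˢ Ioo (-π) π := rfl
  rw [h3, Measure.volume_eq_prod, ← Measure.prod_restrict, lintegral_prod _ hm.aemeasurable]
  refine lintegral_congr fun ρ => ?_
  have h4 : (ang : Measure ℝ) = volume.restrict (Ioo (-π) π) := by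
    unfold ang
    exact (Measure.restrict_congr_set Ioo_ae_eq_Ioc).symm
  rw [h4]
  have h5 : Measurable fun θ : ℝ => g (c + (ρ : ℂ) * e θ) :=
    hg.comp (continuous_const.add (continuous_const.mul continuous_e)).measurable
  have h6 := lintegral_const_mul (μ := volume.restrict (Ioo (-π) π)) (ENNReal.ofReal ρ) h5
  exact h6

/-- sectors of annuli -/
def sector (c : ℂ) (a b : ℝ) (M : Set ℝ) : Set ℂ :=
  {x : ℂ | ∃ ρ θ : ℝ, a < ρ ∧ ρ < b ∧ θ ∈ Ioc (-π) π ∧ θ ∈ M ∧ x = c + (ρ : ℂ) * e θ}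

theorem arg_mul_e {ρ θ : ℝ} (hρ : 0 < ρ) (hθ : θ ∈ Ioc (-π) π) : Complex.arg ((ρ : ℂ) * e θ) = θ := by
  rw [e_eq, Complex.ofReal_cos, Complex.ofReal_sin]
  exact Complex.arg_mul_cos_add_sin_mul_I hρ hθ

theorem norm_mul_e {ρ : ℝ} (θ : ℝ) (hρ : 0 ≤ ρ) : ‖(ρ : ℂ) * e θ‖ = ρ := by
  rw [norm_mul, norm_e, mul_one, Complex.norm_real, Real.norm_of_nonneg hρ]

theorem eq_mul_e (z : ℂ) : z = (‖z‖ : ℂ) * e (Complex.arg z) := by
  apply Complex.ext
  · simp [e, Complex.norm_mul_cos_arg]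
  · simp [e, Complex.norm_mul_sin_arg]

theorem sector_eq (c : ℂ) {a b : ℝ} (ha : 0 ≤ a) (M : Set ℝ) :
    sector c a b M = {x : ℂ | a < ‖x - c‖ ∧ ‖x - c‖ < b ∧ Complex.arg (x - c) ∈ M} := by
  ext x
  constructor
  · rintro ⟨ρ, θ, h1, h2, h3, h4, rfl⟩
    have hρ : 0 < ρ := lt_of_le_of_lt ha h1
    rw [mem_ofPred_eq, add_sub_cancel_left, norm_mul_e θ hρ.le, arg_mul_e hρ h3]
    exact ⟨h1, h2, h4⟩
  · rintro ⟨h1, h2, h3⟩
    refine ⟨‖x - c‖, Complex.arg (x - c), h1, h2, Complex.arg_mem_Ioc _, h3, ?_⟩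
    have := eq_mul_e (x - c)
    linear_combination this

theorem measurableSet_sector (c : ℂ) {a b : ℝ} (ha : 0 ≤ a) (M : Set ℝ) (hM : MeasurableSet M) :
    MeasurableSet (sector c a b M) := by
  rw [sector_eq c ha]
  have hn : Measurable fun x : ℂ => ‖x - c‖ := (continuous_id.sub continuous_const).norm.measurable
  have ha' : Measurable fun x : ℂ => Complex.arg (x - c) :=
    Complex.measurable_arg.comp (measurable_id.sub_const c)
  exact (measurableSet_lt measurable_const hn).inter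
    ((measurableSet_lt hn measurable_const).inter (ha' hM))

theorem volume_sector (c : ℂ) {a b : ℝ} (ha : 0 ≤ a) (hab : a ≤ b) (M : Set ℝ)
    (hM : MeasurableSet M) :
    volume (sector c a b M) = ang M * ENNReal.ofReal ((b ^ 2 - a ^ 2) / 2) := by
  have hS := measurableSet_sector c (b := b) ha M hM
  rw [← lintegral_indicator_one hS, lintegral_polar c _ (measurable_one.indicator hS)]
  have h1 : ∀ ρ ∈ Ioi (0 : ℝ), ENNReal.ofReal ρ *
      ∫⁻ θ, (sector c a b M).indicator 1 (c + (ρ : ℂ) * e θ) ∂ang =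
      (Ioo a b).indicator (fun ρ => ENNReal.ofReal ρ * ang M) ρ := by
    intro ρ hρ
    have hρ' : (0 : ℝ) < ρ := hρ
    have h2 : ∀ θ ∈ Ioc (-π) π, (sector c a b M).indicator (1 : ℂ → ℝ≥0∞) (c + (ρ : ℂ) * e θ) =
        (Ioo a b).indicator (1 : ℝ → ℝ≥0∞) ρ * M.indicator 1 θ := by
      intro θ hθ
      have hiff : c + (ρ : ℂ) * e θ ∈ sector c a b M ↔ ρ ∈ Ioo a b ∧ θ ∈ M := by
        rw [sector_eq c ha, mem_ofPred_eq, add_sub_cancel_left, norm_mul_e θ hρ'.le,
          arg_mul_e hρ' hθ, mem_Ioo, and_assoc]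
      by_cases h3 : ρ ∈ Ioo a b <;> by_cases h5 : θ ∈ M <;>
        simp [hiff, h3, h5]
    have h3 : ∫⁻ θ, (sector c a b M).indicator 1 (c + (ρ : ℂ) * e θ) ∂ang =
        (Ioo a b).indicator (1 : ℝ → ℝ≥0∞) ρ * ang M := by
      have h4 : ∫⁻ θ, (sector c a b M).indicator 1 (c + (ρ : ℂ) * e θ) ∂ang =
          ∫⁻ θ, (Ioo a b).indicator (1 : ℝ → ℝ≥0∞) ρ * M.indicator 1 θ ∂ang :=
        setLIntegral_congr_fun measurableSet_Ioc h2
      rw [h4, lintegral_const_mul _ (measurable_one.indicator hM), lintegral_indicator_one hM]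
    rw [h3]
    by_cases h4 : ρ ∈ Ioo a b
    · rw [indicator_of_mem h4, indicator_of_mem h4, Pi.one_apply, one_mul]
    · rw [indicator_of_notMem h4, indicator_of_notMem h4, zero_mul, mul_zero]
  rw [setLIntegral_congr_fun measurableSet_Ioi h1, lintegral_indicator measurableSet_Ioo,
    Measure.restrict_restrict measurableSet_Ioo]
  have h5 : Ioo a b ∩ Ioi (0 : ℝ) = Ioo a b := by
    apply inter_eq_left.2
    intro x hx
    exact lt_of_le_of_lt ha hx.1
  rw [h5, lintegral_mul_const _ ENNReal.measurable_ofReal, mul_comm]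
  congr 1
  have h6 : ∫⁻ ρ in Ioo a b, ENNReal.ofReal ρ = ENNReal.ofReal (∫ ρ in Ioo a b, ρ) := by
    rw [ofReal_integral_eq_lintegral_ofReal]
    · exact (continuous_id.integrableOn_Icc).mono_set Ioo_subset_Icc_self
    · refine (ae_restrict_iff' measurableSet_Ioo).2 (Filter.Eventually.of_forall fun x hx => ?_)
      exact ha.trans hx.1.le
  rw [h6]
  congr 1
  rw [← integral_Ioc_eq_integral_Ioo, ← intervalIntegral.integral_of_le hab, integral_id]

end DiskDim
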