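import Mathlib
import Pool.Agent.DiskDim.Defs

/-! # DD/Prof: the profile -/

open MeasureTheory Set Metric Real
open scoped ENNReal NNReal

namespace DiskDim

set_option linter.unusedVariables false in
theorem prof_mul_le {r s : ℝ} (hr : 5 / 2 < r) (hs : 0 ≤ s) (hs1 : s ≤ 1) :
    prof r s * (r + lam r * s) ≤ √s * (r + lam r * (1 + s) / 2) := by
  have hr0 : 0 < r := by linarith
  have hV : 0 < r ^ 2 + r - 2 := by nlinarith
  have hW : 0 < r ^ 2 + (r - 2) * s := by
    have : 0 ≤ (r - 2) * s := mul_nonneg (by linarith) hs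
    positivity
  have e1 : r + lam r * s = (r ^ 2 + (r - 2) * s) / r := by
    unfold lam; field_simp
  have e2 : r + lam r * (1 + s) / 2 = (r ^ 2 + r - 2 + (r ^ 2 + (r - 2) * s)) / (2 * r) := by
    unfold lam; field_simp; ring
  rw [e1, e2, prof]
  set V := r ^ 2 + r - 2 with hVd
  set W := r ^ 2 + (r - 2) * s with hWd
  have h1 : 0 ≤ √(V * s / W) * (W / r) := by positivity
  have h2 : 0 ≤ √s * ((V + W) / (2 * r)) := by positivity
  rw [← pow_le_pow_iff_left₀ h1 h2 two_ne_zero, mul_pow, mul_pow, Real.sq_sqrt (by positivity),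
    Real.sq_sqrt hs]
  have e3 : V * s / W * (W / r) ^ 2 = s * (V * W / r ^ 2) := by
    field_simp
  rw [e3]
  apply mul_le_mul_of_nonneg_left _ hs
  rw [div_pow, div_le_div_iff₀ (by positivity) (by positivity)]
  nlinarith [mul_nonneg (sq_nonneg (V - W)) (sq_nonneg r)]

theorem integral_sqrt_one : ∫ s in (0 : ℝ)..1, √s = 2 / 3 := by
  have h : ∫ s in (0 : ℝ)..1, √s = ∫ s in (0 : ℝ)..1, s ^ (1 / 2 : ℝ) :=
    intervalIntegral.integral_congr fun s _ => Real.sqrt_eq_rpow s
  rw [h, integral_rpow (Or.inl (by norm_num))]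
  norm_num

theorem integral_mul_sqrt_one : ∫ s in (0 : ℝ)..1, s * √s = 2 / 5 := by
  have h : ∫ s in (0 : ℝ)..1, s * √s = ∫ s in (0 : ℝ)..1, s ^ (3 / 2 : ℝ) := by
    refine intervalIntegral.integral_congr fun s hs => ?_
    rw [Set.uIcc_of_le zero_le_one] at hs
    show s * √s = s ^ (3 / 2 : ℝ)
    rw [Real.sqrt_eq_rpow]
    nth_rewrite 1 [← Real.rpow_one s]
    rw [← Real.rpow_add_of_nonneg hs.1 (by norm_num) (by norm_num)]
    norm_num
  rw [h, integral_rpow (Or.inl (by norm_num))]
  norm_num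

theorem prof_continuous {r : ℝ} (hr : 5 / 2 < r) :
    ContinuousOn (fun s => prof r s) (Set.uIcc (0 : ℝ) 1) := by
  unfold prof
  refine Real.continuous_sqrt.comp_continuousOn (g := fun x => √x)
    (f := fun s => (r ^ 2 + r - 2) * s / (r ^ 2 + (r - 2) * s)) ?_
  refine ContinuousOn.div (by fun_prop) (by fun_prop) ?_
  intro s hs
  rw [Set.uIcc_of_le zero_le_one] at hs
  have : 0 ≤ (r - 2) * s := mul_nonneg (by linarith) hs.1
  positivity

theorem prof_integral {r : ℝ} (hr : 5 / 2 < r) :
    r / 3 - 5 / 6 ≤ ∫ s in (0 : ℝ)..1, (1 - prof r s) * ((r + lam r * s) * lam r) := by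
  have hr0 : 0 < r := by linarith
  have hl0 : 0 ≤ lam r := by
    unfold lam; apply div_nonneg <;> linarith
  have hl1 : lam r ≤ 1 := by
    unfold lam; rw [div_le_one hr0]; linarith
  have hrl : r * lam r = r - 2 := by
    unfold lam; field_simp
  set l := lam r with hl
  have hmono : ∫ s in (0 : ℝ)..1, l * ((r + l * s) - √s * (r + l * (1 + s) / 2)) ≤
      ∫ s in (0 : ℝ)..1, (1 - prof r s) * ((r + l * s) * l) := by
    refine intervalIntegral.integral_mono_on zero_le_one ?_ ?_ ?_
    · apply Continuous.intervalIntegrable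
      fun_prop
    · apply ContinuousOn.intervalIntegrable
      have := prof_continuous hr
      fun_prop
    · intro s hs
      have h := prof_mul_le hr hs.1 hs.2
      rw [← hl] at h
      nlinarith
  refine le_trans ?_ hmono
  have e1 : (fun s : ℝ => l * ((r + l * s) - √s * (r + l * (1 + s) / 2))) =
      fun s : ℝ => (l * r + l ^ 2 * s) - (l * (r + l / 2)) * √s - (l ^ 2 / 2) * (s * √s) := by
    funext s; ring
  rw [e1]
  have i1 : IntervalIntegrable (fun s : ℝ => l * r + l ^ 2 * s) volume 0 1 :=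
    Continuous.intervalIntegrable (by fun_prop) _ _
  have i2 : IntervalIntegrable (fun s : ℝ => (l * (r + l / 2)) * √s) volume 0 1 :=
    Continuous.intervalIntegrable (by fun_prop) _ _
  have i3 : IntervalIntegrable (fun s : ℝ => (l ^ 2 / 2) * (s * √s)) volume 0 1 :=
    Continuous.intervalIntegrable (by fun_prop) _ _
  have i4 : IntervalIntegrable (fun s : ℝ => l ^ 2 * s) volume 0 1 :=
    Continuous.intervalIntegrable (by fun_prop) _ _
  have i5 : ∫ s in (0 : ℝ)..1, (l * r + l ^ 2 * s) = l * r + l ^ 2 * ((1 ^ 2 - 0 ^ 2) / 2) := by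
    rw [intervalIntegral.integral_add intervalIntegrable_const i4,
      intervalIntegral.integral_const_mul (l ^ 2) (fun s : ℝ => s), integral_id,
      intervalIntegral.integral_const]
    simp
  rw [intervalIntegral.integral_sub (i1.sub i2) i3, intervalIntegral.integral_sub i1 i2,
    intervalIntegral.integral_const_mul, intervalIntegral.integral_const_mul,
    integral_sqrt_one, integral_mul_sqrt_one, i5]
  nlinarith

end DiskDim
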