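import Mathlib
import Pool.Agent.DiskDim.Defs
import Pool.Agent.DiskDim.Geo
import Pool.Agent.DiskDim.Arc

/-! # DD/SliceL: a large blocker -/

open MeasureTheory Set Metric Real
open scoped ENNReal NNReal

namespace DiskDim

variable {ι : Type}

theorem mul_lam {r : ℝ} (hr : 5 / 2 < r) : r * lam r = r - 2 := by
  unfold lam
  have : r ≠ 0 := by linarith
  field_simp

theorem lam_pos {r : ℝ} (hr : 5 / 2 < r) : 0 < lam r := by
  unfold lam; apply div_pos <;> linarith

theorem lam_lt_one {r : ℝ} (hr : 5 / 2 < r) : lam r < 1 := by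
  unfold lam; rw [div_lt_one (by linarith)]; linarith

/-- the geometric comparison, in terms of `A ≤ f² B` -/
theorem compare_arcs {X Y f φ : ℝ} (hX : 0 ≤ X) (hY0 : 0 ≤ Y) (hY : Y ≤ 1) (hf0 : 0 ≤ f)
    (hf1 : f ≤ 1) (h : X ≤ f ^ 2 * Y) :
    (ang (arc φ X)).toReal ≤ f * (ang (arcO φ Y)).toReal := by
  have hX1 : X ≤ 1 := by
    have : f ^ 2 * Y ≤ 1 := by nlinarith [mul_nonneg hf0 hf0]
    linarith
  rw [ang_arc φ hX hX1, ang_arcO φ hY0 hY, ENNReal.toReal_ofReal, ENNReal.toReal_ofReal]
  · have := arcsin_ratio hX hY0 hY hf0 hf1 h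
    linarith
  · have := Real.arcsin_nonneg.2 (Real.sqrt_nonneg Y); positivity
  · have := Real.arcsin_nonneg.2 (Real.sqrt_nonneg X); positivity

/-- the set of directions in which the circle of radius `a` meets a closed disk -/
theorem mem_closed_iff (x : ℂ) {a d b θ φ : ℝ} (ha : 0 < a) (hd : 0 < d) (hb : 0 ≤ b) :
    dist (x + (a : ℂ) * e θ) (x + (d : ℂ) * e φ) ≤ b ↔
      Real.sin ((θ - φ) / 2) ^ 2 ≤ (b ^ 2 - (a - d) ^ 2) / (4 * a * d) := by
  rw [← pow_le_pow_iff_left₀ dist_nonneg hb two_ne_zero, dist_sq, le_div_iff₀ (by positivity)]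
  constructor <;> intro h <;> linarith

theorem mem_open_iff (x : ℂ) {a d b θ φ : ℝ} (ha : 0 < a) (hd : 0 < d) (hb : 0 ≤ b) :
    dist (x + (a : ℂ) * e θ) (x + (d : ℂ) * e φ) < b ↔
      Real.sin ((θ - φ) / 2) ^ 2 < (b ^ 2 - (a - d) ^ 2) / (4 * a * d) := by
  rw [← pow_lt_pow_iff_left₀ dist_nonneg hb two_ne_zero, dist_sq, lt_div_iff₀ (by positivity)]
  constructor <;> intro h <;> linarith

theorem slice_large (P : Pack ι) (i j : ι) (hij : j ≠ i) (hi : 5 / 2 < P.r i)
    (hj : 5 / 2 < P.r j) {s : ℝ} (hs0 : 0 < s) (hs1 : s ≤ 1) :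
    (ang (blk P i j s)).toReal ≤ prof (P.r i) s * (ang (own P i j)).toReal := by
  obtain ⟨φ, hφ⟩ := exists_dir (P.c i) (P.c j)
  have hdj := P.dj i j (Ne.symm hij)
  set r := P.r i with hr
  set ρ := P.r j with hρ
  set d := dist (P.c i) (P.c j) with hd
  obtain ⟨h, hh⟩ : ∃ h, d = r + ρ + h := ⟨d - r - ρ, by ring⟩
  have hh0 : 0 ≤ h := by linarith
  have l1 := mul_lam hi
  have l2 := lam_pos hi
  have l3 := lam_lt_one hi
  have m1 := mul_lam hj
  have m2 := lam_pos hj
  have m3 := lam_lt_one hj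
  set li := lam r with hli
  set lj := lam ρ with hlj
  have hdpos : 0 < d := by linarith
  have hrt : 0 < r + li * s := by positivity
  -- the two sets as arcs
  set X := ((ρ + lj * s) ^ 2 - (r + li * s - d) ^ 2) / (4 * (r + li * s) * d) with hX
  set Y := (ρ ^ 2 - (r + 2 - d) ^ 2) / (4 * (r + 2) * d) with hY
  have hblk : blk P i j s = arc φ X := by
    unfold blk
    rw [if_pos hj]
    ext θ
    simp only [arc, Set.mem_ofPred_eq, Pack.pt]
    rw [hφ]
    exact mem_closed_iff (P.c i) hrt hdpos (by positivity)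
  have hown : own P i j = arcO φ Y := by
    ext θ
    simp only [own, arcO, Set.mem_ofPred_eq, Pack.pt]
    rw [hφ]
    exact mem_open_iff (P.c i) (by positivity) hdpos (by positivity)
  have hN : (ρ + lj * s) ^ 2 - (r + li * s - d) ^ 2 =
      ((li + lj) * s - h) * (2 * ρ + h + (lj - li) * s) := by
    rw [hh]; ring
  have hNT : ρ ^ 2 - (r + 2 - d) ^ 2 = (2 - h) * (2 * ρ - 2 + h) := by
    rw [hh]; ring
  have hfac : 0 < 2 * ρ + h + (lj - li) * s := by nlinarith
  rw [hblk, hown]
  by_cases hcase : (li + lj) * s < h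
  · have hXneg : X < 0 := by
      rw [hX, hN]
      apply div_neg_of_neg_of_pos
      · exact mul_neg_of_neg_of_pos (by linarith) hfac
      · positivity
    have hempty : arc φ X = ∅ := by
      ext θ
      simp only [arc, Set.mem_ofPred_eq, Set.mem_empty_iff_false, iff_false, not_le]
      exact lt_of_lt_of_le hXneg (sq_nonneg _)
    rw [hempty, measure_empty, ENNReal.toReal_zero]
    exact mul_nonneg (prof_nonneg _ _) ENNReal.toReal_nonneg
  · push Not at hcase
    have hAs : (li + lj) * s ≤ 2 := by nlinarith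
    have hh2 : h ≤ 2 := by linarith
    have hX0 : 0 ≤ X := by
      rw [hX, hN]
      apply div_nonneg
      · exact mul_nonneg (by linarith) hfac.le
      · positivity
    have hY0 : 0 ≤ Y := by
      rw [hY, hNT]
      apply div_nonneg
      · exact mul_nonneg (by linarith) (by linarith)
      · positivity
    have hY1 : Y ≤ 1 := by
      rw [hY, hNT, div_le_one (by positivity), hh]
      nlinarith
    have key : ((li + lj) * s - h) * (2 * ρ + h + (lj - li) * s) * r ≤
        s * (r - 1) * ((2 - h) * (2 * ρ - 2 + h)) := by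
      have k1 : (li + lj) * s - h ≤ (li + lj) * (s / 2) * (2 - h) := by nlinarith
      have k2 : (2 * ρ + h + (lj - li) * s) * (2 * ρ - 2) ≤
          (2 * ρ + (lj - li) * s) * (2 * ρ - 2 + h) := by
        have : 0 ≤ (lj - li) * s + 2 := by nlinarith
        nlinarith
      have k3 : r * ((li + lj) * (2 * ρ + (lj - li) * s)) ≤ 4 * (r - 1) * (ρ - 1) := by
        have k4 : (lj ^ 2 - li ^ 2) * s ≤ 1 - li ^ 2 := by
          have a1 : 0 ≤ (1 - lj ^ 2) * s := mul_nonneg (by nlinarith) hs0.le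
          have a2 : 0 ≤ (1 - li ^ 2) * (1 - s) := mul_nonneg (by nlinarith) (by linarith)
          nlinarith
        have k5 : r * (1 - li ^ 2) ≤ 4 := by
          have : r * (1 - li ^ 2) = (r - r * li) * (1 + li) := by ring
          rw [this, l1]
          linarith
        have k6 : r * ((lj ^ 2 - li ^ 2) * s) ≤ 4 := by
          refine le_trans (mul_le_mul_of_nonneg_left k4 (by positivity)) k5
        have k7 : r * ((li + lj) * (2 * ρ + (lj - li) * s)) =
            2 * ρ * (r * li) + 2 * r * (ρ * lj) + r * ((lj ^ 2 - li ^ 2) * s) := by ring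
        rw [k7, l1, m1]
        nlinarith
      have hρ1 : 0 < 2 * ρ - 2 := by linarith
      have b1 : 0 ≤ (li + lj) * (s / 2) * (2 - h) := by
        have : 0 ≤ 2 - h := by linarith
        positivity
      have k8 : ((li + lj) * s - h) * ((2 * ρ + h + (lj - li) * s) * (2 * ρ - 2)) ≤
          ((li + lj) * (s / 2) * (2 - h)) * ((2 * ρ + (lj - li) * s) * (2 * ρ - 2 + h)) :=
        mul_le_mul k1 k2 (by positivity) b1
      have k9 : 0 ≤ (s / 2) * ((2 - h) * (2 * ρ - 2 + h)) := by
        have : 0 ≤ 2 - h := by linarith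
        have : 0 ≤ 2 * ρ - 2 + h := by linarith
        positivity
      have k10 := mul_le_mul_of_nonneg_right k3 k9
      have k11 : ((li + lj) * s - h) * (2 * ρ + h + (lj - li) * s) * r * (2 * ρ - 2) ≤
          s * (r - 1) * ((2 - h) * (2 * ρ - 2 + h)) * (2 * ρ - 2) := by
        have k12 := mul_le_mul_of_nonneg_left k8 (by positivity : 0 ≤ r)
        calc ((li + lj) * s - h) * (2 * ρ + h + (lj - li) * s) * r * (2 * ρ - 2)
            = r * (((li + lj) * s - h) * ((2 * ρ + h + (lj - li) * s) * (2 * ρ - 2))) := by ring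
          _ ≤ r * (((li + lj) * (s / 2) * (2 - h)) *
              ((2 * ρ + (lj - li) * s) * (2 * ρ - 2 + h))) := k12
          _ = r * ((li + lj) * (2 * ρ + (lj - li) * s)) *
              ((s / 2) * ((2 - h) * (2 * ρ - 2 + h))) := by ring
          _ ≤ 4 * (r - 1) * (ρ - 1) * ((s / 2) * ((2 - h) * (2 * ρ - 2 + h))) := k10
          _ = _ := by ring
      exact le_of_mul_le_mul_right k11 hρ1
    refine compare_arcs hX0 hY0 hY1 (prof_nonneg _ _) (prof_le_one hi hs0.le hs1) ?_
    rw [prof_sq hi hs0.le, hX, hY, hN, hNT]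
    have e1 : r ^ 2 + (r - 2) * s = r * (r + li * s) := by
      rw [← l1]; ring
    rw [e1]
    have hr0 : 0 < r := by linarith
    rw [div_mul_div_comm, div_le_div_iff₀ (by positivity) (by positivity)]
    have e2 : r ^ 2 + r - 2 = (r - 1) * (r + 2) := by ring
    rw [e2]
    have hc : 0 ≤ (r + li * s) * (4 * (r + 2) * d) := by positivity
    have := mul_le_mul_of_nonneg_right key hc
    refine le_trans (le_of_eq ?_) (this.trans (le_of_eq ?_)) <;> ring

end DiskDim
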