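import Mathlib
import Pool.Agent.DiskDim.Defs
import Pool.Agent.DiskDim.Geo
import Pool.Agent.DiskDim.Arc
import Pool.Agent.DiskDim.SliceL

/-! # DD/SliceE: the exterior of the big disk as a blocker -/

open MeasureTheory Set Metric Real
open scoped ENNReal NNReal

namespace DiskDim

variable {ι : Type}

/-- the comparison of two open arcs -/
theorem compare_arcsO {X Y f φ : ℝ} (hX : 0 ≤ X) (hY0 : 0 ≤ Y) (hY : Y ≤ 1) (hf0 : 0 ≤ f)
    (hf1 : f ≤ 1) (h : X ≤ f ^ 2 * Y) :
    (ang (arcO φ X)).toReal ≤ f * (ang (arcO φ Y)).toReal := by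
  have hX1 : X ≤ 1 := by
    have : f ^ 2 * Y ≤ 1 := by nlinarith [mul_nonneg hf0 hf0]
    linarith
  rw [ang_arcO φ hX hX1, ang_arcO φ hY0 hY, ENNReal.toReal_ofReal, ENNReal.toReal_ofReal]
  · have := arcsin_ratio hX hY0 hY hf0 hf1 h
    linarith
  · have := Real.arcsin_nonneg.2 (Real.sqrt_nonneg Y); positivity
  · have := Real.arcsin_nonneg.2 (Real.sqrt_nonneg X); positivity

/-- the set of directions in which the circle of radius `a` leaves the disk of radius `b` -/
theorem mem_ext_iff (x : ℂ) {a d b θ φ : ℝ} (ha : 0 < a) (hd : 0 < d) (hb : 0 ≤ b) :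
    b < dist (x + (a : ℂ) * e θ) (x + (d : ℂ) * e φ) ↔
      Real.sin ((θ - (φ + π)) / 2) ^ 2 < ((a + d) ^ 2 - b ^ 2) / (4 * a * d) := by
  have h1 : Real.sin ((θ - (φ + π)) / 2) ^ 2 = 1 - Real.sin ((θ - φ) / 2) ^ 2 := by
    have : (θ - (φ + π)) / 2 = (θ - φ) / 2 - π / 2 := by ring
    rw [this, Real.sin_sub_pi_div_two, neg_sq, Real.cos_sq']
  rw [← pow_lt_pow_iff_left₀ hb dist_nonneg two_ne_zero, dist_sq, lt_div_iff₀ (by positivity), h1]
  constructor <;> intro h <;> nlinarith

theorem slice_ext (P : Pack ι) (i : ι) (hi : 5 / 2 < P.r i) (hR : P.r i + 3 ≤ P.R)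
    {s : ℝ} (hs0 : 0 < s) (hs1 : s ≤ 1) :
    (ang (blkExt P i s)).toReal ≤ prof (P.r i) s * (ang (ownExt P i)).toReal := by
  obtain ⟨φ, hφ⟩ := exists_dir (P.c i) 0
  have hsub := P.sub i
  rw [← dist_zero_right (P.c i)] at hsub
  set r := P.r i with hr
  set a := dist (P.c i) 0 with ha
  set R := P.R with hRdef
  obtain ⟨h, hh⟩ : ∃ h, a = R - r - h := ⟨R - r - a, by ring⟩
  have hh0 : 0 ≤ h := by linarith
  have l1 := mul_lam hi
  have l2 := lam_pos hi
  have l3 := lam_lt_one hi
  obtain ⟨t, ht⟩ : ∃ t, t = lam r * s := ⟨_, rfl⟩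
  have ht0 : 0 < t := by rw [ht]; positivity
  have ht1 : t < 1 := by rw [ht]; nlinarith
  have hrt : r * t = (r - 2) * s := by rw [ht, ← l1]; ring
  by_cases hcase : t ≤ h
  · have hempty : blkExt P i s = ∅ := by
      ext θ
      simp only [blkExt, Set.mem_ofPred_eq, Set.mem_empty_iff_false, iff_false, not_lt]
      have h1 : ‖P.pt i (r + lam r * s) θ‖ ≤ ‖P.c i‖ + (r + lam r * s) := by
        unfold Pack.pt
        refine (norm_add_le _ _).trans ?_
        rw [norm_mul, norm_e, mul_one, Complex.norm_real, Real.norm_of_nonneg (by positivity)]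
      rw [← dist_zero_right (P.c i)] at h1
      rw [← ht] at h1
      rw [← hr, ← hRdef, ← ht]
      linarith
    rw [hempty, measure_empty, ENNReal.toReal_zero]
    exact mul_nonneg (prof_nonneg _ _) ENNReal.toReal_nonneg
  · push Not at hcase
    have ha2 : 2 < a := by linarith
    have ha0 : 0 < a := by linarith
    have hR0 : 0 < R := by linarith
    have hr0 : 0 < r := by linarith
    have hrt0 : 0 < r + t := by positivity
    set X := ((r + t + a) ^ 2 - R ^ 2) / (4 * (r + t) * a) with hX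
    set Y := ((r + 2 + a) ^ 2 - R ^ 2) / (4 * (r + 2) * a) with hY
    have hblk : blkExt P i s = arcO (φ + π) X := by
      ext θ
      simp only [blkExt, arcO, Set.mem_ofPred_eq]
      rw [← hr, ← hRdef, ← ht, ← dist_zero_right]
      unfold Pack.pt
      conv_lhs => rw [hφ]
      exact mem_ext_iff (P.c i) hrt0 ha0 hR0.le
    have hown : ownExt P i = arcO (φ + π) Y := by
      ext θ
      simp only [ownExt, arcO, Set.mem_ofPred_eq]
      rw [← hr, ← hRdef, ← dist_zero_right]
      unfold Pack.pt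
      conv_lhs => rw [hφ]
      exact mem_ext_iff (P.c i) (by positivity) ha0 hR0.le
    have hN : (r + t + a) ^ 2 - R ^ 2 = (t - h) * (2 * R + t - h) := by rw [hh]; ring
    have hNT : (r + 2 + a) ^ 2 - R ^ 2 = (2 - h) * (2 * R + 2 - h) := by rw [hh]; ring
    have hX0 : 0 ≤ X := by
      rw [hX, hN]
      apply div_nonneg
      · exact mul_nonneg (by linarith) (by linarith)
      · positivity
    have hY0 : 0 ≤ Y := by
      rw [hY, hNT]
      apply div_nonneg
      · exact mul_nonneg (by linarith) (by linarith)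
      · positivity
    have hY1 : Y ≤ 1 := by
      rw [hY, hNT, div_le_one (by positivity)]
      have b1 : (2 - h) * (2 * R + 2 - h) ≤ 2 * (2 * R + 2) :=
        mul_le_mul (by linarith) (by linarith) (by linarith) (by norm_num)
      have b2 : R - r - 1 ≤ a := by linarith
      have b3 : 4 * (r + 2) * (R - r - 1) ≤ 4 * (r + 2) * a :=
        mul_le_mul_of_nonneg_left b2 (by positivity)
      nlinarith [mul_nonneg (show (0 : ℝ) ≤ r - 5 / 2 by linarith) (show (0 : ℝ) ≤ R - r - 3 by linarith)]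
    have key : (t - h) * (2 * R + t - h) * r ≤ s * (r - 1) * ((2 - h) * (2 * R + 2 - h)) := by
      have k1 : t - h ≤ t / 2 * (2 - h) := by nlinarith
      have k2 : (t - h) * (2 * R + t - h) ≤ (t / 2 * (2 - h)) * (2 * R + 2 - h) :=
        mul_le_mul k1 (by linarith) (by linarith)
          (mul_nonneg (by positivity) (by linarith))
      have k3 := mul_le_mul_of_nonneg_right k2 hr0.le
      have k4 : 0 ≤ (2 - h) * (2 * R + 2 - h) := mul_nonneg (by linarith) (by linarith)
      have k5 : (r - 2) * s / 2 ≤ s * (r - 1) := by nlinarith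
      calc (t - h) * (2 * R + t - h) * r ≤ (t / 2 * (2 - h)) * (2 * R + 2 - h) * r := k3
        _ = (r * t / 2) * ((2 - h) * (2 * R + 2 - h)) := by ring
        _ = ((r - 2) * s / 2) * ((2 - h) * (2 * R + 2 - h)) := by rw [hrt]
        _ ≤ _ := mul_le_mul_of_nonneg_right k5 k4
    rw [hblk, hown]
    refine compare_arcsO hX0 hY0 hY1 (prof_nonneg _ _) (prof_le_one hi hs0.le hs1) ?_
    rw [prof_sq hi hs0.le, hX, hY, hN, hNT]
    have e1 : r ^ 2 + (r - 2) * s = r * (r + t) := by
      rw [← hrt]; ring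
    rw [e1]
    rw [div_mul_div_comm, div_le_div_iff₀ (by positivity) (by positivity)]
    have e2 : r ^ 2 + r - 2 = (r - 1) * (r + 2) := by ring
    rw [e2]
    have hc : 0 ≤ (r + t) * (4 * (r + 2) * a) := by positivity
    have := mul_le_mul_of_nonneg_right key hc
    refine le_trans (le_of_eq ?_) (this.trans (le_of_eq ?_)) <;> ring

end DiskDim
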