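import Mathlib
import Pool.Agent.DiskDim.Defs
import Pool.Agent.DiskDim.SliceL

/-! # DD/SliceS: a small blocker -/

open MeasureTheory Set Metric Real
open scoped ENNReal NNReal

namespace DiskDim

variable {ι : Type}

theorem compare_arcs_w {X Y f w c2 φ : ℝ} (hX : 0 ≤ X) (hX1 : X ≤ 1 / 25) (hY0 : 0 ≤ Y)
    (hY : Y ≤ 1) (hf0 : 0 ≤ f) (hw : 0 ≤ w) (hc : 0 ≤ c2) (hwc : w ^ 2 * c2 ≤ 9 / 10)
    (h : X ≤ f ^ 2 * c2 * Y) :
    w * (ang (arcO φ X)).toReal ≤ f * (ang (arcO φ Y)).toReal := by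
  rw [ang_arcO φ hX (by linarith), ang_arcO φ hY0 hY, ENNReal.toReal_ofReal,
    ENNReal.toReal_ofReal]
  · have := arcsin_ratio_w hX hX1 hY0 hY hf0 hw hc hwc h
    linarith
  · have := Real.arcsin_nonneg.2 (Real.sqrt_nonneg Y); positivity
  · have := Real.arcsin_nonneg.2 (Real.sqrt_nonneg X); positivity

theorem wt_bound {ρ : ℝ} (h1 : 1 < ρ) (h2 : ρ ≤ 5 / 2) :
    wt ρ ^ 2 * (ρ / (2 * (ρ - 1))) ≤ 9 / 10 := by
  have h0 : 0 < ρ - 1 := by linarith
  have e : wt ρ ^ 2 * (ρ / (2 * (ρ - 1))) = (3 * ρ + 5) ^ 2 * (ρ - 1) / (18 * ρ ^ 3) := by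
    unfold wt
    field_simp
    ring
  rw [e, div_le_iff₀ (by positivity)]
  nlinarith [mul_nonneg (sub_nonneg.2 h1.le) (sq_nonneg (ρ - 9 / 5)), sq_nonneg (ρ - 9 / 5)]

theorem slice_small (P : Pack ι) (i j : ι) (hij : j ≠ i) (hi : 5 / 2 < P.r i)
    (hj1 : 1 < P.r j) (hj : P.r j ≤ 5 / 2) {s : ℝ} (hs0 : 0 < s) (hs1 : s ≤ 1) :
    wt (P.r j) * (ang (blk P i j s)).toReal ≤ prof (P.r i) s * (ang (own P i j)).toReal := by
  obtain ⟨φ, hφ⟩ := exists_dir (P.c i) (P.c j)
  have hdj := P.dj i j (Ne.symm hij)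
  set r := P.r i with hr
  set ρ := P.r j with hρ
  set d := dist (P.c i) (P.c j) with hd
  obtain ⟨h, hh⟩ : ∃ h, d = r + ρ + h := ⟨d - r - ρ, by ring⟩
  have hh0 : 0 ≤ h := by linarith
  have l1 := mul_lam hi
  have l2 := lam_pos hi
  have l3 := lam_lt_one hi
  set li := lam r with hli
  have hdpos : 0 < d := by linarith
  have hr0 : 0 < r := by linarith
  set t := li * s with ht
  have ht0 : 0 < t := by positivity
  have ht1 : t < 1 := by nlinarith
  have hrt : 0 < r + t := by positivity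
  have hw : 0 ≤ wt ρ := by
    unfold wt
    have : 0 ≤ ρ - 1 := by linarith
    positivity
  -- the two sets as arcs
  set X := (ρ ^ 2 - (r + t - d) ^ 2) / (4 * (r + t) * d) with hX
  set Y := (ρ ^ 2 - (r + 2 - d) ^ 2) / (4 * (r + 2) * d) with hY
  have hblk : blk P i j s = arcO φ X := by
    unfold blk
    rw [if_neg (not_lt.2 hj)]
    ext θ
    simp only [arcO, Set.mem_ofPred_eq, Pack.pt]
    rw [hφ]
    exact mem_open_iff (P.c i) hrt hdpos (by positivity)
  have hown : own P i j = arcO φ Y := by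
    ext θ
    simp only [own, arcO, Set.mem_ofPred_eq, Pack.pt]
    rw [hφ]
    exact mem_open_iff (P.c i) (by positivity) hdpos (by positivity)
  have hN : ρ ^ 2 - (r + t - d) ^ 2 = (t - h) * (2 * ρ - t + h) := by
    rw [hh]; ring
  have hNT : ρ ^ 2 - (r + 2 - d) ^ 2 = (2 - h) * (2 * ρ - 2 + h) := by
    rw [hh]; ring
  rw [hblk, hown]
  by_cases hcase : t ≤ h
  · have hXneg : X ≤ 0 := by
      rw [hX, hN]
      apply div_nonpos_of_nonpos_of_nonneg
      · exact mul_nonpos_of_nonpos_of_nonneg (by linarith) (by linarith)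
      · positivity
    have hempty : arcO φ X = ∅ := by
      ext θ
      simp only [arcO, Set.mem_ofPred_eq, Set.mem_empty_iff_false, iff_false, not_lt]
      exact hXneg.trans (sq_nonneg _)
    rw [hempty, measure_empty, ENNReal.toReal_zero, mul_zero]
    exact mul_nonneg (prof_nonneg _ _) ENNReal.toReal_nonneg
  · push Not at hcase
    have hfac : 0 < 2 * ρ - t + h := by linarith
    have hX0 : 0 ≤ X := by
      rw [hX, hN]
      apply div_nonneg
      · exact mul_nonneg (by linarith) hfac.le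
      · positivity
    have hY0 : 0 ≤ Y := by
      rw [hY, hNT]
      apply div_nonneg
      · exact mul_nonneg (by linarith) (by linarith)
      · positivity
    have hY1 : Y ≤ 1 := by
      rw [hY, hNT, div_le_one (by positivity), hh]
      nlinarith
    have hX1 : X ≤ 1 / 25 := by
      rw [hX, hN, div_le_div_iff₀ (by positivity) (by norm_num)]
      have a1 : 21 * t ≤ 4 * r := by
        have : r * t ≤ r - 2 := by
          have : r * t = (r * li) * s := by rw [ht]; ring
          rw [this, l1]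
          nlinarith
        have h3 : r * (21 * t) ≤ r * (4 * r) := by nlinarith
        exact le_of_mul_le_mul_left h3 hr0
      have a2 : (t - h) * (2 * ρ - t + h) ≤ t * (2 * ρ) := by nlinarith
      have a3 : (25 * t) * (2 * ρ) ≤ (4 * (r + t)) * (r + ρ) :=
        mul_le_mul (by linarith) (by linarith) (by positivity) (by positivity)
      have a4 : (4 * (r + t)) * (r + ρ) ≤ 4 * (r + t) * d := by
        apply mul_le_mul_of_nonneg_left _ (by positivity)
        linarith
      linarith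
    have hρ1 : 0 < ρ - 1 := by linarith
    have k1 : t - h ≤ t / 2 * (2 - h) := by nlinarith
    have k2 : (2 * ρ - t + h) * (2 * ρ - 2) ≤ 2 * ρ * (2 * ρ - 2 + h) := by nlinarith
    have k3 : (t - h) * ((2 * ρ - t + h) * (2 * ρ - 2)) ≤
        (t / 2 * (2 - h)) * (2 * ρ * (2 * ρ - 2 + h)) := by
      apply mul_le_mul k1 k2
      · have : 0 ≤ 2 * ρ - 2 := by linarith
        positivity
      · have : 0 ≤ 2 - h := by linarith
        positivity
    have hNT0 : 0 ≤ (2 - h) * (2 * ρ - 2 + h) := mul_nonneg (by linarith) (by linarith)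
    have k4 : r * t ≤ (r - 1) * s := by
      have : r * t = (r * li) * s := by rw [ht]; ring
      rw [this, l1]
      nlinarith
    have key : (t - h) * (2 * ρ - t + h) * (r * (2 * (ρ - 1))) ≤
        (r - 1) * s * ρ * ((2 - h) * (2 * ρ - 2 + h)) := by
      calc (t - h) * (2 * ρ - t + h) * (r * (2 * (ρ - 1)))
          = r * ((t - h) * ((2 * ρ - t + h) * (2 * ρ - 2))) := by ring
        _ ≤ r * ((t / 2 * (2 - h)) * (2 * ρ * (2 * ρ - 2 + h))) :=
            mul_le_mul_of_nonneg_left k3 hr0.le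
        _ = (r * t) * (ρ * ((2 - h) * (2 * ρ - 2 + h))) := by ring
        _ ≤ ((r - 1) * s) * (ρ * ((2 - h) * (2 * ρ - 2 + h))) :=
            mul_le_mul_of_nonneg_right k4 (by positivity)
        _ = _ := by ring
    refine compare_arcs_w (c2 := ρ / (2 * (ρ - 1))) hX0 hX1 hY0 hY1 (prof_nonneg _ _) hw
      (by positivity) (wt_bound hj1 hj) ?_
    rw [prof_sq hi hs0.le, hX, hY, hN, hNT]
    have e1 : r ^ 2 + (r - 2) * s = r * (r + t) := by
      rw [← l1, ht]; ring
    rw [e1]
    have e2 : r ^ 2 + r - 2 = (r - 1) * (r + 2) := by ring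
    rw [e2, div_mul_div_comm, div_mul_div_comm, div_le_div_iff₀ (by positivity) (by positivity)]
    have hc : 0 ≤ (r + t) * (4 * (r + 2) * d) := by positivity
    have := mul_le_mul_of_nonneg_right key hc
    refine le_trans (le_of_eq ?_) (this.trans (le_of_eq ?_)) <;> ring

end DiskDim
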