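import Mathlib
import Pool.Agent.DiskDim.Defs
import Pool.Agent.DiskDim.Geo
import Pool.Agent.DiskDim.Arc
import Pool.Agent.DiskDim.Basic
import Pool.Agent.DiskDim.SliceL
import Pool.Agent.DiskDim.SliceS
import Pool.Agent.DiskDim.SliceE

open MeasureTheory Set Metric Real
open scoped ENNReal NNReal

namespace DiskDim

variable {ι : Type}


theorem continuous_pt (P : Pack ι) (i : ι) (ρ : ℝ) : Continuous (P.pt i ρ) := by
  unfold Pack.pt
  exact continuous_const.add (continuous_const.mul continuous_e)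

theorem measurableSet_own (P : Pack ι) (i j : ι) : MeasurableSet (own P i j) :=
  (isOpen_lt ((continuous_pt P i _).dist continuous_const) continuous_const).measurableSet

theorem measurableSet_ownExt (P : Pack ι) (i : ι) : MeasurableSet (ownExt P i) :=
  (isOpen_lt continuous_const (continuous_pt P i _).norm).measurableSet

theorem own_total (P : Pack ι) (i : ι) (F : Finset ι) (_hF : ∀ j ∈ F, j ≠ i) :
    (ang (ownExt P i)).toReal + ∑ j ∈ F, (ang (own P i j)).toReal ≤ 2 * π := by
  have hfin : ∀ S : Set ℝ, ang S ≠ ⊤ := fun S => by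
    refine ne_top_of_le_ne_top ENNReal.ofReal_ne_top
      (?_ : ang S ≤ ENNReal.ofReal (2 * π))
    rw [← ang_univ_basic]; exact measure_mono (subset_univ S)
  have hdis : Disjoint (ownExt P i) (⋃ j ∈ F, own P i j) := by
    rw [Set.disjoint_left]
    intro θ h1 h2
    obtain ⟨j, _, h3⟩ := mem_iUnion₂.mp h2
    have h4 : P.pt i (P.r i + 2) θ ∈ closedBall 0 P.R := ball_sub P j h3
    rw [mem_closedBall, dist_zero_right] at h4
    exact absurd h1 (not_lt.mpr h4)
  have hpw : (F : Set ι).PairwiseDisjoint (fun j => own P i j) := by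
    intro j _ k _ hjk
    rw [Function.onFun, Set.disjoint_left]
    intro θ h1 h2
    exact Set.disjoint_left.mp (ball_disj P hjk) h1 h2
  have h1 : ang (ownExt P i ∪ ⋃ j ∈ F, own P i j) =
      ang (ownExt P i) + ∑ j ∈ F, ang (own P i j) := by
    rw [measure_union hdis (F.measurableSet_biUnion fun j _ => measurableSet_own P i j),
      measure_biUnion_finset hpw (fun j _ => measurableSet_own P i j)]
  have h2 := ang_toReal_le (ownExt P i ∪ ⋃ j ∈ F, own P i j)
  rw [h1, ENNReal.toReal_add (hfin _) (ENNReal.sum_ne_top.mpr fun j _ => hfin _),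
    ENNReal.toReal_sum (fun j _ => hfin _)] at h2
  exact h2

theorem slice (P : Pack ι) (i : ι) (hi : 5 / 2 < P.r i) (hR : P.r i + 3 ≤ P.R)
    (F : Finset ι) (hF : ∀ j ∈ F, j ≠ i ∧ 1 < P.r j) {s : ℝ} (hs0 : 0 < s) (hs1 : s ≤ 1) :
    (ang (blkExt P i s)).toReal + ∑ j ∈ F, bw (P.r j) * (ang (blk P i j s)).toReal ≤
      2 * π * prof (P.r i) s := by
  have h1 := slice_ext P i hi hR hs0 hs1
  have h2 : ∀ j ∈ F, bw (P.r j) * (ang (blk P i j s)).toReal ≤
      prof (P.r i) s * (ang (own P i j)).toReal := by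
    intro j hj
    by_cases hl : 5 / 2 < P.r j
    · rw [bw, if_pos hl, one_mul]
      exact slice_large P i j (hF j hj).1 hi hl hs0 hs1
    · rw [bw, if_neg hl]
      exact slice_small P i j (hF j hj).1 hi (hF j hj).2 (not_lt.mp hl) hs0 hs1
  have h3 := Finset.sum_le_sum h2
  rw [← Finset.mul_sum] at h3
  have h4 := own_total P i F (fun j hj => (hF j hj).1)
  have h5 := prof_nonneg (P.r i) s
  calc (ang (blkExt P i s)).toReal + ∑ j ∈ F, bw (P.r j) * (ang (blk P i j s)).toReal
      ≤ prof (P.r i) s * (ang (ownExt P i)).toReal +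
        prof (P.r i) s * ∑ j ∈ F, (ang (own P i j)).toReal := add_le_add h1 h3
    _ = prof (P.r i) s * ((ang (ownExt P i)).toReal + ∑ j ∈ F, (ang (own P i j)).toReal) := by
        ring
    _ ≤ prof (P.r i) s * (2 * π) := by gcongr
    _ = 2 * π * prof (P.r i) s := by ring

end DiskDim
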