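import Mathlib
import Pool.Agent.DiskDim.Defs
import Pool.Agent.DiskDim.Geo
import Pool.Agent.DiskDim.Basic
import Pool.Agent.DiskDim.Prof
import Pool.Agent.DiskDim.Polar
import Pool.Agent.DiskDim.Slice

open MeasureTheory Set Metric Real
open scoped ENNReal NNReal

namespace DiskDim

variable {ι : Type}

/-! ### the cell is measurable -/

theorem arg_e_mul {ρ θ : ℝ} (hρ : 0 < ρ) (hθ : θ ∈ Ioc (-π) π) :
    Complex.arg ((ρ : ℂ) * e θ) = θ := by
  have h : e θ = Complex.cos θ + Complex.sin θ * Complex.I := by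
    apply Complex.ext <;> simp [e, Complex.cos_ofReal_re, Complex.sin_ofReal_re]
  rw [h]
  exact Complex.arg_mul_cos_add_sin_mul_I hρ hθ

theorem eq_polar (x c : ℂ) : x = c + ((dist x c : ℝ) : ℂ) * e (Complex.arg (x - c)) := by
  have h : e (Complex.arg (x - c)) = Complex.cos (Complex.arg (x - c)) +
      Complex.sin (Complex.arg (x - c)) * Complex.I := by
    apply Complex.ext <;> simp [e, Complex.cos_ofReal_re, Complex.sin_ofReal_re]
  rw [h, Complex.dist_eq, Complex.norm_mul_cos_add_sin_mul_I]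
  ring

theorem cell_eq (P : Pack ι) (M : Set ℝ) (i : ι)
    (hi : 5 / 2 < P.r i) (F : Finset ι) (hF : ∀ j, j ∈ F ↔ j ≠ i ∧ 1 < P.r j) :
    cell P M i = {x | P.r i < dist x (P.c i) ∧ dist x (P.c i) < P.r i + lam (P.r i) ∧
      Complex.arg (x - P.c i) ∉ M ∧ ‖x‖ ≤ P.R ∧ ∀ j ∈ F, 5 / 2 < P.r j →
      P.r j + lam (P.r j) * ((dist x (P.c i) - P.r i) / lam (P.r i)) < dist x (P.c j)} := by
  have hl := lam_pos hi
  ext x
  constructor
  · rintro ⟨s, θ, hs0, hs1, hθ, hM, hx, hxR, hx2⟩
    have hρ : 0 < P.r i + lam (P.r i) * s := by nlinarith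
    have hd : dist x (P.c i) = P.r i + lam (P.r i) * s := by
      rw [hx]; exact dist_pt_center P i hρ.le θ
    have harg : Complex.arg (x - P.c i) = θ := by
      rw [hx]; unfold Pack.pt; rw [add_sub_cancel_left]
      exact arg_e_mul hρ hθ
    refine ⟨by rw [hd]; nlinarith, by rw [hd]; nlinarith, by rw [harg]; exact hM, hxR, ?_⟩
    intro j hj hj2
    have hs : (dist x (P.c i) - P.r i) / lam (P.r i) = s := by
      rw [hd]; field_simp; ring
    rw [hs]
    exact hx2 j ((hF j).1 hj).1 hj2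
  · rintro ⟨h1, h2, h3, h4, h5⟩
    refine ⟨(dist x (P.c i) - P.r i) / lam (P.r i), Complex.arg (x - P.c i), ?_, ?_, ?_, h3, ?_, h4, ?_⟩
    · apply div_pos <;> linarith
    · rw [div_lt_one hl]; linarith
    · exact ⟨Complex.neg_pi_lt_arg _, Complex.arg_le_pi _⟩
    · have : P.r i + lam (P.r i) * ((dist x (P.c i) - P.r i) / lam (P.r i)) = dist x (P.c i) := by
        field_simp; ring
      rw [this]
      exact eq_polar x (P.c i)
    · intro j hj hj2
      exact h5 j ((hF j).2 ⟨hj, by linarith⟩) hj2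

theorem measurableSet_cell (P : Pack ι) (M : Set ℝ) (hM : MeasurableSet M) (i : ι)
    (hi : 5 / 2 < P.r i) (F : Finset ι) (hF : ∀ j, j ∈ F ↔ j ≠ i ∧ 1 < P.r j) :
    MeasurableSet (cell P M i) := by
  rw [cell_eq P M i hi F hF]
  have hd : Measurable fun x : ℂ => dist x (P.c i) := measurable_id.dist measurable_const
  have m1 : MeasurableSet {x : ℂ | P.r i < dist x (P.c i)} := measurableSet_lt measurable_const hd
  have m2 : MeasurableSet {x : ℂ | dist x (P.c i) < P.r i + lam (P.r i)} :=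
    measurableSet_lt hd measurable_const
  have m3 : MeasurableSet {x : ℂ | Complex.arg (x - P.c i) ∉ M} :=
    (Complex.measurable_arg.comp (measurable_id.sub measurable_const)) hM.compl
  have m4 : MeasurableSet {x : ℂ | ‖x‖ ≤ P.R} := measurableSet_le measurable_norm measurable_const
  have m5 : MeasurableSet {x : ℂ | ∀ j ∈ F, 5 / 2 < P.r j →
      P.r j + lam (P.r j) * ((dist x (P.c i) - P.r i) / lam (P.r i)) < dist x (P.c j)} := by
    have : {x : ℂ | ∀ j ∈ F, 5 / 2 < P.r j →
      P.r j + lam (P.r j) * ((dist x (P.c i) - P.r i) / lam (P.r i)) < dist x (P.c j)} =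
      ⋂ j ∈ F, {x : ℂ | 5 / 2 < P.r j →
      P.r j + lam (P.r j) * ((dist x (P.c i) - P.r i) / lam (P.r i)) < dist x (P.c j)} := by
      ext x; simp
    rw [this]
    refine Finset.measurableSet_biInter F fun j _ => ?_
    by_cases hj : 5 / 2 < P.r j
    · simp only [hj, forall_const]
      exact measurableSet_lt (by fun_prop) (by fun_prop)
    · simp [hj]
  exact m1.inter (m2.inter (m3.inter (m4.inter m5)))

/-! ### the slices -/

theorem measurableSet_blk (P : Pack ι) (i j : ι) (s : ℝ) : MeasurableSet (blk P i j s) := by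
  have hc := continuous_pt P i (P.r i + lam (P.r i) * s)
  unfold blk
  split_ifs
  · exact measurableSet_le (hc.measurable.dist measurable_const) measurable_const
  · exact measurableSet_lt (hc.measurable.dist measurable_const) measurable_const

theorem measurableSet_blkExt (P : Pack ι) (i : ι) (s : ℝ) : MeasurableSet (blkExt P i s) := by
  have hc := continuous_pt P i (P.r i + lam (P.r i) * s)
  exact measurableSet_lt measurable_const hc.measurable.norm

theorem not_mem_of_pt_mem_cell (P : Pack ι) (M : Set ℝ) (i : ι) (hi : 5 / 2 < P.r i)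
    {ρ θ : ℝ} (hρ : 0 < ρ) (hθ : θ ∈ Ioc (-π) π) (h : P.pt i ρ θ ∈ cell P M i) :
    θ ∉ M ∧ P.r i < ρ ∧ ρ < P.r i + lam (P.r i) := by
  have hl := lam_pos hi
  obtain ⟨s, θ', hs0, hs1, hθ', hM, hx, -, -⟩ := h
  have hρ' : 0 < P.r i + lam (P.r i) * s := by nlinarith
  have hd : ρ = P.r i + lam (P.r i) * s := by
    rw [← dist_pt_center P i hρ.le θ, hx, dist_pt_center P i hρ'.le θ']
  have harg : θ = θ' := by
    have h1 : Complex.arg (P.pt i ρ θ - P.c i) = θ := by
      unfold Pack.pt; rw [add_sub_cancel_left]; exact arg_e_mul hρ hθ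
    have h2 : Complex.arg (P.pt i (P.r i + lam (P.r i) * s) θ' - P.c i) = θ' := by
      unfold Pack.pt; rw [add_sub_cancel_left]; exact arg_e_mul hρ' hθ'
    rw [← h1, hx, h2]
  refine ⟨by rw [harg]; exact hM, by rw [hd]; nlinarith, by rw [hd]; nlinarith⟩

theorem cell_pointwise (P : Pack ι) (M : Set ℝ) (i : ι)
    (hi : 5 / 2 < P.r i) (F : Finset ι) (hF : ∀ j, j ∈ F ↔ j ≠ i ∧ 1 < P.r j)
    {s θ : ℝ} (hs0 : 0 < s) (hs1 : s < 1) (hθ : θ ∈ Ioc (-π) π) :
    (Mᶜ).indicator (fun _ => (1 : ℝ≥0∞)) θ +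
      ∑ j ∈ F.filter (fun j => P.r j ≤ 5 / 2), ENNReal.ofReal (wt (P.r j)) *
        (cell P M i ∩ ball (P.c j) (P.r j)).indicator (fun _ => (1 : ℝ≥0∞))
          (P.pt i (P.r i + lam (P.r i) * s) θ) ≤
      (cell P M i).indicator (fun _ => (1 : ℝ≥0∞)) (P.pt i (P.r i + lam (P.r i) * s) θ) +
      ((blkExt P i s).indicator (fun _ => (1 : ℝ≥0∞)) θ +
      ∑ j ∈ F, ENNReal.ofReal (bw (P.r j)) * (blk P i j s).indicator (fun _ => (1 : ℝ≥0∞)) θ) := by
  classical
  have hl := lam_pos hi
  have hρ : 0 < P.r i + lam (P.r i) * s := by nlinarith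
  set x := P.pt i (P.r i + lam (P.r i) * s) θ with hx
  by_cases hc : x ∈ cell P M i
  · have hM := (not_mem_of_pt_mem_cell P M i hi hρ hθ hc).1
    rw [indicator_of_mem (show θ ∈ Mᶜ from hM), indicator_of_mem hc]
    gcongr
    refine le_trans ?_ le_add_self
    calc ∑ j ∈ F.filter (fun j => P.r j ≤ 5 / 2), ENNReal.ofReal (wt (P.r j)) *
        (cell P M i ∩ ball (P.c j) (P.r j)).indicator (fun _ => (1 : ℝ≥0∞)) x
        ≤ ∑ j ∈ F.filter (fun j => P.r j ≤ 5 / 2), ENNReal.ofReal (bw (P.r j)) *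
          (blk P i j s).indicator (fun _ => (1 : ℝ≥0∞)) θ := by
          refine Finset.sum_le_sum fun j hj => ?_
          have hj2 : ¬ (5 / 2 < P.r j) := not_lt.2 (Finset.mem_filter.1 hj).2
          have hb : bw (P.r j) = wt (P.r j) := by unfold bw; rw [if_neg hj2]
          rw [hb]
          gcongr
          by_cases hxj : x ∈ ball (P.c j) (P.r j)
          · have : θ ∈ blk P i j s := by
              unfold blk; rw [if_neg hj2]; exact hxj
            rw [indicator_of_mem this]
            exact indicator_le_self _ _ _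
          · rw [indicator_of_notMem]
            · exact bot_le
            · rintro ⟨_, h⟩; exact hxj h
      _ ≤ _ := Finset.sum_le_sum_of_subset (Finset.filter_subset _ _)
  · have hz : ∑ j ∈ F.filter (fun j => P.r j ≤ 5 / 2), ENNReal.ofReal (wt (P.r j)) *
        (cell P M i ∩ ball (P.c j) (P.r j)).indicator (fun _ => (1 : ℝ≥0∞)) x = 0 := by
      refine Finset.sum_eq_zero fun j _ => ?_
      rw [indicator_of_notMem, mul_zero]
      rintro ⟨h, _⟩; exact hc h
    rw [hz, indicator_of_notMem hc, add_zero, zero_add]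
    by_cases hM : θ ∈ M
    · rw [indicator_of_notMem (by simpa using hM)]
      exact bot_le
    · rw [indicator_of_mem (show θ ∈ Mᶜ from hM)]
      by_cases hR : P.R < ‖x‖
      · have : θ ∈ blkExt P i s := hR
        rw [indicator_of_mem this]
        exact le_self_add
      · have : ∃ j, j ≠ i ∧ 5 / 2 < P.r j ∧ dist x (P.c j) ≤ P.r j + lam (P.r j) * s := by
          by_contra hcon
          push Not at hcon
          exact hc ⟨s, θ, hs0, hs1, hθ, hM, hx, not_lt.1 hR, fun j h1 h2 => hcon j h1 h2⟩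
        obtain ⟨j, hj1, hj2, hj3⟩ := this
        have hjF : j ∈ F := (hF j).2 ⟨hj1, by linarith⟩
        have hb : bw (P.r j) = 1 := by unfold bw; rw [if_pos hj2]
        have hbl : θ ∈ blk P i j s := by unfold blk; rw [if_pos hj2]; exact hj3
        refine le_trans ?_ le_add_self
        refine le_trans ?_ (Finset.single_le_sum (f := fun j => ENNReal.ofReal (bw (P.r j)) *
          (blk P i j s).indicator (fun _ => (1 : ℝ≥0∞)) θ) (fun _ _ => bot_le) hjF)
        rw [hb, indicator_of_mem hbl]; simp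

theorem wt_nonneg {ρ : ℝ} (h : 1 ≤ ρ) : 0 ≤ wt ρ := by
  unfold wt
  apply div_nonneg
  · apply mul_nonneg <;> nlinarith
  · positivity

theorem bw_nonneg {ρ : ℝ} (h : 1 ≤ ρ) : 0 ≤ bw ρ := by
  unfold bw
  split_ifs
  · norm_num
  · exact wt_nonneg h

theorem ang_lt_top (S : Set ℝ) : ang S < ⊤ := by
  refine lt_of_le_of_lt (measure_mono (subset_univ S)) ?_
  rw [ang_univ_basic]; exact ENNReal.ofReal_lt_top

theorem cell_slice (P : Pack ι) (M : Set ℝ) (hM : MeasurableSet M) (i : ι)
    (hi : 5 / 2 < P.r i) (hR : P.r i + 3 ≤ P.R) (F : Finset ι)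
    (hF : ∀ j, j ∈ F ↔ j ≠ i ∧ 1 < P.r j) {s : ℝ} (hs0 : 0 < s) (hs1 : s < 1) :
    ang Mᶜ + ∑ j ∈ F.filter (fun j => P.r j ≤ 5 / 2), ENNReal.ofReal (wt (P.r j)) *
        ∫⁻ θ, (cell P M i ∩ ball (P.c j) (P.r j)).indicator (fun _ => (1 : ℝ≥0∞))
          (P.pt i (P.r i + lam (P.r i) * s) θ) ∂ang ≤
      ∫⁻ θ, (cell P M i).indicator (fun _ => (1 : ℝ≥0∞)) (P.pt i (P.r i + lam (P.r i) * s) θ) ∂ang
      + ENNReal.ofReal (2 * π * prof (P.r i) s) := by
  classical
  have hmc := measurableSet_cell P M hM i hi F hF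
  have hpt := (continuous_pt P i (P.r i + lam (P.r i) * s)).measurable
  have hms : ∀ j, Measurable fun θ => (cell P M i ∩ ball (P.c j) (P.r j)).indicator
      (fun _ => (1 : ℝ≥0∞)) (P.pt i (P.r i + lam (P.r i) * s) θ) := fun j =>
    (measurable_const.indicator (hmc.inter measurableSet_ball)).comp hpt
  have hmc' : Measurable fun θ => (cell P M i).indicator (fun _ => (1 : ℝ≥0∞))
      (P.pt i (P.r i + lam (P.r i) * s) θ) := (measurable_const.indicator hmc).comp hpt
  have hint : ∫⁻ θ, ((Mᶜ).indicator (fun _ => (1 : ℝ≥0∞)) θ +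
      ∑ j ∈ F.filter (fun j => P.r j ≤ 5 / 2), ENNReal.ofReal (wt (P.r j)) *
        (cell P M i ∩ ball (P.c j) (P.r j)).indicator (fun _ => (1 : ℝ≥0∞))
          (P.pt i (P.r i + lam (P.r i) * s) θ)) ∂ang ≤
      ∫⁻ θ, ((cell P M i).indicator (fun _ => (1 : ℝ≥0∞)) (P.pt i (P.r i + lam (P.r i) * s) θ) +
      ((blkExt P i s).indicator (fun _ => (1 : ℝ≥0∞)) θ +
      ∑ j ∈ F, ENNReal.ofReal (bw (P.r j)) * (blk P i j s).indicator (fun _ => (1 : ℝ≥0∞)) θ)) ∂ang := by
    unfold ang
    refine setLIntegral_mono' measurableSet_Ioc fun θ hθ => ?_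
    exact cell_pointwise P M i hi F hF hs0 hs1 hθ
  have hm1 : Measurable fun θ => (Mᶜ).indicator (fun _ => (1 : ℝ≥0∞)) θ :=
    measurable_const.indicator hM.compl
  have hm2 : Measurable fun θ => (blkExt P i s).indicator (fun _ => (1 : ℝ≥0∞)) θ :=
    measurable_const.indicator (measurableSet_blkExt P i s)
  have hm3 : ∀ j, Measurable fun θ => (blk P i j s).indicator (fun _ => (1 : ℝ≥0∞)) θ := fun j =>
    measurable_const.indicator (measurableSet_blk P i j s)
  rw [lintegral_add_left hm1, lintegral_add_left hmc', lintegral_add_left hm2,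
    lintegral_finsetSum _ (fun j _ => (hms j).const_mul _),
    lintegral_finsetSum _ (fun j _ => (hm3 j).const_mul _)] at hint
  simp only [lintegral_const_mul _ (hms _), lintegral_const_mul _ (hm3 _)] at hint
  rw [lintegral_indicator_const hM.compl, lintegral_indicator_const (measurableSet_blkExt P i s)] at hint
  simp only [lintegral_indicator_const (measurableSet_blk P i _ s), one_mul] at hint
  refine hint.trans ?_
  gcongr
  have hsl := slice P i hi hR F (fun j hj => (hF j).1 hj) hs0 hs1.le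
  have h1 : ang (blkExt P i s) = ENNReal.ofReal (ang (blkExt P i s)).toReal :=
    (ENNReal.ofReal_toReal (ang_lt_top _).ne).symm
  have h2 : ∀ j ∈ F, ENNReal.ofReal (bw (P.r j)) * ang (blk P i j s) =
      ENNReal.ofReal (bw (P.r j) * (ang (blk P i j s)).toReal) := by
    intro j hj
    rw [ENNReal.ofReal_mul (bw_nonneg ((hF j).1 hj).2.le), ENNReal.ofReal_toReal (ang_lt_top _).ne]
  rw [Finset.sum_congr rfl h2, h1, ← ENNReal.ofReal_sum_of_nonneg, ← ENNReal.ofReal_add]
  · exact ENNReal.ofReal_le_ofReal hsl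
  · exact ENNReal.toReal_nonneg
  · exact Finset.sum_nonneg fun j hj =>
      mul_nonneg (bw_nonneg ((hF j).1 hj).2.le) ENNReal.toReal_nonneg
  · exact fun j hj => mul_nonneg (bw_nonneg ((hF j).1 hj).2.le) ENNReal.toReal_nonneg

/-! ### integration over the slices -/

theorem measurable_prof (r : ℝ) : Measurable (prof r) := by
  unfold prof
  fun_prop

theorem volume_cell_ge (P : Pack ι) (M : Set ℝ) (hM : MeasurableSet M) (i : ι)
    (hi : 5 / 2 < P.r i) (F : Finset ι)
    (hF : ∀ j, j ∈ F ↔ j ≠ i ∧ 1 < P.r j) :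
    ∫⁻ ρ in Ioo (P.r i) (P.r i + lam (P.r i)), ENNReal.ofReal ρ *
      ∫⁻ θ, (cell P M i).indicator (fun _ => (1 : ℝ≥0∞)) (P.pt i ρ θ) ∂ang ≤
      volume (cell P M i) := by
  have hmc := measurableSet_cell P M hM i hi F hF
  have h := lintegral_polar (P.c i) ((cell P M i).indicator (fun _ => (1 : ℝ≥0∞)))
    (measurable_const.indicator hmc)
  rw [lintegral_indicator_const hmc, one_mul] at h
  rw [h]
  refine lintegral_mono_set ?_
  intro ρ hρ
  exact lt_trans (by linarith) hρ.1

theorem volume_cell_inter (P : Pack ι) (M : Set ℝ) (hM : MeasurableSet M) (i : ι)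
    (hi : 5 / 2 < P.r i) (F : Finset ι)
    (hF : ∀ j, j ∈ F ↔ j ≠ i ∧ 1 < P.r j) (j : ι) :
    volume (cell P M i ∩ ball (P.c j) (P.r j)) =
    ∫⁻ ρ in Ioo (P.r i) (P.r i + lam (P.r i)), ENNReal.ofReal ρ *
      ∫⁻ θ, (cell P M i ∩ ball (P.c j) (P.r j)).indicator (fun _ => (1 : ℝ≥0∞))
        (P.pt i ρ θ) ∂ang := by
  have hmc := (measurableSet_cell P M hM i hi F hF).inter
    (measurableSet_ball : MeasurableSet (ball (P.c j) (P.r j)))
  have h := lintegral_polar (P.c i)
    ((cell P M i ∩ ball (P.c j) (P.r j)).indicator (fun _ => (1 : ℝ≥0∞)))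
    (measurable_const.indicator hmc)
  rw [lintegral_indicator_const hmc, one_mul] at h
  have hsub : Ioo (P.r i) (P.r i + lam (P.r i)) ⊆ Ioi 0 := fun ρ hρ => lt_trans (by linarith) hρ.1
  rw [h, ← lintegral_inter_add_sdiff (B := Ioo (P.r i) (P.r i + lam (P.r i))) _ _ measurableSet_Ioo,
    inter_eq_right.2 hsub]
  have hz : ∫⁻ ρ in Ioi 0 \ Ioo (P.r i) (P.r i + lam (P.r i)), ENNReal.ofReal ρ *
      ∫⁻ θ, (cell P M i ∩ ball (P.c j) (P.r j)).indicator (fun _ => (1 : ℝ≥0∞))
        (P.c i + (ρ : ℂ) * e θ) ∂ang = 0 := by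
    rw [← lintegral_zero (μ := volume.restrict (Ioi 0 \ Ioo (P.r i) (P.r i + lam (P.r i))))]
    refine setLIntegral_congr_fun (measurableSet_Ioi.diff measurableSet_Ioo) fun ρ hρ => ?_
    have hz : ∫⁻ θ, (cell P M i ∩ ball (P.c j) (P.r j)).indicator
        (fun _ => (1 : ℝ≥0∞)) (P.c i + (ρ : ℂ) * e θ) ∂ang = 0 := by
      unfold ang
      rw [← lintegral_zero (μ := volume.restrict (Ioc (-π) π))]
      refine setLIntegral_congr_fun measurableSet_Ioc fun θ hθ => ?_
      rw [indicator_of_notMem]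
      rintro ⟨h1, _⟩
      have := not_mem_of_pt_mem_cell P M i hi hρ.1 hθ h1
      exact hρ.2 this.2
    simp only [hz, mul_zero]
  rw [hz, add_zero]
  rfl

instance : IsFiniteMeasure ang := ⟨by rw [ang_univ_basic]; exact ENNReal.ofReal_lt_top⟩

theorem measurable_inner (P : Pack ι) (i : ι) {A : Set ℂ} (hA : MeasurableSet A) :
    Measurable fun ρ : ℝ => ∫⁻ θ, A.indicator (fun _ => (1 : ℝ≥0∞)) (P.pt i ρ θ) ∂ang := by
  have hpt : Measurable fun p : ℝ × ℝ => P.pt i p.1 p.2 := by
    unfold Pack.pt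
    exact measurable_const.add ((Complex.measurable_ofReal.comp measurable_fst).mul
      (continuous_e.measurable.comp measurable_snd))
  exact Measurable.lintegral_prod_right' ((measurable_const.indicator hA).comp hpt)

theorem cell_ennreal (P : Pack ι) (M : Set ℝ) (hM : MeasurableSet M) (i : ι)
    (hi : 5 / 2 < P.r i) (hR : P.r i + 3 ≤ P.R) (F : Finset ι)
    (hF : ∀ j, j ∈ F ↔ j ≠ i ∧ 1 < P.r j) :
    (∫⁻ ρ in Ioo (P.r i) (P.r i + lam (P.r i)), ENNReal.ofReal ρ * ang Mᶜ) +
      ∑ j ∈ F.filter (fun j => P.r j ≤ 5 / 2), ENNReal.ofReal (wt (P.r j)) *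
        volume (cell P M i ∩ ball (P.c j) (P.r j)) ≤
      volume (cell P M i) + ∫⁻ ρ in Ioo (P.r i) (P.r i + lam (P.r i)),
        ENNReal.ofReal ρ * ENNReal.ofReal (2 * π * prof (P.r i) ((ρ - P.r i) / lam (P.r i))) := by
  classical
  have hl := lam_pos hi
  have hmc := measurableSet_cell P M hM i hi F hF
  have hmcj : ∀ j, MeasurableSet (cell P M i ∩ ball (P.c j) (P.r j)) := fun j =>
    hmc.inter measurableSet_ball
  refine le_trans ?_ (add_le_add (volume_cell_ge P M hM i hi F hF) le_rfl)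
  have hmρ : Measurable fun ρ : ℝ => ENNReal.ofReal ρ := ENNReal.measurable_ofReal
  have hmj : ∀ j, Measurable fun ρ : ℝ => ENNReal.ofReal ρ *
      ∫⁻ θ, (cell P M i ∩ ball (P.c j) (P.r j)).indicator (fun _ => (1 : ℝ≥0∞))
        (P.pt i ρ θ) ∂ang := fun j => hmρ.mul (measurable_inner P i (hmcj j))
  have hsum : ∑ j ∈ F.filter (fun j => P.r j ≤ 5 / 2), ENNReal.ofReal (wt (P.r j)) *
        volume (cell P M i ∩ ball (P.c j) (P.r j)) =
      ∫⁻ ρ in Ioo (P.r i) (P.r i + lam (P.r i)), ∑ j ∈ F.filter (fun j => P.r j ≤ 5 / 2),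
        ENNReal.ofReal (wt (P.r j)) * (ENNReal.ofReal ρ *
      ∫⁻ θ, (cell P M i ∩ ball (P.c j) (P.r j)).indicator (fun _ => (1 : ℝ≥0∞))
        (P.pt i ρ θ) ∂ang) := by
    rw [lintegral_finsetSum _ fun j _ => (hmj j).const_mul _]
    refine Finset.sum_congr rfl fun j _ => ?_
    rw [volume_cell_inter P M hM i hi F hF j, lintegral_const_mul _ (hmj j)]
  have hma : Measurable fun ρ : ℝ => ENNReal.ofReal ρ * ang Mᶜ := hmρ.mul measurable_const
  have hmb : Measurable fun ρ : ℝ => ENNReal.ofReal ρ *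
      ∫⁻ θ, (cell P M i).indicator (fun _ => (1 : ℝ≥0∞)) (P.pt i ρ θ) ∂ang :=
    hmρ.mul (measurable_inner P i hmc)
  rw [hsum, ← lintegral_add_left hma, ← lintegral_add_left hmb]
  · refine setLIntegral_mono' measurableSet_Ioo fun ρ hρ => ?_
    have hs0 : 0 < (ρ - P.r i) / lam (P.r i) := div_pos (by linarith [hρ.1]) hl
    have hs1 : (ρ - P.r i) / lam (P.r i) < 1 := by rw [div_lt_one hl]; linarith [hρ.2]
    have hρe : P.r i + lam (P.r i) * ((ρ - P.r i) / lam (P.r i)) = ρ := by field_simp; ring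
    have := cell_slice P M hM i hi hR F hF hs0 hs1
    rw [hρe] at this
    calc ENNReal.ofReal ρ * ang Mᶜ + ∑ j ∈ F.filter (fun j => P.r j ≤ 5 / 2),
        ENNReal.ofReal (wt (P.r j)) * (ENNReal.ofReal ρ *
        ∫⁻ θ, (cell P M i ∩ ball (P.c j) (P.r j)).indicator (fun _ => (1 : ℝ≥0∞))
        (P.pt i ρ θ) ∂ang)
        = ENNReal.ofReal ρ * (ang Mᶜ + ∑ j ∈ F.filter (fun j => P.r j ≤ 5 / 2),
        ENNReal.ofReal (wt (P.r j)) *
        ∫⁻ θ, (cell P M i ∩ ball (P.c j) (P.r j)).indicator (fun _ => (1 : ℝ≥0∞))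
        (P.pt i ρ θ) ∂ang) := by
          rw [mul_add, Finset.mul_sum]
          congr 1
          refine Finset.sum_congr rfl fun j _ => ?_
          ring
      _ ≤ ENNReal.ofReal ρ * (∫⁻ θ, (cell P M i).indicator (fun _ => (1 : ℝ≥0∞)) (P.pt i ρ θ) ∂ang
          + ENNReal.ofReal (2 * π * prof (P.r i) ((ρ - P.r i) / lam (P.r i)))) := by gcongr
      _ = _ := by rw [mul_add]

theorem ang_compl_toReal (M : Set ℝ) (hM : MeasurableSet M) :
    (ang Mᶜ).toReal = 2 * π - (ang M).toReal := by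
  have h := measure_compl hM (ang_lt_top M).ne
  rw [h, ang_univ_basic, ENNReal.toReal_sub_of_le, ENNReal.toReal_ofReal (by positivity)]
  · rw [← ang_univ_basic]; exact measure_mono (subset_univ _)
  · exact ENNReal.ofReal_ne_top

theorem cell_subset (P : Pack ι) (M : Set ℝ) (i : ι) : cell P M i ⊆ closedBall 0 P.R := by
  rintro x ⟨s, θ, -, -, -, -, -, h, -⟩
  simpa using h

theorem volume_cell_lt_top (P : Pack ι) (M : Set ℝ) (i : ι) : volume (cell P M i) < ⊤ :=
  lt_of_le_of_lt (measure_mono (cell_subset P M i)) measure_closedBall_lt_top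

theorem cell_lower (P : Pack ι) (M : Set ℝ) (hM : MeasurableSet M) (i : ι)
    (hi : 5 / 2 < P.r i) (hR : P.r i + 3 ≤ P.R) (F : Finset ι)
    (hF : ∀ j, j ∈ F ↔ j ≠ i ∧ 1 < P.r j) :
    2 * π * (P.r i / 3 - 5 / 6) - (P.r i + 1 / 2) * (ang M).toReal ≤
      (volume (cell P M i)).toReal - ∑ j ∈ F.filter (fun j => P.r j ≤ 5 / 2),
        wt (P.r j) * (volume (cell P M i ∩ ball (P.c j) (P.r j))).toReal := by
  classical
  have hl := lam_pos hi
  have hl1 := lam_lt_one hi
  set r := P.r i with hr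
  set l := lam r with hldef
  have hmain := cell_ennreal P M hM i hi hR F hF
  rw [← hr, ← hldef] at hmain
  -- left integral
  have hA : ∫⁻ ρ in Ioo r (r + l), ENNReal.ofReal ρ * ang Mᶜ =
      ENNReal.ofReal ((r * l + l ^ 2 / 2) * (ang Mᶜ).toReal) := by
    rw [lintegral_mul_const _ ENNReal.measurable_ofReal]
    have h1 : ∫⁻ ρ in Ioo r (r + l), ENNReal.ofReal ρ = ENNReal.ofReal (r * l + l ^ 2 / 2) := by
      rw [← ofReal_integral_eq_lintegral_ofReal]
      · rw [← integral_Ioc_eq_integral_Ioo, ← intervalIntegral.integral_of_le (by linarith),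
          integral_id]
        congr 1; ring
      · exact (continuous_id.integrableOn_Icc (a := r) (b := r + l)).mono_set Ioo_subset_Icc_self
      · refine (ae_restrict_iff' measurableSet_Ioo).2 (ae_of_all _ fun ρ hρ => ?_)
        simp only [Pi.zero_apply]; linarith [hρ.1]
    rw [h1, ENNReal.ofReal_mul (by positivity), ENNReal.ofReal_toReal (ang_lt_top _).ne]
  have hpm : Measurable fun ρ : ℝ => prof r ((ρ - r) / l) :=
    (measurable_prof r).comp (by fun_prop)
  have hB : ∫⁻ ρ in Ioo r (r + l), ENNReal.ofReal ρ * ENNReal.ofReal (2 * π * prof r ((ρ - r) / l)) =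
      ENNReal.ofReal (2 * π * ∫ s in (0 : ℝ)..1, prof r s * ((r + l * s) * l)) := by
    have h1 : ∫⁻ ρ in Ioo r (r + l), ENNReal.ofReal ρ *
        ENNReal.ofReal (2 * π * prof r ((ρ - r) / l)) =
        ∫⁻ ρ in Ioo r (r + l), ENNReal.ofReal (ρ * (2 * π * prof r ((ρ - r) / l))) := by
      refine setLIntegral_congr_fun measurableSet_Ioo fun ρ hρ => ?_
      rw [← ENNReal.ofReal_mul (by linarith [hρ.1] : (0:ℝ) ≤ ρ)]
    rw [h1, ← ofReal_integral_eq_lintegral_ofReal]
    · congr 1
      rw [← integral_Ioc_eq_integral_Ioo, ← intervalIntegral.integral_of_le (by linarith)]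
      have h2 := intervalIntegral.integral_comp_mul_add
        (f := fun ρ => ρ * (2 * π * prof r ((ρ - r) / l))) (a := 0) (b := 1) hl.ne' r
      rw [mul_zero, zero_add, mul_one, add_comm l r] at h2
      have h3 : ∫ x in r..(r + l), x * (2 * π * prof r ((x - r) / l)) =
          l * ∫ x in (0 : ℝ)..1, (l * x + r) * (2 * π * prof r ((l * x + r - r) / l)) := by
        rw [h2, smul_eq_mul, mul_inv_cancel_left₀ hl.ne']
      rw [h3, ← intervalIntegral.integral_const_mul, ← intervalIntegral.integral_const_mul]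
      refine intervalIntegral.integral_congr fun x _ => ?_
      have : (l * x + r - r) / l = x := by field_simp; ring
      simp only [this]; ring
    · refine Measure.integrableOn_of_bounded (M := (r + l) * (2 * π)) ?_ ?_ ?_
      · rw [Real.volume_Ioo]; exact ENNReal.ofReal_ne_top
      · exact (measurable_id.mul (measurable_const.mul hpm)).aestronglyMeasurable
      · refine (ae_restrict_iff' measurableSet_Ioo).2 (ae_of_all _ fun ρ hρ => ?_)
        have hs0 : 0 ≤ (ρ - r) / l := div_nonneg (by linarith [hρ.1]) hl.le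
        have hs1 : (ρ - r) / l ≤ 1 := by rw [div_le_one hl]; linarith [hρ.2]
        have hp0 := prof_nonneg r ((ρ - r) / l)
        have hp1 := prof_le_one hi hs0 hs1
        have hρ0 : 0 ≤ ρ := by linarith [hρ.1]
        rw [Real.norm_eq_abs, abs_of_nonneg (by positivity)]
        have : 2 * π * prof r ((ρ - r) / l) ≤ 2 * π := by nlinarith [Real.pi_pos]
        apply mul_le_mul hρ.2.le this (by positivity) (by linarith)
    · refine (ae_restrict_iff' measurableSet_Ioo).2 (ae_of_all _ fun ρ hρ => ?_)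
      have hp0 := prof_nonneg r ((ρ - r) / l)
      have hρ0 : 0 ≤ ρ := by linarith [hρ.1]
      simp only [Pi.zero_apply]; positivity
  rw [hA, hB] at hmain
  have hreal := ENNReal.toReal_mono (by
    rw [ENNReal.add_ne_top]; exact ⟨(volume_cell_lt_top P M i).ne, ENNReal.ofReal_ne_top⟩) hmain
  have hfin : ∀ j, volume (cell P M i ∩ ball (P.c j) (P.r j)) ≠ ⊤ := fun j =>
    (lt_of_le_of_lt (measure_mono inter_subset_left) (volume_cell_lt_top P M i)).ne
  have hI0 : 0 ≤ ∫ s in (0 : ℝ)..1, prof r s * ((r + l * s) * l) := by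
    apply intervalIntegral.integral_nonneg (by norm_num)
    intro s hs
    have := prof_nonneg r s
    have : 0 ≤ l * s := mul_nonneg hl.le hs.1
    have : 0 ≤ r := by linarith
    positivity
  rw [ENNReal.toReal_add ENNReal.ofReal_ne_top, ENNReal.toReal_add (volume_cell_lt_top P M i).ne
    ENNReal.ofReal_ne_top, ENNReal.toReal_ofReal, ENNReal.toReal_ofReal, ENNReal.toReal_sum] at hreal
  rotate_left
  · exact fun j _ => ENNReal.mul_ne_top ENNReal.ofReal_ne_top (hfin j)
  · positivity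
  · have : 0 ≤ (ang Mᶜ).toReal := ENNReal.toReal_nonneg
    have : 0 ≤ r := by linarith
    positivity
  · exact (ENNReal.sum_lt_top.2 fun j _ => ENNReal.mul_lt_top ENNReal.ofReal_lt_top
      (hfin j).lt_top).ne
  have hsum : ∑ j ∈ F.filter (fun j => P.r j ≤ 5 / 2), (ENNReal.ofReal (wt (P.r j)) *
      volume (cell P M i ∩ ball (P.c j) (P.r j))).toReal =
      ∑ j ∈ F.filter (fun j => P.r j ≤ 5 / 2),
        wt (P.r j) * (volume (cell P M i ∩ ball (P.c j) (P.r j))).toReal := by
    refine Finset.sum_congr rfl fun j hj => ?_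
    have := ((hF j).1 (Finset.mem_filter.1 hj).1).2
    rw [ENNReal.toReal_mul, ENNReal.toReal_ofReal (wt_nonneg this.le)]
  rw [hsum, ang_compl_toReal M hM] at hreal
  -- the integral
  have hint : IntervalIntegrable (fun s => prof r s * ((r + l * s) * l)) volume 0 1 := by
    rw [intervalIntegrable_iff_integrableOn_Ioc_of_le (by norm_num)]
    refine Measure.integrableOn_of_bounded (M := (r + l) * l) ?_ ?_ ?_
    · rw [Real.volume_Ioc]; exact ENNReal.ofReal_ne_top
    · exact ((measurable_prof r).mul (by fun_prop)).aestronglyMeasurable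
    · refine (ae_restrict_iff' measurableSet_Ioc).2 (ae_of_all _ fun s hs => ?_)
      have hp0 := prof_nonneg r s
      have hp1 := prof_le_one hi hs.1.le hs.2
      have h0 : 0 ≤ (r + l * s) * l := by
        have : 0 ≤ l * s := mul_nonneg hl.le hs.1.le
        have : 0 ≤ r := by linarith
        positivity
      rw [Real.norm_eq_abs, abs_of_nonneg (mul_nonneg hp0 h0)]
      calc prof r s * ((r + l * s) * l) ≤ 1 * ((r + l * s) * l) := by gcongr
        _ ≤ (r + l) * l := by
          rw [one_mul]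
          have : l * s ≤ l := by nlinarith [hs.2]
          gcongr
  have hint2 : IntervalIntegrable (fun s => (r + l * s) * l) volume 0 1 :=
    (by fun_prop : Continuous fun s : ℝ => (r + l * s) * l).intervalIntegrable _ _
  have hsplit : ∫ s in (0 : ℝ)..1, (1 - prof r s) * ((r + lam r * s) * lam r) =
      (r * l + l ^ 2 / 2) - ∫ s in (0 : ℝ)..1, prof r s * ((r + l * s) * l) := by
    have h1 : ∫ s in (0 : ℝ)..1, (r + l * s) * l = r * l + l ^ 2 / 2 := by
      have : ∀ s : ℝ, (r + l * s) * l = r * l + l ^ 2 * s := fun s => by ring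
      simp only [this]
      rw [intervalIntegral.integral_add intervalIntegrable_const (by
        exact (by fun_prop : Continuous fun s : ℝ => l ^ 2 * s).intervalIntegrable _ _)]
      rw [intervalIntegral.integral_const, intervalIntegral.integral_const_mul, integral_id]
      simp; ring
    rw [← h1, ← intervalIntegral.integral_sub hint2 hint]
    refine intervalIntegral.integral_congr fun s _ => ?_
    simp only [← hldef]; ring
  have hpi := prof_integral hi
  rw [hsplit] at hpi
  have hM0 : 0 ≤ (ang M).toReal := ENNReal.toReal_nonneg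
  have hrl : r * l + l ^ 2 / 2 ≤ r + 1 / 2 := by nlinarith
  have hmul : (r * l + l ^ 2 / 2) * (ang M).toReal ≤ (r + 1 / 2) * (ang M).toReal := by gcongr
  nlinarith [Real.pi_pos]

end DiskDim
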