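import Mathlib
import Pool.Agent.DiskDim.Defs
import Pool.Agent.DiskDim.Geo
import Pool.Agent.DiskDim.Polar

/-! # DD/SecSum: sums of areas of sectors of disjoint disks (used by Err and Kill) -/

open MeasureTheory Set Metric Real
open scoped ENNReal NNReal

namespace DiskDim

namespace SS

set_option linter.unusedVariables false

variable {ι : Type}

theorem continuous_pt (P : Pack ι) (i : ι) (ρ : ℝ) : Continuous (fun θ => P.pt i ρ θ) := by
  unfold Pack.pt
  exact continuous_const.add (continuous_const.mul continuous_e)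

theorem ang_lt_top (M : Set ℝ) : ang M < ⊤ := by
  refine lt_of_le_of_lt (measure_mono (subset_univ M)) ?_
  unfold ang
  rw [Measure.restrict_apply_univ, Real.volume_Ioc]
  exact ENNReal.ofReal_lt_top

theorem ang_mono {M M' : Set ℝ} (h : M ⊆ M') : (ang M).toReal ≤ (ang M').toReal :=
  ENNReal.toReal_mono (ang_lt_top _).ne (measure_mono h)

/-- distance between two points on the same ray -/
theorem dist_ray (c : ℂ) (a b θ : ℝ) :
    dist (c + (a : ℂ) * e θ) (c + (b : ℂ) * e θ) = |a - b| := by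
  have h := dist_sq c a b θ θ
  rw [sub_self, zero_div, Real.sin_zero] at h
  have h2 : dist (c + (a : ℂ) * e θ) (c + (b : ℂ) * e θ) ^ 2 = (a - b) ^ 2 := by
    rw [h]; ring
  have h3 : |dist (c + (a : ℂ) * e θ) (c + (b : ℂ) * e θ)| = |a - b| := sq_eq_sq_iff_abs_eq_abs _ _ |>.1 h2
  rwa [abs_of_nonneg dist_nonneg] at h3

theorem sector_sub_ball (P : Pack ι) (i : ι) {a : ℝ} (ha : 0 ≤ a) (M : Set ℝ) :
    sector (P.c i) a (P.r i) M ⊆ ball (P.c i) (P.r i) := by
  rintro x ⟨ρ, θ, h1, h2, h3, h4, rfl⟩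
  rw [mem_ball]
  have := dist_pt_center P i (le_of_lt (lt_of_le_of_lt ha h1)) θ
  unfold Pack.pt at this
  rw [this]
  exact h2

theorem balls_disj (P : Pack ι) {i j : ι} (h : i ≠ j) :
    Disjoint (ball (P.c i) (P.r i)) (ball (P.c j) (P.r j)) :=
  ball_disjoint_ball (P.dj i j h)

/-- sectors of disjoint disks inside `T` have total area at most that of `T` -/
theorem sum_sector_le (P : Pack ι) (L : Finset ι) (a : ι → ℝ)
    (ha : ∀ i ∈ L, 0 ≤ a i ∧ a i ≤ P.r i) (M : ι → Set ℝ) (hM : ∀ i, MeasurableSet (M i))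
    {T : Set ℂ} {τ : ℝ} (hτ : 0 ≤ τ) (hvol : volume T ≤ ENNReal.ofReal τ)
    (hT : ∀ i ∈ L, sector (P.c i) (a i) (P.r i) (M i) ⊆ T) :
    ∑ i ∈ L, (ang (M i)).toReal * ((P.r i ^ 2 - a i ^ 2) / 2) ≤ τ := by
  have h1 : ∑ i ∈ L, volume (sector (P.c i) (a i) (P.r i) (M i)) =
      volume (⋃ i ∈ L, sector (P.c i) (a i) (P.r i) (M i)) := by
    rw [measure_biUnion_finset]
    · intro i hi j hj hij
      exact (balls_disj P hij).mono (sector_sub_ball P i (ha i hi).1 _)
        (sector_sub_ball P j (ha j hj).1 _)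
    · intro i hi
      exact measurableSet_sector _ (ha i hi).1 _ (hM i)
  have h2 : ∑ i ∈ L, volume (sector (P.c i) (a i) (P.r i) (M i)) ≤ ENNReal.ofReal τ := by
    rw [h1]
    exact (measure_mono (iUnion₂_subset hT)).trans hvol
  have h3 : ∑ i ∈ L, (ang (M i)).toReal * ((P.r i ^ 2 - a i ^ 2) / 2) =
      (∑ i ∈ L, volume (sector (P.c i) (a i) (P.r i) (M i))).toReal := by
    rw [ENNReal.toReal_sum]
    · refine Finset.sum_congr rfl fun i hi => ?_
      obtain ⟨h0, h5⟩ := ha i hi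
      rw [volume_sector _ h0 h5 _ (hM i), ENNReal.toReal_mul, ENNReal.toReal_ofReal]
      nlinarith
    · intro i hi
      obtain ⟨h0, h5⟩ := ha i hi
      rw [volume_sector _ h0 h5 _ (hM i)]
      exact ENNReal.mul_ne_top (ang_lt_top _).ne ENNReal.ofReal_ne_top
  rw [h3]
  exact ENNReal.toReal_le_of_le_ofReal hτ h2

theorem volume_ball_le (x : ℂ) {ρ : ℝ} (hρ : 0 ≤ ρ) :
    volume (ball x ρ) = ENNReal.ofReal (π * ρ ^ 2) := by
  rw [Complex.volume_ball, mul_comm, ENNReal.ofReal_mul Real.pi_pos.le, ENNReal.ofReal_pow hρ]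
  congr 1
  rw [← NNReal.coe_real_pi, ENNReal.ofReal_coe_nnreal]

end SS

end DiskDim
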