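import Mathlib
import Pool.Agent.DiskDim.Defs
import Pool.Agent.DiskDim.Geo
import Pool.Agent.DiskDim.Polar
import Pool.Agent.DiskDim.SecSum

/-! # DD/Err: the total angle near the killed balls -/

open MeasureTheory Set Metric Real
open scoped ENNReal NNReal

namespace DiskDim

set_option linter.unusedVariables false

variable {ι : Type}

namespace SS

/-- directions whose boundary point is in the ball `(x, ρ)` -/
def hit (P : Pack ι) (x : ℂ) (ρ : ℝ) (i : ι) : Set ℝ := {θ | P.pt i (P.r i) θ ∈ ball x ρ}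

theorem measurableSet_hit (P : Pack ι) (x : ℂ) (ρ : ℝ) (i : ι) : MeasurableSet (hit P x ρ i) :=
  (isOpen_ball.preimage (continuous_pt P i (P.r i))).measurableSet

theorem Mset_eq (P : Pack ι) (K : Finset (ℂ × ℝ)) (i : ι) :
    Mset P K i = ⋃ k ∈ K, hit P k.1 (k.2 + 6) i := by
  ext θ
  simp only [Mset, hit, mem_ofPred_eq, mem_iUnion, exists_prop]

end SS

open SS

theorem measurableSet_Mset (P : Pack ι) (K : Finset (ℂ × ℝ)) (i : ι) :
    MeasurableSet (Mset P K i) := by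
  rw [Mset_eq]
  exact Finset.measurableSet_biUnion _ fun k _ => measurableSet_hit P _ _ i

namespace SS

theorem ang_Mset_le (P : Pack ι) (K : Finset (ℂ × ℝ)) (i : ι) :
    (ang (Mset P K i)).toReal ≤ ∑ k ∈ K, (ang (hit P k.1 (k.2 + 6) i)).toReal := by
  rw [← ENNReal.toReal_sum fun k _ => (ang_lt_top _).ne]
  refine ENNReal.toReal_mono (ENNReal.sum_lt_top.2 fun k _ => ang_lt_top _).ne ?_
  rw [Mset_eq]
  exact measure_biUnion_finset_le _ _

/-- a point of a sector is close to the boundary point on its ray -/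
theorem dist_foot (P : Pack ι) (i : ι) {a ρ θ : ℝ} (h1 : P.r i - a < ρ) (h2 : ρ < P.r i) :
    dist (P.c i + (ρ : ℂ) * e θ) (P.pt i (P.r i) θ) < a := by
  unfold Pack.pt
  rw [dist_ray, abs_of_neg (by linarith)]
  linarith

/-- the disks of radius at most `ρ` -/
theorem err_small (P : Pack ι) (x : ℂ) {ρ : ℝ} (hρ : 1 ≤ ρ) (L : Finset ι)
    (hL : ∀ i ∈ L, 5 / 2 < P.r i ∧ ∀ θ, P.pt i (P.r i) θ ∉ ball x ρ) :
    ∑ i ∈ L, P.r i * (ang (hit P x (ρ + 6) i)).toReal ≤ 128 * π * ρ := by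
  have key := sum_sector_le P L (fun i => P.r i - 1)
    (fun i hi => ⟨by linarith [(hL i hi).1], by linarith⟩) (fun i => hit P x (ρ + 6) i)
    (fun i => measurableSet_hit P x (ρ + 6) i) (T := ball x (ρ + 7) \ ball x (ρ - 1))
    (τ := 64 * π * ρ) (by have := Real.pi_pos; positivity) ?_ ?_
  · have h2 : ∑ i ∈ L, P.r i * (ang (hit P x (ρ + 6) i)).toReal ≤
        ∑ i ∈ L, 2 * ((ang (hit P x (ρ + 6) i)).toReal * ((P.r i ^ 2 - (P.r i - 1) ^ 2) / 2)) := by
      refine Finset.sum_le_sum fun i hi => ?_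
      have h0 : 0 ≤ (ang (hit P x (ρ + 6) i)).toReal := ENNReal.toReal_nonneg
      have h1 := (hL i hi).1
      nlinarith [mul_nonneg h0 (by linarith : (0 : ℝ) ≤ P.r i - 1)]
    rw [← Finset.mul_sum] at h2
    linarith
  · rw [measure_sdiff (ball_subset_ball (by linarith)) measurableSet_ball.nullMeasurableSet
      (by rw [volume_ball_le _ (by linarith)]; exact ENNReal.ofReal_ne_top),
      volume_ball_le _ (by linarith), volume_ball_le _ (by linarith), ← ENNReal.ofReal_sub]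
    · apply ENNReal.ofReal_le_ofReal
      nlinarith [Real.pi_pos]
    · have := Real.pi_pos; positivity
  · rintro i hi y ⟨t, θ, h1, h2, h3, h4, rfl⟩
    have h5 := dist_foot P i (a := 1) (ρ := t) (θ := θ) h1 h2
    have h6 : dist (P.pt i (P.r i) θ) x < ρ + 6 := h4
    have h7 : ρ ≤ dist (P.pt i (P.r i) θ) x := not_lt.1 ((hL i hi).2 θ)
    refine ⟨?_, ?_⟩
    · rw [mem_ball]
      linarith [dist_triangle (P.c i + (t : ℂ) * e θ) (P.pt i (P.r i) θ) x]
    · rw [mem_ball, not_lt]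
      linarith [dist_triangle_left (P.pt i (P.r i) θ) x (P.c i + (t : ℂ) * e θ)]

/-- the disks of radius more than `ρ` -/
theorem err_large (P : Pack ι) (x : ℂ) {ρ : ℝ} (hρ : 1 ≤ ρ) (L : Finset ι)
    (hL : ∀ i ∈ L, ρ < P.r i) :
    ∑ i ∈ L, P.r i * (ang (hit P x (ρ + 6) i)).toReal ≤ 128 * π * ρ := by
  have key := sum_sector_le P L (fun i => P.r i - ρ)
    (fun i hi => ⟨by linarith [hL i hi], by linarith⟩) (fun i => hit P x (ρ + 6) i)
    (fun i => measurableSet_hit P x (ρ + 6) i) (T := ball x (2 * ρ + 6))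
    (τ := 64 * π * ρ ^ 2) (by have := Real.pi_pos; positivity) ?_ ?_
  · have h2 : ρ * ∑ i ∈ L, P.r i * (ang (hit P x (ρ + 6) i)).toReal ≤
        ∑ i ∈ L, 2 * ((ang (hit P x (ρ + 6) i)).toReal * ((P.r i ^ 2 - (P.r i - ρ) ^ 2) / 2)) := by
      rw [Finset.mul_sum]
      refine Finset.sum_le_sum fun i hi => ?_
      have h0 : 0 ≤ (ang (hit P x (ρ + 6) i)).toReal := ENNReal.toReal_nonneg
      have h1 := hL i hi
      nlinarith [mul_nonneg h0 (mul_nonneg (by linarith : (0 : ℝ) ≤ ρ)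
        (by linarith : (0 : ℝ) ≤ P.r i - ρ))]
    rw [← Finset.mul_sum] at h2
    have h3 : ρ * ∑ i ∈ L, P.r i * (ang (hit P x (ρ + 6) i)).toReal ≤ ρ * (128 * π * ρ) := by
      nlinarith
    exact le_of_mul_le_mul_left h3 (by linarith)
  · rw [volume_ball_le _ (by linarith)]
    apply ENNReal.ofReal_le_ofReal
    have : (2 * ρ + 6) ^ 2 ≤ 64 * ρ ^ 2 := by nlinarith
    nlinarith [Real.pi_pos]
  · rintro i hi y ⟨t, θ, h1, h2, h3, h4, rfl⟩
    have h5 := dist_foot P i (a := ρ) (ρ := t) (θ := θ) h1 h2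
    have h6 : dist (P.pt i (P.r i) θ) x < ρ + 6 := h4
    rw [mem_ball]
    linarith [dist_triangle (P.c i + (t : ℂ) * e θ) (P.pt i (P.r i) θ) x]

end SS

theorem err_bound (P : Pack ι) (K : Finset (ℂ × ℝ)) (hK : ∀ k ∈ K, 1 ≤ k.2) (L : Finset ι)
    (hL : ∀ i ∈ L, 5 / 2 < P.r i ∧ ¬ dead P K i) :
    ∑ i ∈ L, (P.r i + 1 / 2) * (ang (Mset P K i)).toReal ≤ 1000 * ∑ k ∈ K, k.2 := by
  classical
  have h1 : ∑ i ∈ L, (P.r i + 1 / 2) * (ang (Mset P K i)).toReal ≤
      ∑ i ∈ L, (6 / 5) * ∑ k ∈ K, P.r i * (ang (hit P k.1 (k.2 + 6) i)).toReal := by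
    refine Finset.sum_le_sum fun i hi => ?_
    rw [← Finset.mul_sum, ← mul_assoc]
    have hr := (hL i hi).1
    have ha := ang_Mset_le P K i
    have h0 : 0 ≤ (ang (Mset P K i)).toReal := ENNReal.toReal_nonneg
    exact mul_le_mul (by linarith) ha h0 (by linarith)
  refine h1.trans ?_
  rw [← Finset.mul_sum, Finset.sum_comm]
  have h2 : ∑ k ∈ K, ∑ i ∈ L, P.r i * (ang (hit P k.1 (k.2 + 6) i)).toReal ≤
      ∑ k ∈ K, 256 * π * k.2 := by
    refine Finset.sum_le_sum fun k hk => ?_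
    have h3 := err_small P k.1 (hK k hk) (L.filter fun i => P.r i ≤ k.2) (fun i hi => by
      rw [Finset.mem_filter] at hi
      refine ⟨(hL i hi.1).1, fun θ hθ => (hL i hi.1).2 ⟨k, hk, hi.2, θ, hθ⟩⟩)
    have h4 := err_large P k.1 (hK k hk) (L.filter fun i => ¬ P.r i ≤ k.2) (fun i hi => by
      rw [Finset.mem_filter] at hi
      exact not_le.1 hi.2)
    rw [← Finset.sum_filter_add_sum_filter_not L (fun i => P.r i ≤ k.2)]
    linarith
  rw [← Finset.mul_sum] at h2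
  have h5 : 0 ≤ ∑ k ∈ K, k.2 := Finset.sum_nonneg fun k hk => by linarith [hK k hk]
  have h6 : 256 * π ≤ 256 * 3.15 := by nlinarith [Real.pi_lt_d2]
  nlinarith

end DiskDim
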