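import Mathlib
import Pool.Agent.DiskDim.Defs
import Pool.Agent.DiskDim.Geo
import Pool.Agent.DiskDim.Basic
import Pool.Agent.DiskDim.Cell
import Pool.Agent.DiskDim.Err

/-! # DD/CI: the geometric inequality at scale one -/

open MeasureTheory Set Metric Real
open scoped ENNReal NNReal

namespace DiskDim

variable {ι : Type}

theorem cell_disjoint (P : Pack ι) (M M' : Set ℝ) (i j : ι) (hij : i ≠ j)
    (hi : 5 / 2 < P.r i) (hj : 5 / 2 < P.r j) : Disjoint (cell P M i) (cell P M' j) := by
  rw [Set.disjoint_left]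
  rintro x ⟨s, θ, hs0, hs1, -, -, hx, -, hx2⟩ ⟨s', θ', hs0', hs1', -, -, hx', -, hx2'⟩
  have hli := lam_pos hi
  have hlj := lam_pos hj
  have h1 : dist x (P.c i) = P.r i + lam (P.r i) * s := by
    rw [hx]; exact dist_pt_center P i (by nlinarith) θ
  have h2 : dist x (P.c j) = P.r j + lam (P.r j) * s' := by
    rw [hx']; exact dist_pt_center P j (by nlinarith) θ'
  have h3 := hx2 j hij.symm hj
  have h4 := hx2' i hij hi
  rw [h2] at h3
  rw [h1] at h4
  have h5 : s < s' := by
    by_contra h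
    push Not at h
    nlinarith
  have h6 : s' < s := by
    by_contra h
    push Not at h
    nlinarith
  linarith

theorem cell_disjoint_ball (P : Pack ι) (M : Set ℝ) (i j : ι)
    (hi : 5 / 2 < P.r i) (hj : 5 / 2 < P.r j) :
    Disjoint (cell P M i) (ball (P.c j) (P.r j)) := by
  rw [Set.disjoint_left]
  rintro x ⟨s, θ, hs0, hs1, -, -, hx, -, hx2⟩ hxj
  rw [mem_ball] at hxj
  have hli := lam_pos hi
  have hlj := lam_pos hj
  by_cases hij : j = i
  · subst hij
    have h1 : dist x (P.c j) = P.r j + lam (P.r j) * s := by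
      rw [hx]; exact dist_pt_center P j (by nlinarith) θ
    nlinarith
  · have := hx2 j hij hj
    nlinarith

/-- a disk of radius at most `5/2` meeting a cell over the directions outside `Mset` is
entirely alive -/
theorem mass_of_meets_cell (P : Pack ι) (K : Finset (ℂ × ℝ)) (i j : ι)
    (hi : 5 / 2 < P.r i) (hj : P.r j ≤ 5 / 2)
    (h : (cell P (Mset P K i) i ∩ ball (P.c j) (P.r j)).Nonempty) : mass P K j = 2 * π := by
  obtain ⟨x, ⟨s, θ, hs0, hs1, -, hM, hx, -, -⟩, hxj⟩ := h
  rw [mem_ball] at hxj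
  have hli := lam_pos hi
  have hli1 := lam_lt_one hi
  have hfoot : dist x (P.pt i (P.r i) θ) < 1 := by
    rw [hx, Complex.dist_eq]
    unfold Pack.pt
    have : P.c i + ((P.r i + lam (P.r i) * s : ℝ) : ℂ) * e θ - (P.c i + ((P.r i : ℝ) : ℂ) * e θ) =
        ((lam (P.r i) * s : ℝ) : ℂ) * e θ := by push_cast; ring
    rw [this, norm_mul, norm_e, mul_one, Complex.norm_real, Real.norm_eq_abs,
      abs_of_nonneg (by positivity)]
    nlinarith
  have key : ∀ y : ℂ, dist y (P.c j) ≤ P.r j → ∀ k ∈ K, y ∉ ball k.1 k.2 := by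
    intro y hy k hk hyk
    rw [mem_ball] at hyk
    apply hM
    refine ⟨k, hk, ?_⟩
    rw [mem_ball]
    have h1 : dist (P.pt i (P.r i) θ) k.1 ≤ dist (P.pt i (P.r i) θ) x + dist x (P.c j) +
        dist (P.c j) y + dist y k.1 := by
      have a1 := dist_triangle (P.pt i (P.r i) θ) x k.1
      have a2 := dist_triangle x (P.c j) k.1
      have a3 := dist_triangle (P.c j) y k.1
      linarith
    rw [dist_comm] at hfoot
    rw [dist_comm (P.c j) y] at h1
    linarith
  have hdead : ¬ dead P K j := by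
    rintro ⟨k, hk, -, φ, hφ⟩
    exact key _ (dist_pt_center P j (P.rpos j).le φ).le k hk hφ
  rw [mass_of_not_dead hdead]
  have : aliveSet P K j = univ := by
    ext φ
    simp only [mem_univ, iff_true]
    intro k hk
    exact key _ (dist_pt_center P j (P.rpos j).le φ).le k hk
  rw [this, ang_univ_basic, ENNReal.toReal_ofReal (by positivity)]

theorem vol_tsum [Countable ι] (P : Pack ι) (hnull : volume P.res = 0) {Z : Set ℂ}
    (hZ : MeasurableSet Z) (hsub : Z ⊆ closedBall 0 P.R) :
    (volume Z).toReal = ∑' j, (volume (Z ∩ ball (P.c j) (P.r j))).toReal ∧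
    Summable (fun j => (volume (Z ∩ ball (P.c j) (P.r j))).toReal) := by
  have hfin : volume Z < ⊤ := lt_of_le_of_lt (measure_mono hsub) measure_closedBall_lt_top
  have hm : MeasurableSet (⋃ j, ball (P.c j) (P.r j)) :=
    MeasurableSet.iUnion fun j => measurableSet_ball
  have h1 := measure_inter_add_sdiff (μ := volume) Z hm
  have h2 : volume (Z \ ⋃ j, ball (P.c j) (P.r j)) = 0 := by
    refine measure_mono_null ?_ hnull
    exact sdiff_subset_sdiff_left hsub
  rw [h2, add_zero, inter_iUnion] at h1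
  have h3 : volume (⋃ j, Z ∩ ball (P.c j) (P.r j)) = ∑' j, volume (Z ∩ ball (P.c j) (P.r j)) := by
    refine measure_iUnion ?_ fun j => hZ.inter measurableSet_ball
    intro a b hab
    exact (ball_disj P hab).mono inter_subset_right inter_subset_right
  rw [h3] at h1
  have hne : ∑' j, volume (Z ∩ ball (P.c j) (P.r j)) ≠ ⊤ := by rw [h1]; exact hfin.ne
  refine ⟨?_, ENNReal.summable_toReal hne⟩
  rw [← h1, ENNReal.tsum_toReal_eq fun j => ?_]
  exact (lt_of_le_of_lt (measure_mono inter_subset_left) hfin).ne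

theorem CI [Countable ι] (P : Pack ι) (hnull : volume P.res = 0)
    (hR : ∀ i, P.r i + 3 ≤ P.R) (K : Finset (ℂ × ℝ)) (hK : ∀ k ∈ K, 1 ≤ k.2)
    (B : Finset ι) (hB : ∀ i, i ∈ B ↔ 1 < P.r i) :
    ∑ i ∈ B, mass P K i * (P.r i / 3 - 5 / 6) ≤
      ∑' i, (if P.r i ≤ 1 then mass P K i * (P.r i ^ 2 / 2) else 0) + 1000 * ∑ k ∈ K, k.2 := by
  classical
  set L : Finset ι := B.filter (fun i => 5 / 2 < P.r i ∧ ¬ dead P K i) with hLdef
  set S : Finset ι := B.filter (fun i => P.r i ≤ 5 / 2) with hSdef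
  set Z : ι → Set ℂ := fun i => cell P (Mset P K i) i with hZdef
  have hL : ∀ i ∈ L, 5 / 2 < P.r i ∧ ¬ dead P K i := fun i hi => (Finset.mem_filter.1 hi).2
  have hFi : ∀ i, ∀ j, j ∈ B.erase i ↔ j ≠ i ∧ 1 < P.r j := by
    intro i j; rw [Finset.mem_erase, hB]
  have hFS : ∀ i ∈ L, (B.erase i).filter (fun j => P.r j ≤ 5 / 2) = S := by
    intro i hi
    ext j
    simp only [hSdef, Finset.mem_filter, Finset.mem_erase]
    constructor
    · rintro ⟨⟨_, h1⟩, h2⟩; exact ⟨h1, h2⟩
    · rintro ⟨h1, h2⟩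
      refine ⟨⟨?_, h1⟩, h2⟩
      rintro rfl
      linarith [(hL _ hi).1]
  have hZm : ∀ i ∈ L, MeasurableSet (Z i) := fun i hi =>
    measurableSet_cell P _ (measurableSet_Mset P K i) i (hL i hi).1 (B.erase i) (hFi i)
  have hZsub : ∀ i, Z i ⊆ closedBall 0 P.R := fun i => cell_subset P _ i
  -- volumes
  set v : ι → ι → ℝ := fun i j => (volume (Z i ∩ ball (P.c j) (P.r j))).toReal with hv
  have hv0 : ∀ i j, 0 ≤ v i j := fun i j => ENNReal.toReal_nonneg
  have hcell : ∀ i ∈ L, 2 * π * (P.r i / 3 - 5 / 6) - (P.r i + 1 / 2) * (ang (Mset P K i)).toReal ≤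
      (volume (Z i)).toReal - ∑ j ∈ S, wt (P.r j) * v i j := by
    intro i hi
    have := cell_lower P (Mset P K i) (measurableSet_Mset P K i) i (hL i hi).1 (hR i) (B.erase i)
      (hFi i)
    rw [hFS i hi] at this
    exact this
  have hsumcell := Finset.sum_le_sum hcell
  rw [Finset.sum_sub_distrib, Finset.sum_sub_distrib, Finset.sum_comm] at hsumcell
  have herr := err_bound P K hK L hL
  -- V j
  set V : ι → ℝ := fun j => ∑ i ∈ L, v i j with hV
  have hV0 : ∀ j, 0 ≤ V j := fun j => Finset.sum_nonneg fun i _ => hv0 i j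
  have hVsum : Summable V := by
    have : V = fun j => ∑ i ∈ L, v i j := rfl
    rw [this]
    exact summable_sum fun i hi => (vol_tsum P hnull (hZm i hi) (hZsub i)).2
  have hVtot : ∑ i ∈ L, (volume (Z i)).toReal = ∑' j, V j := by
    have h1 : ∑ i ∈ L, (volume (Z i)).toReal = ∑ i ∈ L, ∑' j, v i j :=
      Finset.sum_congr rfl fun i hi => (vol_tsum P hnull (hZm i hi) (hZsub i)).1
    rw [h1]
    exact (Summable.tsum_finsetSum fun i hi => (vol_tsum P hnull (hZm i hi) (hZsub i)).2).symm
  have hVle : ∀ j, V j ≤ π * P.r j ^ 2 := by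
    intro j
    have h1 : volume (⋃ i ∈ L, Z i ∩ ball (P.c j) (P.r j)) =
        ∑ i ∈ L, volume (Z i ∩ ball (P.c j) (P.r j)) := by
      refine measure_biUnion_finset ?_ fun i hi => (hZm i hi).inter measurableSet_ball
      intro a ha b hb hab
      exact (cell_disjoint P _ _ a b hab (hL a ha).1 (hL b hb).1).mono inter_subset_left
        inter_subset_left
    have h2 : volume (⋃ i ∈ L, Z i ∩ ball (P.c j) (P.r j)) ≤ ENNReal.ofReal (π * P.r j ^ 2) := by
      rw [← volume_ball_complex (P.c j) (P.rpos j).le]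
      exact measure_mono (iUnion₂_subset fun i _ => inter_subset_right)
    rw [h1] at h2
    have h3 := ENNReal.toReal_mono ENNReal.ofReal_ne_top h2
    rw [ENNReal.toReal_ofReal (by positivity), ENNReal.toReal_sum] at h3
    · exact h3
    · intro i _
      exact (lt_of_le_of_lt (measure_mono inter_subset_right) measure_ball_lt_top).ne
  have hVlarge : ∀ j, 5 / 2 < P.r j → V j = 0 := by
    intro j hj
    refine Finset.sum_eq_zero fun i hi => ?_
    have : Z i ∩ ball (P.c j) (P.r j) = ∅ :=
      (cell_disjoint_ball P _ i j (hL i hi).1 hj).inter_eq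
    simp only [hv, this]; simp
  have hVmass : ∀ j, P.r j ≤ 5 / 2 → V j = 0 ∨ mass P K j = 2 * π := by
    intro j hj
    by_cases h : ∃ i ∈ L, (Z i ∩ ball (P.c j) (P.r j)).Nonempty
    · obtain ⟨i, hi, hne⟩ := h
      exact Or.inr (mass_of_meets_cell P K i j (hL i hi).1 hj hne)
    · left
      push Not at h
      refine Finset.sum_eq_zero fun i hi => ?_
      have := h i hi
      simp only [hv, this]; simp
  -- tiny
  set T : ι → ℝ := fun j => if P.r j ≤ 1 then mass P K j * (P.r j ^ 2 / 2) else 0 with hT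
  have hT0 : ∀ j, 0 ≤ T j := by
    intro j; simp only [hT]
    split_ifs
    · exact mul_nonneg (mass_nonneg P K j) (by positivity)
    · exact le_rfl
  have hTsum : Summable T := by
    refine Summable.of_nonneg_of_le hT0 (fun j => ?_) ((summable_sq P).mul_left π)
    simp only [hT]
    split_ifs
    · have := mass_le P K j
      nlinarith [sq_nonneg (P.r j)]
    · positivity
  set Sf : ι → ℝ := fun j => if j ∈ S then V j else 0 with hSf
  have hSfsum : Summable Sf := summable_of_ne_finset_zero (s := S) fun j hj => by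
    simp only [hSf, if_neg hj]
  have hSftot : ∑' j, Sf j = ∑ j ∈ S, V j := by
    rw [tsum_eq_sum (s := S) fun j hj => by simp only [hSf, if_neg hj]]
    exact Finset.sum_congr rfl fun j hj => by simp only [hSf, if_pos hj]
  have hVTS : ∀ j, V j ≤ T j + Sf j := by
    intro j
    by_cases h1 : P.r j ≤ 1
    · have hSj : j ∉ S := fun h => by
        have := (hB j).1 (Finset.mem_filter.1 h).1
        linarith
      simp only [hT, hSf, if_pos h1, if_neg hSj, add_zero]
      rcases hVmass j (by linarith) with h | h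
      · rw [h]; exact mul_nonneg (mass_nonneg P K j) (by positivity)
      · rw [h]; have := hVle j; linarith
    · push Not at h1
      by_cases h2 : P.r j ≤ 5 / 2
      · have hSj : j ∈ S := Finset.mem_filter.2 ⟨(hB j).2 h1, h2⟩
        simp only [hT, hSf, if_pos hSj, if_neg (not_le.2 h1), zero_add, le_refl]
      · push Not at h2
        rw [hVlarge j h2]
        have := hT0 j
        have : 0 ≤ Sf j := by
          simp only [hSf]; split_ifs
          · exact hV0 j
          · exact le_rfl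
        linarith [hT0 j]
  have hVtot2 : ∑' j, V j ≤ ∑' j, T j + ∑ j ∈ S, V j := by
    rw [← hSftot, ← Summable.tsum_add hTsum hSfsum]
    exact Summable.tsum_le_tsum hVTS hVsum (hTsum.add hSfsum)
  -- small disks
  have hsmall : ∀ j ∈ S, V j - wt (P.r j) * V j ≤ mass P K j * (5 / 6 - P.r j / 3) := by
    intro j hj
    have hj1 : 1 < P.r j := (hB j).1 (Finset.mem_filter.1 hj).1
    have hj2 : P.r j ≤ 5 / 2 := (Finset.mem_filter.1 hj).2
    rcases hVmass j hj2 with h | h
    · rw [h]
      have := mass_nonneg P K j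
      have : 0 ≤ mass P K j * (5 / 6 - P.r j / 3) := mul_nonneg this (by linarith)
      linarith
    · rw [h]
      have hw : 1 - wt (P.r j) = (5 - 2 * P.r j) / (3 * P.r j ^ 2) := by
        unfold wt; field_simp; ring
      have h1 : V j - wt (P.r j) * V j = (1 - wt (P.r j)) * V j := by ring
      rw [h1, hw]
      have h0 : 0 ≤ (5 - 2 * P.r j) / (3 * P.r j ^ 2) := div_nonneg (by linarith) (by positivity)
      calc (5 - 2 * P.r j) / (3 * P.r j ^ 2) * V j
          ≤ (5 - 2 * P.r j) / (3 * P.r j ^ 2) * (π * P.r j ^ 2) :=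
            mul_le_mul_of_nonneg_left (hVle j) h0
        _ = 2 * π * (5 / 6 - P.r j / 3) := by field_simp; ring
  have hsmallsum := Finset.sum_le_sum hsmall
  have hwV : ∑ j ∈ S, ∑ i ∈ L, wt (P.r j) * v i j = ∑ j ∈ S, wt (P.r j) * V j := by
    refine Finset.sum_congr rfl fun j _ => ?_
    simp only [hV, Finset.mul_sum]
  rw [hwV, hVtot] at hsumcell
  rw [Finset.sum_sub_distrib] at hsmallsum
  -- final: split B
  have hBsplit : ∑ i ∈ B, mass P K i * (P.r i / 3 - 5 / 6) =
      ∑ i ∈ S, mass P K i * (P.r i / 3 - 5 / 6) +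
      ∑ i ∈ B.filter (fun i => ¬ P.r i ≤ 5 / 2), mass P K i * (P.r i / 3 - 5 / 6) :=
    (Finset.sum_filter_add_sum_filter_not B _ _).symm
  have hlargesum : ∑ i ∈ B.filter (fun i => ¬ P.r i ≤ 5 / 2), mass P K i * (P.r i / 3 - 5 / 6) ≤
      ∑ i ∈ L, 2 * π * (P.r i / 3 - 5 / 6) := by
    have hLsub : L ⊆ B.filter (fun i => ¬ P.r i ≤ 5 / 2) := by
      intro i hi
      have := Finset.mem_filter.1 hi
      exact Finset.mem_filter.2 ⟨this.1, not_le.2 this.2.1⟩
    rw [← Finset.sum_subset hLsub]
    · refine Finset.sum_le_sum fun i hi => ?_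
      have h1 := (hL i hi).1
      exact mul_le_mul_of_nonneg_right (mass_le P K i) (by linarith)
    · intro i hi hiL
      have h1 := Finset.mem_filter.1 hi
      have : dead P K i := by
        by_contra hd
        exact hiL (Finset.mem_filter.2 ⟨h1.1, not_le.1 h1.2, hd⟩)
      rw [mass_of_dead this, zero_mul]
  have hneg : ∑ i ∈ S, mass P K i * (5 / 6 - P.r i / 3) =
      - ∑ i ∈ S, mass P K i * (P.r i / 3 - 5 / 6) := by
    rw [← Finset.sum_neg_distrib]
    exact Finset.sum_congr rfl fun i _ => by ring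
  rw [hneg] at hsmallsum
  rw [hBsplit]
  linarith

end DiskDim
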