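import Mathlib
import Pool.Agent.DiskDim.Defs
import Pool.Agent.DiskDim.Geo
import Pool.Agent.DiskDim.Polar
import Pool.Agent.DiskDim.Basic
import Pool.Agent.DiskDim.SecSum
import Pool.Agent.DiskDim.Err

/-! # DD/Kill: the cost of killing one more ball -/

open MeasureTheory Set Metric Real
open scoped ENNReal NNReal

namespace DiskDim

set_option linter.unusedVariables false

variable {ι : Type}

namespace SS

theorem mass_nonneg' (P : Pack ι) (K : Finset (ℂ × ℝ)) (i : ι) : 0 ≤ mass P K i := by
  unfold mass
  split_ifs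
  · exact le_rfl
  · exact ENNReal.toReal_nonneg

theorem mass_of_dead (P : Pack ι) (K : Finset (ℂ × ℝ)) (i : ι) (h : dead P K i) :
    mass P K i = 0 := by
  unfold mass
  rw [if_pos h]

theorem mass_of_not_dead (P : Pack ι) (K : Finset (ℂ × ℝ)) (i : ι) (h : ¬ dead P K i) :
    mass P K i = (ang (aliveSet P K i)).toReal := by
  unfold mass
  rw [if_neg h]

theorem ang_union_le (M M' : Set ℝ) :
    (ang (M ∪ M')).toReal ≤ (ang M).toReal + (ang M').toReal := by
  rw [← ENNReal.toReal_add (ang_lt_top _).ne (ang_lt_top _).ne]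
  exact ENNReal.toReal_mono (ENNReal.add_lt_top.2 ⟨ang_lt_top _, ang_lt_top _⟩).ne
    (measure_union_le _ _)

theorem volume_finite_inter (P : Pack ι) (i : ι) (T : Set ℂ) :
    volume (ball (P.c i) (P.r i) ∩ T) < ⊤ := by
  refine lt_of_le_of_lt (measure_mono inter_subset_left) ?_
  rw [volume_ball_le _ (P.rpos i).le]
  exact ENNReal.ofReal_lt_top

open Classical in
theorem kill_one (P : Pack ι) (K : Finset (ℂ × ℝ)) (l : ℂ × ℝ) (hl : 0 < l.2) (i : ι) :
    (mass P K i - mass P (insert l K) i) * hh (P.r i) l.2 ≤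
      (volume (ball (P.c i) (P.r i) ∩ ball l.1 (3 * l.2))).toReal := by
  have hri := P.rpos i
  have hh0 : 0 ≤ hh (P.r i) l.2 := hh_nonneg hri.le hl.le
  have hm' := mass_nonneg' P (insert l K) i
  by_cases hd : dead P K i
  · rw [mass_of_dead P K i hd]
    have : (0 - mass P (insert l K) i) * hh (P.r i) l.2 ≤ 0 := by nlinarith
    exact this.trans ENNReal.toReal_nonneg
  by_cases hr : P.r i ≤ l.2
  · by_cases hm : ∃ θ, P.pt i (P.r i) θ ∈ ball l.1 l.2
    · obtain ⟨θ, hθ⟩ := hm
      have h1 : ball (P.c i) (P.r i) ⊆ ball l.1 (3 * l.2) := by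
        intro y hy
        rw [mem_ball] at hy hθ ⊢
        have h2 := dist_pt_center P i hri.le θ
        have h3 := dist_triangle_left (P.c i) l.1 (P.pt i (P.r i) θ)
        linarith [dist_triangle y (P.c i) l.1]
      rw [inter_eq_left.2 h1, volume_ball_le _ hri.le,
        ENNReal.toReal_ofReal (by have := Real.pi_pos; positivity)]
      have h4 : mass P K i ≤ 2 * π := mass_le P K i
      have h5 : hh (P.r i) l.2 ≤ P.r i ^ 2 / 2 := hh_le
      calc (mass P K i - mass P (insert l K) i) * hh (P.r i) l.2
          ≤ (2 * π) * hh (P.r i) l.2 := mul_le_mul_of_nonneg_right (by linarith) hh0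
        _ ≤ (2 * π) * (P.r i ^ 2 / 2) :=
            mul_le_mul_of_nonneg_left h5 (by have := Real.pi_pos; positivity)
        _ = π * P.r i ^ 2 := by ring
    · have hnd : ¬ dead P (insert l K) i := by
        rintro ⟨k, hk, h1, θ, hθ⟩
        rcases Finset.mem_insert.1 hk with rfl | hk'
        · exact hm ⟨θ, hθ⟩
        · exact hd ⟨k, hk', h1, θ, hθ⟩
      have hal : aliveSet P (insert l K) i = aliveSet P K i := by
        ext θ
        constructor
        · intro h k hk
          exact h k (Finset.mem_insert_of_mem hk)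
        · intro h k hk
          rcases Finset.mem_insert.1 hk with rfl | hk'
          · exact fun hθ => hm ⟨θ, hθ⟩
          · exact h k hk'
      rw [mass_of_not_dead _ _ _ hd, mass_of_not_dead _ _ _ hnd, hal, sub_self, zero_mul]
      exact ENNReal.toReal_nonneg
  · rw [not_le] at hr
    have hnd : ¬ dead P (insert l K) i := by
      rintro ⟨k, hk, h1, θ, hθ⟩
      rcases Finset.mem_insert.1 hk with rfl | hk'
      · linarith
      · exact hd ⟨k, hk', h1, θ, hθ⟩
    have hsub : aliveSet P K i ⊆ aliveSet P (insert l K) i ∪ hit P l.1 l.2 i := by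
      intro θ hθ
      by_cases h : P.pt i (P.r i) θ ∈ ball l.1 l.2
      · exact Or.inr h
      · left
        intro k hk
        rcases Finset.mem_insert.1 hk with rfl | hk'
        · exact h
        · exact hθ k hk'
    have h1 : mass P K i - mass P (insert l K) i ≤ (ang (hit P l.1 l.2 i)).toReal := by
      rw [mass_of_not_dead _ _ _ hd, mass_of_not_dead _ _ _ hnd]
      have := (ang_mono hsub).trans (ang_union_le _ _)
      linarith
    have h2 : hh (P.r i) l.2 = (P.r i ^ 2 - (P.r i - l.2) ^ 2) / 2 := by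
      unfold hh
      rw [max_eq_left (by linarith)]
    have h3 : sector (P.c i) (P.r i - l.2) (P.r i) (hit P l.1 l.2 i) ⊆
        ball (P.c i) (P.r i) ∩ ball l.1 (3 * l.2) := by
      refine subset_inter (sector_sub_ball P i (by linarith) _) ?_
      rintro y ⟨t, θ, g1, g2, g3, g4, rfl⟩
      have g5 := dist_foot P i (a := l.2) (ρ := t) (θ := θ) g1 g2
      have g6 : dist (P.pt i (P.r i) θ) l.1 < l.2 := g4
      rw [mem_ball]
      linarith [dist_triangle (P.c i + (t : ℂ) * e θ) (P.pt i (P.r i) θ) l.1]
    have h4 := ENNReal.toReal_mono (volume_finite_inter P i _).ne (measure_mono (μ := volume) h3)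
    rw [volume_sector _ (by linarith) (by linarith) _ (measurableSet_hit P l.1 l.2 i),
      ENNReal.toReal_mul, ENNReal.toReal_ofReal (by rw [← h2]; exact hh0), ← h2] at h4
    exact (mul_le_mul_of_nonneg_right h1 hh0).trans h4

end SS

open SS

theorem kill [Countable ι] (P : Pack ι) (K : Finset (ℂ × ℝ)) (l : ℂ × ℝ) (hl : 0 < l.2) :
    QQ P K l.2 ≤ QQ P (insert l K) l.2 + 9 * π * l.2 ^ 2 := by
  classical
  have s1 := summable_QQ P K hl.le
  have s2 := summable_QQ P (insert l K) hl.le
  have s3 := s1.sub s2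
  have h1 : QQ P K l.2 - QQ P (insert l K) l.2 =
      ∑' i, (mass P K i * hh (P.r i) l.2 - mass P (insert l K) i * hh (P.r i) l.2) := by
    unfold QQ
    rw [s1.tsum_sub s2]
  have h2 : ∑' i, (mass P K i * hh (P.r i) l.2 - mass P (insert l K) i * hh (P.r i) l.2) ≤
      9 * π * l.2 ^ 2 := by
    refine s3.tsum_le_of_sum_le fun s => ?_
    have h3 : ∑ i ∈ s, (mass P K i * hh (P.r i) l.2 - mass P (insert l K) i * hh (P.r i) l.2) ≤
        ∑ i ∈ s, (volume (ball (P.c i) (P.r i) ∩ ball l.1 (3 * l.2))).toReal := by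
      refine Finset.sum_le_sum fun i _ => ?_
      rw [← sub_mul]
      exact kill_one P K l hl i
    refine h3.trans ?_
    rw [← ENNReal.toReal_sum fun i _ => (volume_finite_inter P i _).ne, ← measure_biUnion_finset]
    · refine ENNReal.toReal_le_of_le_ofReal (by have := Real.pi_pos; positivity) ?_
      refine (measure_mono (iUnion₂_subset fun i _ => inter_subset_right)).trans ?_
      rw [volume_ball_le _ (by linarith)]
      apply ENNReal.ofReal_le_ofReal
      nlinarith [Real.pi_pos]
    · intro i _ j _ hij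
      exact (balls_disj P hij).mono inter_subset_left inter_subset_left
    · intro i _
      exact measurableSet_ball.inter measurableSet_ball
  linarith

end DiskDim
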