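import Mathlib
import Pool.Agent.DiskDim.Basic
import Pool.Agent.DiskDim.CI

open MeasureTheory Set Metric Real
open scoped ENNReal NNReal

namespace DiskDim

variable {ι : Type}

/-! ### scaling a packing -/

theorem dist_div_scale (x y : ℂ) {ε : ℝ} (hε : 0 < ε) :
    dist (x / (ε : ℂ)) (y / (ε : ℂ)) = dist x y / ε := by
  rw [dist_eq_norm, dist_eq_norm, ← sub_div, norm_div, Complex.norm_real, Real.norm_eq_abs,
    abs_of_pos hε]

/-- The packing with all lengths divided by `ε`. -/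
noncomputable def scalePack (P : Pack ι) (ε : ℝ) (hε : 0 < ε) : Pack ι where
  c := fun i => P.c i / (ε : ℂ)
  r := fun i => P.r i / ε
  R := P.R / ε
  rpos := fun i => div_pos (P.rpos i) hε
  sub := fun i => by
    rw [norm_div, Complex.norm_real, Real.norm_eq_abs, abs_of_pos hε, ← add_div]
    exact div_le_div_of_nonneg_right (P.sub i) hε.le
  dj := fun i j hij => by
    rw [dist_div_scale _ _ hε, ← add_div]
    exact div_le_div_of_nonneg_right (P.dj i j hij) hε.le

/-- The image family of balls. -/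
noncomputable def scaleK (K : Finset (ℂ × ℝ)) (ε : ℝ) : Finset (ℂ × ℝ) := by
  classical
  exact K.image (fun k => (k.1 / (ε : ℂ), k.2 / ε))

theorem mem_scaleK {K : Finset (ℂ × ℝ)} {ε : ℝ} {k : ℂ × ℝ} :
    k ∈ scaleK K ε ↔ ∃ l ∈ K, (l.1 / (ε : ℂ), l.2 / ε) = k := by
  classical
  simp [scaleK]

theorem scaleK_sum (K : Finset (ℂ × ℝ)) {ε : ℝ} (hε : 0 < ε) :
    ∑ k ∈ scaleK K ε, k.2 = (∑ k ∈ K, k.2) / ε := by
  classical
  have hε' : (ε : ℂ) ≠ 0 := by exact_mod_cast hε.ne'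
  unfold scaleK
  rw [Finset.sum_image, Finset.sum_div]
  intro x _ y _ h
  have h1 := congrArg Prod.fst h
  have h2 := congrArg Prod.snd h
  simp only at h1 h2
  have h3 : x.1 = y.1 := by
    field_simp at h1
    exact h1
  have h4 : x.2 = y.2 := by
    field_simp at h2
    exact h2
  exact Prod.ext h3 h4

theorem scale_pt (P : Pack ι) {ε : ℝ} (hε : 0 < ε) (i : ι) (θ : ℝ) :
    (scalePack P ε hε).pt i ((scalePack P ε hε).r i) θ = P.pt i (P.r i) θ / (ε : ℂ) := by
  simp only [Pack.pt, scalePack]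
  push_cast
  ring

theorem scale_mem_ball {ε : ℝ} (hε : 0 < ε) (z x : ℂ) (ρ : ℝ) :
    z / (ε : ℂ) ∈ ball (x / (ε : ℂ)) (ρ / ε) ↔ z ∈ ball x ρ := by
  rw [mem_ball, mem_ball, dist_div_scale _ _ hε, div_lt_div_iff_of_pos_right hε]

theorem scale_dead (P : Pack ι) (K : Finset (ℂ × ℝ)) {ε : ℝ} (hε : 0 < ε) (i : ι) :
    dead (scalePack P ε hε) (scaleK K ε) i ↔ dead P K i := by
  constructor
  · rintro ⟨k, hk, hr, θ, hθ⟩
    obtain ⟨l, hl, rfl⟩ := mem_scaleK.1 hk
    refine ⟨l, hl, ?_, θ, ?_⟩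
    · simp only [scalePack] at hr
      exact (div_le_div_iff_of_pos_right hε).1 hr
    · rw [scale_pt, scale_mem_ball hε] at hθ
      exact hθ
  · rintro ⟨l, hl, hr, θ, hθ⟩
    refine ⟨(l.1 / (ε : ℂ), l.2 / ε), mem_scaleK.2 ⟨l, hl, rfl⟩, ?_, θ, ?_⟩
    · exact (div_le_div_iff_of_pos_right hε).2 hr
    · rw [scale_pt, scale_mem_ball hε]
      exact hθ

theorem scale_aliveSet (P : Pack ι) (K : Finset (ℂ × ℝ)) {ε : ℝ} (hε : 0 < ε) (i : ι) :
    aliveSet (scalePack P ε hε) (scaleK K ε) i = aliveSet P K i := by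
  ext θ
  constructor
  · intro h k hk hmem
    refine h (k.1 / (ε : ℂ), k.2 / ε) (mem_scaleK.2 ⟨k, hk, rfl⟩) ?_
    rw [scale_pt, scale_mem_ball hε]
    exact hmem
  · intro h k hk hmem
    obtain ⟨l, hl, rfl⟩ := mem_scaleK.1 hk
    rw [scale_pt, scale_mem_ball hε] at hmem
    exact h l hl hmem

theorem scale_mass (P : Pack ι) (K : Finset (ℂ × ℝ)) {ε : ℝ} (hε : 0 < ε) (i : ι) :
    mass (scalePack P ε hε) (scaleK K ε) i = mass P K i := by
  unfold mass
  by_cases h : dead P K i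
  · rw [if_pos ((scale_dead P K hε i).2 h), if_pos h]
  · rw [if_neg (fun h' => h ((scale_dead P K hε i).1 h')), if_neg h, scale_aliveSet]

theorem scale_res (P : Pack ι) {ε : ℝ} (hε : 0 < ε) :
    (scalePack P ε hε).res = (fun z : ℂ => ε • z) ⁻¹' P.res := by
  have hε' : (ε : ℂ) ≠ 0 := by exact_mod_cast hε.ne'
  ext z
  have h1 : z = (ε • z) / (ε : ℂ) := by
    rw [Complex.real_smul]
    field_simp
  simp only [Pack.res, scalePack, mem_preimage, mem_sdiff, mem_closedBall, dist_zero_right,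
    mem_iUnion, not_exists]
  have h2 : ‖ε • z‖ = ε * ‖z‖ := by
    rw [norm_smul, Real.norm_eq_abs, abs_of_pos hε]
  rw [h2]
  refine and_congr ?_ (forall_congr' fun i => not_congr ?_)
  · rw [le_div_iff₀ hε, mul_comm]
  · conv_lhs => rw [h1]
    exact scale_mem_ball hε _ _ _

theorem scale_null (P : Pack ι) (hnull : volume P.res = 0) {ε : ℝ} (hε : 0 < ε) :
    volume (scalePack P ε hε).res = 0 := by
  rw [scale_res, Measure.addHaar_preimage_smul volume hε.ne', hnull, mul_zero]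

theorem CI_scaled [Countable ι] (P : Pack ι) (hnull : volume P.res = 0) {ε : ℝ} (hε : 0 < ε)
    (hR : ∀ i, P.r i + 3 * ε ≤ P.R) (K : Finset (ℂ × ℝ)) (hK : ∀ k ∈ K, ε ≤ k.2)
    (B : Finset ι) (hB : ∀ i, i ∈ B ↔ ε < P.r i) :
    ε * ∑ i ∈ B, mass P K i * (P.r i - ε) ≤
      3 / 4 * QQ P K ε + 1000 * ε * ∑ k ∈ K, k.2 := by
  classical
  have hci := CI (scalePack P ε hε) (scale_null P hnull hε)
    (by
      intro i
      simp only [scalePack]
      rw [le_div_iff₀ hε, add_mul, div_mul_cancel₀ _ hε.ne']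
      exact hR i)
    (scaleK K ε)
    (by
      intro k hk
      obtain ⟨l, hl, rfl⟩ := mem_scaleK.1 hk
      rw [le_div_iff₀ hε, one_mul]
      exact hK l hl)
    B
    (by
      intro i
      rw [hB i]
      simp only [scalePack]
      rw [lt_div_iff₀ hε, one_mul])
  simp only [scale_mass, scaleK_sum K hε] at hci
  -- the tail sum
  set T : ℝ := ∑' i, (if P.r i ≤ ε then mass P K i * (P.r i ^ 2 / 2) else 0) with hT
  have hT' : ∑' i, (if (scalePack P ε hε).r i ≤ 1 then
      mass P K i * ((scalePack P ε hε).r i ^ 2 / 2) else 0) = T / ε ^ 2 := by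
    rw [hT, ← tsum_div_const]
    congr 1
    funext i
    simp only [scalePack]
    have : P.r i / ε ≤ 1 ↔ P.r i ≤ ε := by rw [div_le_iff₀ hε, one_mul]
    simp only [this]
    split_ifs
    · field_simp
    · simp
  rw [hT'] at hci
  have hs := summable_QQ P K hε.le
  have hfin : Summable (fun i => (if i ∈ B then mass P K i * hh (P.r i) ε else 0)) := by
    apply summable_of_ne_finset_zero (s := B)
    intro i hi
    simp [hi]
  have hsplit : ∀ i, mass P K i * hh (P.r i) ε =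
      (if P.r i ≤ ε then mass P K i * (P.r i ^ 2 / 2) else 0) +
        (if i ∈ B then mass P K i * hh (P.r i) ε else 0) := by
    intro i
    by_cases hi : i ∈ B
    · have : ¬ P.r i ≤ ε := not_le.2 ((hB i).1 hi)
      simp [hi, this]
    · have : P.r i ≤ ε := not_lt.1 ((hB i).not.1 hi)
      simp only [hi, if_false, this, if_true, add_zero, hh]
      rw [max_eq_right (by linarith)]
      ring
  have hsm : Summable (fun i => (if P.r i ≤ ε then mass P K i * (P.r i ^ 2 / 2) else 0)) := by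
    refine (hs.sub hfin).congr ?_
    intro i
    have := hsplit i
    linarith
  have hQ : QQ P K ε = T + ∑ i ∈ B, mass P K i * (ε * P.r i - ε ^ 2 / 2) := by
    unfold QQ
    rw [tsum_congr hsplit, hsm.tsum_add hfin, ← hT]
    congr 1
    rw [tsum_eq_sum (s := B)]
    · apply Finset.sum_congr rfl
      intro i hi
      have : ε < P.r i := (hB i).1 hi
      simp only [hi, if_true, hh]
      rw [max_eq_left (by linarith)]
      ring
    · intro i hi
      simp [hi]
  have hS : 0 ≤ ∑ k ∈ K, k.2 := Finset.sum_nonneg fun k hk => hε.le.trans (hK k hk)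
  have h1 := mul_le_mul_of_nonneg_left hci (show 0 ≤ 3 / 4 * ε ^ 2 by positivity)
  have e1 : 3 / 4 * ε ^ 2 * (T / ε ^ 2 + 1000 * ((∑ k ∈ K, k.2) / ε)) =
      3 / 4 * T + 750 * ε * ∑ k ∈ K, k.2 := by
    field_simp
    ring
  have e2 : 3 / 4 * ε ^ 2 * ∑ i ∈ B, mass P K i * ((scalePack P ε hε).r i / 3 - 5 / 6) =
      ∑ i ∈ B, mass P K i * (ε * P.r i / 4 - 5 / 8 * ε ^ 2) := by
    rw [Finset.mul_sum]
    apply Finset.sum_congr rfl
    intro i _
    simp only [scalePack]
    field_simp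
    ring
  rw [e1, e2] at h1
  rw [hQ]
  have e3 : ε * ∑ i ∈ B, mass P K i * (P.r i - ε) =
      ∑ i ∈ B, mass P K i * (ε * P.r i / 4 - 5 / 8 * ε ^ 2) +
        3 / 4 * ∑ i ∈ B, mass P K i * (ε * P.r i - ε ^ 2 / 2) := by
    rw [Finset.mul_sum, Finset.mul_sum, ← Finset.sum_add_distrib]
    apply Finset.sum_congr rfl
    intro i _
    ring
  rw [e3]
  have : 0 ≤ ε * ∑ k ∈ K, k.2 := mul_nonneg hε.le hS
  nlinarith [h1, this]

end DiskDim
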