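import Mathlib
import Pool.Agent.DiskDim.Basic
import Pool.Agent.DiskDim.Scale
import Pool.Agent.DiskDim.Kill

open MeasureTheory Set Metric Real
open scoped ENNReal NNReal

namespace DiskDim

variable {ι : Type}

/-! ### the derivative of `hh r` -/

theorem hh_hasDerivAt (r x : ℝ) : HasDerivAt (hh r) (max (r - x) 0) x := by
  have key : ∀ y, HasDerivAt (hh r) (max (r - y) 0) y := by
    have hc : Continuous (hh r) := by unfold hh; fun_prop
    intro y
    refine hasDerivAt_of_hasDerivAt_of_ne' (x := r) (f := hh r) (g := fun y => max (r - y) 0)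
      ?_ hc.continuousAt (by fun_prop) y
    intro y hy
    rcases lt_or_gt_of_ne hy with h | h
    · have h1 : hh r =ᶠ[nhds y] fun z => (r ^ 2 - (r - z) ^ 2) / 2 := by
        filter_upwards [Iio_mem_nhds h] with z hz
        have hz' : z < r := hz
        simp only [hh]
        rw [max_eq_left (by linarith)]
      rw [max_eq_left (by linarith)]
      refine HasDerivAt.congr_of_eventuallyEq ?_ h1
      have h2 : HasDerivAt (fun z : ℝ => (r - z)) (-1) y := by
        simpa using (hasDerivAt_id y).const_sub r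
      have h3 := ((h2.pow 2).const_sub (r ^ 2)).div_const 2
      refine h3.congr_deriv ?_
      push_cast
      ring
    · have h1 : hh r =ᶠ[nhds y] fun z => r ^ 2 / 2 := by
        filter_upwards [Ioi_mem_nhds h] with z hz
        have hz' : r < z := hz
        simp only [hh]
        rw [max_eq_right (by linarith)]
        ring
      rw [max_eq_right (by linarith)]
      exact (hasDerivAt_const y _).congr_of_eventuallyEq h1
  exact key x

theorem hh_small {r x : ℝ} (h : r ≤ x) : hh r x = r ^ 2 / 2 := by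
  simp only [hh]
  rw [max_eq_right (by linarith)]
  ring

theorem QQ_split [Countable ι] (P : Pack ι) (K : Finset (ℂ × ℝ)) {a : ℝ} (ha : 0 < a)
    (B : Finset ι) (hB : ∀ i, i ∈ B ↔ a < P.r i) : ∃ C : ℝ, ∀ x, a ≤ x →
      QQ P K x = C + ∑ i ∈ B, mass P K i * hh (P.r i) x := by
  classical
  refine ⟨∑' i, (if i ∈ B then 0 else mass P K i * (P.r i ^ 2 / 2)), ?_⟩
  intro x hx
  have hs := summable_QQ P K (le_of_lt (lt_of_lt_of_le ha hx))
  have h1 : (fun i => mass P K i * hh (P.r i) x) =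
      fun i => (if i ∈ B then 0 else mass P K i * (P.r i ^ 2 / 2)) +
        (if i ∈ B then mass P K i * hh (P.r i) x else 0) := by
    funext i
    by_cases hi : i ∈ B
    · simp [hi]
    · have : P.r i ≤ x := by
        have := (hB i).not.1 hi
        push Not at this
        linarith
      simp [hi, hh_small this]
  have hfin : Summable (fun i => (if i ∈ B then mass P K i * hh (P.r i) x else 0)) := by
    apply summable_of_ne_finset_zero (s := B)
    intro i hi
    simp [hi]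
  have hsm : Summable (fun i => (if i ∈ B then 0 else mass P K i * (P.r i ^ 2 / 2))) := by
    refine (hs.sub hfin).congr ?_
    intro i
    by_cases hi : i ∈ B
    · simp [hi]
    · have : P.r i ≤ x := by
        have := (hB i).not.1 hi
        push Not at this
        linarith
      simp [hi, hh_small this]
  unfold QQ
  rw [h1, hsm.tsum_add hfin]
  congr 1
  rw [tsum_eq_sum (s := B)]
  · apply Finset.sum_congr rfl
    intro i hi
    simp [hi]
  · intro i hi
    simp [hi]

theorem flow_step [Countable ι] (P : Pack ι) (hnull : volume P.res = 0) {a b : ℝ}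
    (ha : 0 < a) (hab : a ≤ b) (hR : ∀ i, P.r i + 3 * b ≤ P.R) (K : Finset (ℂ × ℝ))
    (hK : ∀ k ∈ K, b ≤ k.2) :
    PP P K b ≤ PP P K a + 4000 * (b ^ (1 / 4 : ℝ) - a ^ (1 / 4 : ℝ)) * ∑ k ∈ K, k.2 := by
  classical
  set S : ℝ := ∑ k ∈ K, k.2 with hS
  set B : Finset ι := (finite_big P ha).toFinset with hBdef
  have hB : ∀ i, i ∈ B ↔ a < P.r i := by
    intro i
    simp [hBdef]
  obtain ⟨C, hC⟩ := QQ_split P K ha B hB
  let q : ℝ → ℝ := fun x => C + ∑ i ∈ B, mass P K i * hh (P.r i) x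
  let q' : ℝ → ℝ := fun x => ∑ i ∈ B, mass P K i * max (P.r i - x) 0
  have hq : ∀ x, HasDerivAt q (q' x) x := by
    intro x
    have h1 : HasDerivAt (fun x => ∑ i ∈ B, mass P K i * hh (P.r i) x) (q' x) x := by
      have := HasDerivAt.fun_sum (u := B) (A := fun i x => mass P K i * hh (P.r i) x)
        (A' := fun i => mass P K i * max (P.r i - x) 0) (x := x)
        (fun i _ => (hh_hasDerivAt (P.r i) x).const_mul (mass P K i))
      exact this
    simpa [q] using h1.const_add C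
  have hineq : ∀ x, a ≤ x → x ≤ b → x * q' x ≤ 3 / 4 * q x + 1000 * x * S := by
    intro x hax hxb
    have hx : 0 < x := lt_of_lt_of_le ha hax
    have h := CI_scaled P hnull hx (fun i => by have := hR i; linarith) K
      (fun k hk => le_trans hxb (hK k hk)) (B.filter (fun i => x < P.r i)) (by
        intro i
        simp only [Finset.mem_filter, hB]
        constructor
        · rintro ⟨_, h⟩; exact h
        · intro h; exact ⟨by linarith, h⟩)
    rw [hC x hax] at h
    have h2 : q' x = ∑ i ∈ B.filter (fun i => x < P.r i), mass P K i * (P.r i - x) := by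
      simp only [q']
      rw [Finset.sum_filter]
      apply Finset.sum_congr rfl
      intro i _
      split_ifs with hi
      · rw [max_eq_left (by linarith)]
      · rw [max_eq_right (by linarith)]; simp
    rw [h2]
    exact h
  let G : ℝ → ℝ := fun x => 4000 * x ^ (1 / 4 : ℝ) * S - x ^ (-(3 / 4) : ℝ) * q x
  have hG : ∀ x, 0 < x → HasDerivAt G (4000 * ((1 / 4 : ℝ) * x ^ ((1 / 4 : ℝ) - 1)) * S -
      ((-(3 / 4) : ℝ) * x ^ ((-(3 / 4) : ℝ) - 1) * q x + x ^ (-(3 / 4) : ℝ) * q' x)) x := by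
    intro x hx
    have h1 : HasDerivAt (fun x : ℝ => x ^ (1 / 4 : ℝ)) ((1 / 4 : ℝ) * x ^ ((1 / 4 : ℝ) - 1)) x :=
      Real.hasDerivAt_rpow_const (Or.inl hx.ne')
    have h2 : HasDerivAt (fun x : ℝ => x ^ (-(3 / 4) : ℝ))
        ((-(3 / 4) : ℝ) * x ^ ((-(3 / 4) : ℝ) - 1)) x :=
      Real.hasDerivAt_rpow_const (Or.inl hx.ne')
    exact ((h1.const_mul 4000).mul_const S).sub (h2.mul (hq x))
  have hmono : MonotoneOn G (Icc a b) := by
    apply monotoneOn_of_deriv_nonneg (convex_Icc a b)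
    · intro x hx
      exact (hG x (lt_of_lt_of_le ha hx.1)).continuousAt.continuousWithinAt
    · intro x hx
      rw [interior_Icc] at hx
      exact (hG x (lt_trans ha hx.1)).differentiableAt.differentiableWithinAt
    · intro x hx
      rw [interior_Icc] at hx
      have hx0 : 0 < x := lt_trans ha hx.1
      rw [(hG x hx0).deriv]
      have h := hineq x hx.1.le hx.2.le
      have e1 : x ^ ((1 / 4 : ℝ) - 1) = x * x ^ ((-(3 / 4) : ℝ) - 1) := by
        rw [show ((1 / 4 : ℝ) - 1) = 1 + ((-(3 / 4) : ℝ) - 1) by norm_num,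
          Real.rpow_add hx0, Real.rpow_one]
      have e2 : x ^ (-(3 / 4) : ℝ) = x * x ^ ((-(3 / 4) : ℝ) - 1) := by
        rw [← Real.rpow_one_add' hx0.le (by norm_num)]
        congr 1
        ring
      rw [e1, e2]
      have hp : 0 < x ^ ((-(3 / 4) : ℝ) - 1) := Real.rpow_pos_of_pos hx0 _
      nlinarith [mul_le_mul_of_nonneg_left h hp.le]
  have hfin := hmono (left_mem_Icc.2 hab) (right_mem_Icc.2 hab) hab
  simp only [G] at hfin
  unfold PP
  rw [hC a le_rfl, hC b hab]
  simp only [q] at hfin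
  nlinarith [hfin]

theorem content_aux [Countable ι] (P : Pack ι) (hnull : volume P.res = 0) {ε₀ : ℝ}
    (hR : ∀ i, P.r i + 3 * ε₀ ≤ P.R) : ∀ (n : ℕ) (K L : Finset (ℂ × ℝ)) (b : ℝ),
    L.card = n → 0 < b → b ≤ ε₀ → (∀ k ∈ K, b ≤ k.2) → (∀ l ∈ L, 0 < l.2 ∧ l.2 ≤ b) →
    P.res ⊆ ⋃ k ∈ K ∪ L, ball k.1 k.2 →
    PP P K b ≤ 5000 * ∑ l ∈ L, l.2 ^ (5 / 4 : ℝ) + 4000 * b ^ (1 / 4 : ℝ) * ∑ k ∈ K, k.2 := by
  classical
  intro n
  induction n with
  | zero =>
    intro K L b hn hb hbε hK hL hcov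
    have hL0 : L = ∅ := Finset.card_eq_zero.1 hn
    subst hL0
    simp only [Finset.union_empty] at hcov
    have h0 : QQ P K b = 0 := by
      unfold QQ
      have : (fun i => mass P K i * hh (P.r i) b) = fun _ => 0 := by
        funext i
        rw [mass_eq_zero_of_cover P K hcov i, zero_mul]
      rw [this, tsum_zero]
    have hS : 0 ≤ ∑ k ∈ K, k.2 := Finset.sum_nonneg fun k hk => hb.le.trans (hK k hk)
    unfold PP
    rw [h0, mul_zero]
    have : 0 ≤ b ^ (1 / 4 : ℝ) := Real.rpow_nonneg hb.le _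
    simp only [Finset.sum_empty, mul_zero, zero_add]
    positivity
  | succ n ih =>
    intro K L b hn hb hbε hK hL hcov
    have hne : L.Nonempty := Finset.card_pos.1 (by omega)
    obtain ⟨l, hl, hmax⟩ := Finset.exists_max_image L (fun l => l.2) hne
    have hρ0 : 0 < l.2 := (hL l hl).1
    have hρb : l.2 ≤ b := (hL l hl).2
    have h1 := flow_step P hnull hρ0 hρb (fun i => by have := hR i; linarith) K hK
    have h2 := kill P K l hρ0
    have h3 := ih (insert l K) (L.erase l) l.2 (by rw [Finset.card_erase_of_mem hl, hn]; rfl)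
      hρ0 (hρb.trans hbε)
      (by
        intro k hk
        rcases Finset.mem_insert.1 hk with h | h
        · rw [h]
        · exact hρb.trans (hK k h))
      (by
        intro m hm
        have hm' := Finset.mem_of_mem_erase hm
        exact ⟨(hL m hm').1, hmax m hm'⟩)
      (by
        refine hcov.trans ?_
        intro x hx
        simp only [mem_iUnion] at hx ⊢
        obtain ⟨k, hk, hxk⟩ := hx
        refine ⟨k, ?_, hxk⟩
        rcases Finset.mem_union.1 hk with h | h
        · exact Finset.mem_union_left _ (Finset.mem_insert_of_mem h)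
        · by_cases hkl : k = l
          · rw [hkl]; exact Finset.mem_union_left _ (Finset.mem_insert_self _ _)
          · exact Finset.mem_union_right _ (Finset.mem_erase.2 ⟨hkl, h⟩))
    have hsum : ∑ k ∈ insert l K, k.2 ≤ l.2 + ∑ k ∈ K, k.2 := by
      by_cases hlK : l ∈ K
      · rw [Finset.insert_eq_of_mem hlK]; linarith
      · rw [Finset.sum_insert hlK]
    have hLsum : ∑ m ∈ L, m.2 ^ (5 / 4 : ℝ) =
        l.2 ^ (5 / 4 : ℝ) + ∑ m ∈ L.erase l, m.2 ^ (5 / 4 : ℝ) :=
      (Finset.add_sum_erase L (fun m => m.2 ^ (5 / 4 : ℝ)) hl).symm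
    have hp34 : 0 < l.2 ^ (-(3 / 4) : ℝ) := Real.rpow_pos_of_pos hρ0 _
    have e1 : l.2 ^ (-(3 / 4) : ℝ) * l.2 ^ 2 = l.2 ^ (5 / 4 : ℝ) := by
      rw [← Real.rpow_natCast, ← Real.rpow_add hρ0]
      norm_num
    have e2 : l.2 ^ (1 / 4 : ℝ) * l.2 = l.2 ^ (5 / 4 : ℝ) := by
      rw [← Real.rpow_add_one hρ0.ne']
      norm_num
    have h4 : PP P K l.2 ≤ PP P (insert l K) l.2 + 9 * π * l.2 ^ (5 / 4 : ℝ) := by
      unfold PP
      have := mul_le_mul_of_nonneg_left h2 hp34.le
      calc l.2 ^ (-(3 / 4) : ℝ) * QQ P K l.2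
          ≤ l.2 ^ (-(3 / 4) : ℝ) * (QQ P (insert l K) l.2 + 9 * π * l.2 ^ 2) := this
        _ = l.2 ^ (-(3 / 4) : ℝ) * QQ P (insert l K) l.2 +
            9 * π * (l.2 ^ (-(3 / 4) : ℝ) * l.2 ^ 2) := by ring
        _ = _ := by rw [e1]
    have hp14 : 0 ≤ l.2 ^ (1 / 4 : ℝ) := Real.rpow_nonneg hρ0.le _
    have h5 : l.2 ^ (1 / 4 : ℝ) * ∑ k ∈ insert l K, k.2 ≤
        l.2 ^ (5 / 4 : ℝ) + l.2 ^ (1 / 4 : ℝ) * ∑ k ∈ K, k.2 := by
      rw [← e2]
      calc l.2 ^ (1 / 4 : ℝ) * ∑ k ∈ insert l K, k.2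
          ≤ l.2 ^ (1 / 4 : ℝ) * (l.2 + ∑ k ∈ K, k.2) := mul_le_mul_of_nonneg_left hsum hp14
        _ = _ := by ring
    have hpi : 9 * π ≤ 1000 := by
      have := Real.pi_lt_four
      linarith
    have hp54 : 0 ≤ l.2 ^ (5 / 4 : ℝ) := Real.rpow_nonneg hρ0.le _
    have h6 : 9 * π * l.2 ^ (5 / 4 : ℝ) ≤ 1000 * l.2 ^ (5 / 4 : ℝ) :=
      mul_le_mul_of_nonneg_right hpi hp54
    rw [hLsum]
    nlinarith [h1, h3, h4, h5, h6]

theorem content_bound [Countable ι] (P : Pack ι) (hnull : volume P.res = 0) {ε₀ : ℝ}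
    (hε₀ : 0 < ε₀) (hR : ∀ i, P.r i + 3 * ε₀ ≤ P.R) (L : Finset (ℂ × ℝ))
    (hL : ∀ l ∈ L, 0 < l.2 ∧ l.2 ≤ ε₀) (hcov : P.res ⊆ ⋃ l ∈ L, ball l.1 l.2) :
    PP P ∅ ε₀ ≤ 5000 * ∑ l ∈ L, l.2 ^ (5 / 4 : ℝ) := by
  have h := content_aux P hnull hR L.card ∅ L ε₀ rfl hε₀ le_rfl (by simp) hL
    (by simpa using hcov)
  simpa using h

end DiskDim
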