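import Mathlib
import Pool.Agent.DiskDim.Defs

open MeasureTheory Set Metric Real
open scoped ENNReal NNReal

namespace DiskDim

theorem rpow_five_four_add {a b : ℝ} (ha : 0 ≤ a) (hb : 0 ≤ b) :
    (a + b) ^ (5 / 4 : ℝ) ≤ 4 * (a ^ (5 / 4 : ℝ) + b ^ (5 / 4 : ℝ)) := by
  have h2 : (2 : ℝ) ^ (5 / 4 : ℝ) ≤ 4 := by
    have h : (2 : ℝ) ^ (5 / 4 : ℝ) ≤ (2 : ℝ) ^ (2 : ℝ) :=
      Real.rpow_le_rpow_of_exponent_le (by norm_num) (by norm_num)
    have h' : (2 : ℝ) ^ (2 : ℝ) = 4 := by norm_num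
    linarith
  have hpa : 0 ≤ a ^ (5 / 4 : ℝ) := Real.rpow_nonneg ha _
  have hpb : 0 ≤ b ^ (5 / 4 : ℝ) := Real.rpow_nonneg hb _
  rcases le_total a b with h | h
  · calc (a + b) ^ (5 / 4 : ℝ) ≤ (2 * b) ^ (5 / 4 : ℝ) :=
        Real.rpow_le_rpow (by linarith) (by linarith) (by norm_num)
      _ = 2 ^ (5 / 4 : ℝ) * b ^ (5 / 4 : ℝ) := Real.mul_rpow (by norm_num) hb
      _ ≤ 4 * b ^ (5 / 4 : ℝ) := by gcongr
      _ ≤ _ := by linarith
  · calc (a + b) ^ (5 / 4 : ℝ) ≤ (2 * a) ^ (5 / 4 : ℝ) :=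
        Real.rpow_le_rpow (by linarith) (by linarith) (by norm_num)
      _ = 2 ^ (5 / 4 : ℝ) * a ^ (5 / 4 : ℝ) := Real.mul_rpow (by norm_num) ha
      _ ≤ 4 * a ^ (5 / 4 : ℝ) := by gcongr
      _ ≤ _ := by linarith

theorem rpow_five_four_le {a : ℝ} (ha : 0 ≤ a) (ha1 : a ≤ 1) : a ^ (5 / 4 : ℝ) ≤ a := by
  rcases ha.eq_or_lt with h | h
  · rw [← h, Real.zero_rpow (by norm_num)]
  · calc a ^ (5 / 4 : ℝ) ≤ a ^ (1 : ℝ) :=
        Real.rpow_le_rpow_of_exponent_ge h ha1 (by norm_num)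
      _ = a := Real.rpow_one a

/-- A null set for the `5/4`-dimensional Hausdorff measure has arbitrarily cheap covers by
small sets. -/
theorem exists_cheap_cover {E : Set ℂ} (h0 : μH[(5 / 4 : ℝ)] E = 0) {r η : ℝ} (hr : 0 < r)
    (hη : 0 < η) : ∃ t : ℕ → Set ℂ, E ⊆ ⋃ n, t n ∧ (∀ n, ediam (t n) ≤ ENNReal.ofReal r) ∧
      ∑' n, ⨆ _ : (t n).Nonempty, ediam (t n) ^ (5 / 4 : ℝ) < ENNReal.ofReal η := by
  rw [Measure.hausdorffMeasure_apply] at h0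
  have h1 : ∀ ρ : ℝ≥0∞, 0 < ρ → (⨅ (t : ℕ → Set ℂ) (_ : E ⊆ ⋃ n, t n)
      (_ : ∀ n, ediam (t n) ≤ ρ), ∑' n, ⨆ _ : (t n).Nonempty, ediam (t n) ^ (5 / 4 : ℝ)) = 0 := by
    intro ρ hρ
    have := (ENNReal.iSup_eq_zero).mp h0 ρ
    rw [iSup_pos hρ] at this
    exact this
  have h2 := h1 (ENNReal.ofReal r) (ENNReal.ofReal_pos.mpr hr)
  have h3 : (⨅ (t : ℕ → Set ℂ) (_ : E ⊆ ⋃ n, t n)
      (_ : ∀ n, ediam (t n) ≤ ENNReal.ofReal r),
      ∑' n, ⨆ _ : (t n).Nonempty, ediam (t n) ^ (5 / 4 : ℝ)) < ENNReal.ofReal η := by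
    rw [h2]; exact ENNReal.ofReal_pos.mpr hη
  rw [iInf_lt_iff] at h3
  obtain ⟨t, ht⟩ := h3
  rw [iInf_lt_iff] at ht
  obtain ⟨hE, ht⟩ := ht
  rw [iInf_lt_iff] at ht
  obtain ⟨hd, ht⟩ := ht
  exact ⟨t, hE, hd, ht⟩

theorem sum_geo_le (s : Finset ℕ) : ∑ n ∈ s, (1 / 2 : ℝ) ^ n ≤ 2 := by
  have h := (summable_geometric_two).sum_le_tsum s (fun n _ => by positivity)
  rw [tsum_geometric_two] at h
  exact h

theorem sum_image_pair_le {ι : Type} (s : Finset ι) (g : ι → ℂ × ℝ) (f : ℂ × ℝ → ℝ)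
    (hf : ∀ i ∈ s, 0 ≤ f (g i)) :
    ∑ l ∈ s.image g, f l ≤ ∑ i ∈ s, f (g i) := by
  classical
  induction s using Finset.induction_on with
  | empty => simp
  | insert a s ha ih =>
    rw [Finset.image_insert, Finset.sum_insert ha]
    have ih' := ih (fun i hi => hf i (Finset.mem_insert_of_mem hi))
    by_cases hg : g a ∈ s.image g
    · rw [Finset.insert_eq_of_mem hg]
      have := hf a (Finset.mem_insert_self a s)
      linarith
    · rw [Finset.sum_insert hg]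
      linarith

theorem dimH_of_content {E : Set ℂ} (hE : IsCompact E) {c δ : ℝ} (hc : 0 < c) (hδ : 0 < δ)
    (H : ∀ L : Finset (ℂ × ℝ), (∀ l ∈ L, 0 < l.2 ∧ l.2 ≤ δ) →
      E ⊆ ⋃ l ∈ L, ball l.1 l.2 → c ≤ ∑ l ∈ L, l.2 ^ (5 / 4 : ℝ)) :
    (5 / 4 : ℝ≥0∞) ≤ dimH E := by
  classical
  have hcast : (5 / 4 : ℝ≥0∞) = ((5 / 4 : ℝ≥0) : ℝ≥0∞) := by
    rw [ENNReal.coe_div (by norm_num)]; norm_num
  rw [hcast]
  apply le_dimH_of_hausdorffMeasure_ne_zero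
  intro h0
  have h0' : μH[(5 / 4 : ℝ)] E = 0 := by
    have : (((5 / 4 : ℝ≥0) : ℝ≥0) : ℝ) = 5 / 4 := by push_cast; norm_num
    rw [← this]; exact h0
  set η : ℝ := c / 32 with hη
  have hη0 : 0 < η := by positivity
  obtain ⟨t, htE, htd, hts⟩ := exists_cheap_cover h0' (r := δ / 2) (η := η) (by positivity) hη0
  set η' : ℝ := min (min 1 (δ / 2)) (c / 64) with hη'
  have hη'0 : 0 < η' := by rw [hη']; positivity
  have hη'1 : η' ≤ 1 := le_trans (min_le_left _ _) (min_le_left _ _)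
  have hη'2 : η' ≤ δ / 2 := le_trans (min_le_left _ _) (min_le_right _ _)
  have hη'3 : η' ≤ c / 64 := min_le_right _ _
  let x : ℕ → ℂ := fun n => if h : (t n).Nonempty then h.some else 0
  let ρ : ℕ → ℝ := fun n => (ediam (t n)).toReal + η' * (1 / 2) ^ n
  have hfin : ∀ n, ediam (t n) ≠ ⊤ := fun n => ne_top_of_le_ne_top ENNReal.ofReal_ne_top (htd n)
  have hd0 : ∀ n, 0 ≤ (ediam (t n)).toReal := fun n => ENNReal.toReal_nonneg
  have hdle : ∀ n, (ediam (t n)).toReal ≤ δ / 2 := fun n =>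
    ENNReal.toReal_le_of_le_ofReal (by positivity) (htd n)
  have hgeo : ∀ n : ℕ, (0 : ℝ) < (1 / 2 : ℝ) ^ n ∧ (1 / 2 : ℝ) ^ n ≤ 1 := fun n =>
    ⟨by positivity, pow_le_one₀ (by norm_num) (by norm_num)⟩
  have hρ0 : ∀ n, 0 < ρ n := fun n => by
    have := hd0 n
    have := mul_pos hη'0 (hgeo n).1
    simp only [ρ]; linarith
  have hρδ : ∀ n, ρ n ≤ δ := fun n => by
    have h1 := hdle n
    have h2 : η' * (1 / 2) ^ n ≤ η' * 1 := by
      have := (hgeo n).2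
      gcongr
    simp only [ρ]; linarith
  have hcov : ∀ n, t n ⊆ ball (x n) (ρ n) := by
    intro n y hy
    have hne : (t n).Nonempty := ⟨y, hy⟩
    have hx : x n ∈ t n := by simp only [x, dif_pos hne]; exact hne.some_mem
    have h1 : dist y (x n) ≤ (ediam (t n)).toReal := by
      have h2 : edist y (x n) ≤ ediam (t n) := Metric.edist_le_ediam_of_mem hy hx
      rw [dist_edist]
      exact ENNReal.toReal_mono (hfin n) h2
    have h3 := mul_pos hη'0 (hgeo n).1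
    rw [mem_ball]
    simp only [ρ]; linarith
  let N : Set ℕ := {n | (t n).Nonempty}
  have hcovN : E ⊆ ⋃ n : N, ball (x n) (ρ n) := by
    intro y hy
    obtain ⟨n, hn⟩ := mem_iUnion.mp (htE hy)
    exact mem_iUnion.mpr ⟨⟨n, ⟨y, hn⟩⟩, hcov n hn⟩
  obtain ⟨s', hs'⟩ := hE.elim_finite_subcover (fun n : N => ball (x n) (ρ n))
    (fun n => isOpen_ball) hcovN
  let s : Finset ℕ := Finset.image (fun n : N => (n : ℕ)) s'
  have hsN : ∀ n ∈ s, (t n).Nonempty := by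
    intro n hn
    obtain ⟨m, _, rfl⟩ := Finset.mem_image.mp hn
    exact m.2
  let L : Finset (ℂ × ℝ) := s.image (fun n => (x n, ρ n))
  have hL : ∀ l ∈ L, 0 < l.2 ∧ l.2 ≤ δ := by
    intro l hl
    obtain ⟨n, _, rfl⟩ := Finset.mem_image.mp hl
    exact ⟨hρ0 n, hρδ n⟩
  have hLE : E ⊆ ⋃ l ∈ L, ball l.1 l.2 := by
    intro y hy
    obtain ⟨n, hn⟩ := mem_iUnion.mp (hs' hy)
    obtain ⟨hns, hn⟩ := mem_iUnion.mp hn
    refine mem_iUnion₂.mpr ⟨(x n, ρ n), ?_, hn⟩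
    exact Finset.mem_image.mpr ⟨n, Finset.mem_image.mpr ⟨n, hns, rfl⟩, rfl⟩
  have hcl := H L hL hLE
  have h1 : ∑ l ∈ L, l.2 ^ (5 / 4 : ℝ) ≤ ∑ n ∈ s, (ρ n) ^ (5 / 4 : ℝ) :=
    sum_image_pair_le s (fun n => (x n, ρ n)) (fun l => l.2 ^ (5 / 4 : ℝ))
      (fun n _ => Real.rpow_nonneg (hρ0 n).le _)
  have h2 : ∀ n ∈ s, (ρ n) ^ (5 / 4 : ℝ) ≤
      4 * ((ediam (t n)).toReal ^ (5 / 4 : ℝ) + η' * (1 / 2) ^ n) := by
    intro n _
    have h3 := rpow_five_four_add (hd0 n) (mul_pos hη'0 (hgeo n).1).le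
    have h4 : (η' * (1 / 2) ^ n) ^ (5 / 4 : ℝ) ≤ η' * (1 / 2) ^ n := by
      apply rpow_five_four_le (mul_pos hη'0 (hgeo n).1).le
      exact mul_le_one₀ hη'1 (hgeo n).1.le (hgeo n).2
    simp only [ρ]; linarith
  have h3 : ∑ n ∈ s, (ρ n) ^ (5 / 4 : ℝ) ≤
      4 * (∑ n ∈ s, (ediam (t n)).toReal ^ (5 / 4 : ℝ) + η' * 2) := by
    refine (Finset.sum_le_sum h2).trans ?_
    rw [← Finset.mul_sum, Finset.sum_add_distrib, ← Finset.mul_sum]
    have := sum_geo_le s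
    gcongr
  have h4 : ∑ n ∈ s, (ediam (t n)).toReal ^ (5 / 4 : ℝ) ≤ η := by
    have h5 : ∑ n ∈ s, (ediam (t n)) ^ (5 / 4 : ℝ) ≤ ENNReal.ofReal η := by
      refine le_trans ?_ hts.le
      refine le_trans (le_of_eq ?_) (ENNReal.sum_le_tsum s)
      refine Finset.sum_congr rfl fun n hn => ?_
      rw [iSup_pos (hsN n hn)]
    have h6 : ENNReal.ofReal (∑ n ∈ s, (ediam (t n)).toReal ^ (5 / 4 : ℝ)) ≤
        ENNReal.ofReal η := by
      rw [ENNReal.ofReal_sum_of_nonneg (fun n _ => Real.rpow_nonneg (hd0 n) _)]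
      refine le_trans (le_of_eq ?_) h5
      refine Finset.sum_congr rfl fun n _ => ?_
      rw [← ENNReal.ofReal_rpow_of_nonneg (hd0 n) (by norm_num), ENNReal.ofReal_toReal (hfin n)]
    exact (ENNReal.ofReal_le_ofReal_iff hη0.le).mp h6
  have : c ≤ 4 * (c / 32 + c / 64 * 2) := by
    calc c ≤ _ := hcl
      _ ≤ _ := h1
      _ ≤ _ := h3
      _ ≤ 4 * (c / 32 + c / 64 * 2) := by gcongr
  linarith

theorem dimH_of_volume {E : Set ℂ} (hE : volume E ≠ 0) : (5 / 4 : ℝ≥0∞) ≤ dimH E := by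
  have hlip : LipschitzWith 1 Complex.measurableEquivRealProd := by
    apply LipschitzWith.of_dist_le_mul
    intro a b
    simp only [Complex.measurableEquivRealProd_apply, NNReal.coe_one, one_mul]
    rw [Prod.dist_eq, Real.dist_eq, Real.dist_eq, Complex.dist_eq]
    apply max_le
    · simpa using Complex.abs_re_le_norm (a - b)
    · simpa using Complex.abs_im_le_norm (a - b)
  have h1 : volume (Complex.measurableEquivRealProd '' E) ≠ 0 := by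
    intro h
    apply hE
    have h2 := Complex.volume_preserving_equiv_real_prod.measure_preimage_equiv
      (Complex.measurableEquivRealProd '' E)
    rw [h, preimage_image_eq _ Complex.measurableEquivRealProd.injective] at h2
    exact h2
  have h2 : (μH[((2 : ℝ≥0) : ℝ)] : Measure (ℝ × ℝ)) (Complex.measurableEquivRealProd '' E) ≠ 0 := by
    have : (((2 : ℝ≥0)) : ℝ) = 2 := by norm_num
    rw [this, hausdorffMeasure_prod_real]
    exact h1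
  have h3 := le_dimH_of_hausdorffMeasure_ne_zero h2
  have h4 := hlip.dimH_image_le E
  refine le_trans ?_ (h3.trans h4)
  rw [ENNReal.div_le_iff (by norm_num) (by norm_num)]
  norm_num

end DiskDim
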