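import Mathlib
import Pool.Agent.DiskDim.Defs
import Pool.Agent.DiskDim.Basic
import Pool.Agent.DiskDim.Haus
import Pool.Agent.DiskDim.Flow

open MeasureTheory Set Metric Real
open scoped ENNReal NNReal

namespace DiskDim

variable {ι : Type}


theorem dist_add_le_of_ball_subset {c x : ℂ} {r R : ℝ} (hr : 0 < r)
    (h : ball c r ⊆ closedBall x R) : dist c x + r ≤ R := by
  obtain ⟨u, hu1, hu⟩ : ∃ u : ℂ, ‖u‖ = 1 ∧ c - x = (‖c - x‖ : ℂ) * u := by
    by_cases h0 : c - x = 0
    · exact ⟨1, by simp, by rw [h0]; simp⟩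
    · refine ⟨(c - x) / (‖c - x‖ : ℂ), ?_, ?_⟩
      · rw [norm_div, Complex.norm_real, norm_norm, div_self (norm_ne_zero_iff.mpr h0)]
      · rw [mul_div_cancel₀]
        exact_mod_cast norm_ne_zero_iff.mpr h0
  have key : ∀ ρ : ℝ, 0 < ρ → ρ < r → ‖c - x‖ + ρ ≤ R := by
    intro ρ hρ hρr
    have h1 : c + (ρ : ℂ) * u ∈ ball c r := by
      rw [mem_ball, dist_eq_norm]
      simp only [add_sub_cancel_left, norm_mul, hu1, mul_one, Complex.norm_real,
        Real.norm_eq_abs, abs_of_pos hρ]
      exact hρr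
    have h2 := h h1
    rw [mem_closedBall, dist_eq_norm] at h2
    have h3 : c + (ρ : ℂ) * u - x = ((‖c - x‖ + ρ : ℝ) : ℂ) * u := by
      have : c + (ρ : ℂ) * u - x = (c - x) + (ρ : ℂ) * u := by ring
      rw [this]
      nth_rewrite 1 [hu]
      push_cast
      ring
    rw [h3, norm_mul, hu1, mul_one, Complex.norm_real, Real.norm_eq_abs,
      abs_of_nonneg (by positivity)] at h2
    exact h2
  rw [dist_eq_norm]
  by_contra hlt
  push Not at hlt
  have h1 := key (max (r / 2) ((r + (R - ‖c - x‖)) / 2))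
    (lt_of_lt_of_le (by positivity) (le_max_left _ _)) (max_lt (by linarith) (by linarith))
  have h2 := le_max_right (r / 2) ((r + (R - ‖c - x‖)) / 2)
  linarith

theorem exists_pos_le_of_finite {F : Set ι} (hF : F.Finite) (f : ι → ℝ) (h : ∀ i ∈ F, 0 < f i) :
    ∃ ε : ℝ, 0 < ε ∧ ∀ i ∈ F, ε ≤ f i := by
  induction F, hF using Set.Finite.induction_on with
  | empty => exact ⟨1, one_pos, by simp⟩
  | insert ha hs ih =>
    rename_i a s
    obtain ⟨ε, hε, h1⟩ := ih (fun i hi => h i (mem_insert_of_mem _ hi))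
    refine ⟨min ε (f a), lt_min hε (h a (mem_insert _ _)), ?_⟩
    intro i hi
    rcases hi with rfl | hi
    · exact min_le_right _ _
    · exact (min_le_left _ _).trans (h1 i hi)

theorem hh_pos {r ε : ℝ} (hr : 0 < r) (hε : 0 < ε) : 0 < hh r ε := by
  have h1 : max (r - ε) 0 < r := max_lt (by linarith) hr
  have h0 : 0 ≤ max (r - ε) 0 := le_max_right _ _
  unfold hh
  have : max (r - ε) 0 ^ 2 < r ^ 2 := by nlinarith
  linarith

/-- The core: centre `0`, metric form. -/
theorem dimH_res [Countable ι] (P : Pack ι) (hR : 0 < P.R)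
    (hne : ∀ i, P.r i < P.R) : (5 / 4 : ℝ≥0∞) ≤ dimH P.res := by
  by_cases hvol : volume P.res = 0
  swap
  · exact dimH_of_volume hvol
  -- there is a disk
  have hι : Nonempty ι := by
    by_contra hemp
    rw [not_nonempty_iff] at hemp
    have h1 : P.res = closedBall 0 P.R := by
      unfold Pack.res
      simp
    rw [h1] at hvol
    have h2 := Metric.measure_closedBall_pos (volume : Measure ℂ) (0 : ℂ) hR
    rw [hvol] at h2
    exact lt_irrefl _ h2
  obtain ⟨i₀⟩ := hι
  -- the margin
  obtain ⟨ε₁, hε₁, h1⟩ := exists_pos_le_of_finite (finite_big P (ε := P.R / 2) (by linarith))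
    (fun i => P.R - P.r i) (fun i _ => by have := hne i; linarith)
  set ε₀ : ℝ := min (ε₁ / 3) (P.R / 6) with hε₀
  have hε₀pos : 0 < ε₀ := lt_min (by linarith) (by linarith)
  have hmargin : ∀ i, P.r i + 3 * ε₀ ≤ P.R := by
    intro i
    have ha : ε₀ ≤ ε₁ / 3 := min_le_left _ _
    have hb : ε₀ ≤ P.R / 6 := min_le_right _ _
    by_cases hi : P.R / 2 < P.r i
    · have := h1 i hi
      linarith
    · push Not at hi
      linarith
  have hQ : 0 < QQ P ∅ ε₀ := by
    unfold QQ
    refine (summable_QQ P ∅ hε₀pos.le).tsum_pos (fun i => ?_) i₀ ?_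
    · exact mul_nonneg (mass_nonneg P ∅ i) (hh_nonneg (P.rpos i).le hε₀pos.le)
    · rw [mass_empty]
      have := hh_pos (P.rpos i₀) hε₀pos
      positivity
  have hPP : 0 < PP P ∅ ε₀ := by
    unfold PP
    have := Real.rpow_pos_of_pos hε₀pos (-(3 / 4) : ℝ)
    positivity
  refine dimH_of_content (isCompact_res P) (c := PP P ∅ ε₀ / 5000) (δ := ε₀) (by positivity)
    hε₀pos ?_
  intro L hL hcov
  have := content_bound P hvol hε₀pos hmargin L hL hcov
  linarith

/-- Every disk packing of a closed disk, other than the one whose only member is the interior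
of the disk, has a residual set of Hausdorff dimension at least `5/4`. -/
theorem main_complex [Countable ι] (x₀ : ℂ) (R : ℝ) (hR : 0 < R) (c : ι → ℂ) (r : ι → ℝ)
    (hr : ∀ i, 0 < r i) (hsub : ∀ i, ball (c i) (r i) ⊆ closedBall x₀ R)
    (hdisj : Pairwise (fun i j => Disjoint (ball (c i) (r i)) (ball (c j) (r j))))
    (hne : ∀ i, ball (c i) (r i) ≠ ball x₀ R) :
    (5 / 4 : ℝ≥0∞) ≤ dimH (closedBall x₀ R \ ⋃ i, ball (c i) (r i)) := by
  have hsub' : ∀ i, dist (c i) x₀ + r i ≤ R := fun i => dist_add_le_of_ball_subset (hr i) (hsub i)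
  let P : Pack ι :=
    { c := fun i => c i - x₀
      r := r
      R := R
      rpos := hr
      sub := fun i => by
        have := hsub' i
        rw [dist_eq_norm] at this
        exact this
      dj := fun i j hij => by
        have h1 := (disjoint_ball_ball_iff (hr i) (hr j)).mp (hdisj hij)
        have h2 : dist (c i - x₀) (c j - x₀) = dist (c i) (c j) := by
          simp [dist_eq_norm]
        rw [h2]
        exact h1 }
  have hrR : ∀ i, P.r i < P.R := by
    intro i
    show r i < R
    by_contra hge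
    push Not at hge
    have h1 := hsub' i
    have h2 : 0 ≤ dist (c i) x₀ := dist_nonneg
    have h3 : dist (c i) x₀ = 0 := by linarith
    have h4 : r i = R := by linarith
    apply hne i
    rw [dist_eq_zero.mp h3, h4]
  have h := dimH_res P hR hrR
  have himg : IsometryEquiv.subRight x₀ '' (closedBall x₀ R \ ⋃ i, ball (c i) (r i)) = P.res := by
    rw [image_sdiff (IsometryEquiv.subRight x₀).injective, image_iUnion,
      IsometryEquiv.image_closedBall]
    unfold Pack.res
    congr 1
    · simp [P]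
    · refine iUnion_congr fun i => ?_
      rw [IsometryEquiv.image_ball]
      simp [P]
  rw [← himg, IsometryEquiv.dimH_image] at h
  exact h

theorem main_euclidean [Countable ι] (x₀ : EuclideanSpace ℝ (Fin 2)) (R : ℝ) (hR : 0 < R)
    (c : ι → EuclideanSpace ℝ (Fin 2)) (r : ι → ℝ)
    (hr : ∀ i, 0 < r i) (hsub : ∀ i, ball (c i) (r i) ⊆ closedBall x₀ R)
    (hdisj : Pairwise (fun i j => Disjoint (ball (c i) (r i)) (ball (c j) (r j))))
    (hne : ∀ i, ball (c i) (r i) ≠ ball x₀ R) :
    (5 / 4 : ℝ≥0∞) ≤ dimH (closedBall x₀ R \ ⋃ i, ball (c i) (r i)) := by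
  let Φ : EuclideanSpace ℝ (Fin 2) ≃ᵢ ℂ :=
    Complex.orthonormalBasisOneI.repr.symm.toIsometryEquiv
  have hb : ∀ i, Φ '' ball (c i) (r i) = ball (Φ (c i)) (r i) := fun i =>
    IsometryEquiv.image_ball Φ _ _
  have h := main_complex (Φ x₀) R hR (fun i => Φ (c i)) r hr ?_ ?_ ?_
  · have himg : Φ '' (closedBall x₀ R \ ⋃ i, ball (c i) (r i)) =
        closedBall (Φ x₀) R \ ⋃ i, ball (Φ (c i)) (r i) := by
      rw [image_sdiff Φ.injective, image_iUnion, IsometryEquiv.image_closedBall]
      congr 1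
      exact iUnion_congr fun i => hb i
    rw [← himg, IsometryEquiv.dimH_image] at h
    exact h
  · intro i
    show ball (Φ (c i)) (r i) ⊆ _
    rw [← hb i, ← IsometryEquiv.image_closedBall]
    exact image_mono (hsub i)
  · intro i j hij
    show Disjoint (ball (Φ (c i)) (r i)) (ball (Φ (c j)) (r j))
    rw [← hb i, ← hb j]
    exact (disjoint_image_iff Φ.injective).mpr (hdisj hij)
  · intro i heq
    apply hne i
    have h1 : Φ '' ball (c i) (r i) = Φ '' ball x₀ R := by
      rw [hb i, IsometryEquiv.image_ball]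
      exact heq
    exact Φ.injective.image_injective h1

end DiskDim
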